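import Pool.Agent.Helper80.BP.VCore
import Pool.Agent.Helper38.SC.Alloc
import Pool.Agent.Helper38.Thick.Frame

/-!
# Balanced ownership of the nonzero rows

`Z k` means that the row `k` is a zero row (nobody owns it).
-/

set_option autoImplicit false
set_option linter.unusedSectionVars false

namespace Pool.Agent.Helper56.BP

open Pool.Agent.Helper28.BPack Pool.Agent.Helper61.Motz Pool.Agent.Helper38.Thick
  Pool.Agent.Helper80.BP

variable {L : Type} [Lattice L] [BoundedOrder L] [Finite L] [IsUpperModularLattice L]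

/-- LEVEL 1.  Every user is on at most one zero row. -/
theorem level1Z {A R : Finset L} {u : L} [DecidableEq L] [DecidableRel (α := L) (· ≤ ·)]
    (Z : L → Prop) (hA : ∀ a ∈ A, IsAtom a) (hu : rk u = 2) (hU : 2 ≤ (A.filter (· ≤ u)).card)
    (hmax : ∀ k, rk k = 2 → (∃ c ∈ A, c ≤ u ∧ c ≤ k) →
      (A.filter (· ≤ k)).card ≤ (A.filter (· ≤ u)).card)
    (hR : ∀ x ∈ R, x ∈ A ∧ ¬ x ≤ u)
    (hZ : ∀ x ∈ R, ∀ c ∈ A, c ≤ u → ∀ c' ∈ A, c' ≤ u → Z (x ⊔ c) → Z (x ⊔ c') → c = c') :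
    ∃ c : L → L, (∀ x ∈ R, c x ∈ A ∧ c x ≤ u ∧ ¬ Z (x ⊔ c x)) ∧
      (∀ x ∈ R, ∀ y ∈ R, x ⊔ c x = y ⊔ c y → x = y) := by
  classical
  set U := A.filter (· ≤ u) with hUdef
  have hmU : ∀ c, c ∈ U ↔ c ∈ A ∧ c ≤ u := fun c => by simp [hUdef]
  -- candidate lines
  set t : L → Finset L := fun x => (U.image (fun c => x ⊔ c)).filter (fun k => ¬ Z k) with ht
  have hmt : ∀ x k, k ∈ t x ↔ (∃ c ∈ U, x ⊔ c = k) ∧ ¬ Z k := fun x k => by
    simp only [ht, Finset.mem_filter, Finset.mem_image]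
  have hne : ∀ x ∈ R, ∀ c ∈ U, x ≠ c := by
    rintro x hx c hc rfl
    exact (hR x hx).2 ((hmU x).mp hc).2
  have hrk : ∀ x ∈ R, ∀ c ∈ U, rk (x ⊔ c) = 2 := fun x hx c hc =>
    rk_line (hA x (hR x hx).1) (hA c ((hmU c).mp hc).1) (hne x hx c hc)
  have hinj : ∀ x ∈ R, Set.InjOn (fun c => x ⊔ c) (U : Set L) := by
    intro x hx c hc c' hc' e
    by_contra hcc
    have hcU := (hmU c).mp hc
    have hcU' := (hmU c').mp hc'
    have h1 := line_two (hA c hcU.1) (hA c' hcU'.1) hcc (le_sup_right : c ≤ x ⊔ c)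
      (by change c' ≤ (fun c => x ⊔ c) c; rw [e]; exact le_sup_right) (hrk x hx c hc)
      hcU.2 hcU'.2 hu
    exact (hR x hx).2 (h1 ▸ le_sup_left)
  have hdeg : ∀ x ∈ R, U.card - 1 ≤ (t x).card := by
    intro x hx
    have h1 : (U.image (fun c => x ⊔ c)).card = U.card := Finset.card_image_of_injOn (hinj x hx)
    have h2 : ((U.image (fun c => x ⊔ c)).filter (fun k => Z k)).card ≤ 1 := by
      rw [Finset.card_le_one]
      intro k hk l hl
      rw [Finset.mem_filter, Finset.mem_image] at hk hl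
      obtain ⟨⟨c, hc, hck⟩, hrk1⟩ := hk
      obtain ⟨⟨c', hc', hcl⟩, hrl1⟩ := hl
      have hcU := (hmU c).mp hc
      have hcU' := (hmU c').mp hc'
      have h3 := hZ x hx c hcU.1 hcU.2 c' hcU'.1 hcU'.2 (by rw [hck]; exact hrk1)
        (by rw [hcl]; exact hrl1)
      rw [← hck, ← hcl, h3]
    have h3 := Finset.card_filter_add_card_filter_not (s := U.image (fun c => x ⊔ c))
      (fun k => Z k)
    have h4 : (t x).card = ((U.image (fun c => x ⊔ c)).filter (fun k => ¬ Z k)).card := rfl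
    omega
  have hcod : ∀ k, ∀ S ⊆ R, (S.filter (fun x => k ∈ t x)).card ≤ U.card - 1 := by
    intro k S hS
    rcases (S.filter (fun x => k ∈ t x)).eq_empty_or_nonempty with h0 | ⟨x0, hx0⟩
    · rw [h0, Finset.card_empty]
      exact Nat.zero_le _
    · rw [Finset.mem_filter, hmt] at hx0
      obtain ⟨hx0S, ⟨c0, hc0, hk0⟩, -⟩ := hx0
      have hx0R := hS hx0S
      have hc0' := (hmU c0).mp hc0
      have hk2 : rk k = 2 := hk0 ▸ hrk x0 hx0R c0 hc0
      have hc0k : c0 ≤ k := hk0 ▸ le_sup_right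
      have h1 := hmax k hk2 ⟨c0, hc0'.1, hc0'.2, hc0k⟩
      have hsub : insert c0 (S.filter (fun x => k ∈ t x)) ⊆ A.filter (· ≤ k) := by
        intro z hz
        rw [Finset.mem_insert, Finset.mem_filter, hmt] at hz
        rw [Finset.mem_filter]
        rcases hz with rfl | ⟨hz1, ⟨c, hc, hzk⟩, -⟩
        · exact ⟨hc0'.1, hc0k⟩
        · exact ⟨(hR z (hS hz1)).1, hzk ▸ le_sup_left⟩
      have hnot : c0 ∉ S.filter (fun x => k ∈ t x) := by
        intro h
        rw [Finset.mem_filter] at h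
        exact (hR c0 (hS h.1)).2 hc0'.2
      have h2 := Finset.card_le_card hsub
      rw [Finset.card_insert_of_notMem hnot] at h2
      omega
  -- Hall
  have hall : ∀ S : Finset {x // x ∈ R}, S.card ≤ (S.biUnion (fun x => t x.1)).card := by
    intro S
    set S' : Finset L := S.map (Function.Embedding.subtype _) with hS'
    have hc : S.card = S'.card := by rw [hS', Finset.card_map]
    have hS'R : S' ⊆ R := by
      intro x hx
      rw [hS', Finset.mem_map] at hx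
      obtain ⟨y, -, rfl⟩ := hx
      exact y.2
    have hmS' : ∀ x, x ∈ S' → ∃ y ∈ S, y.1 = x := by
      intro x hx
      rw [hS', Finset.mem_map] at hx
      obtain ⟨y, hy, rfl⟩ := hx
      exact ⟨y, hy, rfl⟩
    have h := Finset.card_mul_le_card_mul (s := S') (t := S.biUnion (fun x => t x.1))
      (fun x k => k ∈ t x) (m := U.card - 1) (n := U.card - 1) ?_ ?_
    · rw [hc]
      exact Nat.le_of_mul_le_mul_right h (by omega)
    · intro x hx
      obtain ⟨y, hy, rfl⟩ := hmS' x hx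
      refine (hdeg y.1 y.2).trans (Finset.card_le_card ?_)
      intro k hk
      rw [Finset.mem_bipartiteAbove]
      exact ⟨Finset.mem_biUnion.mpr ⟨y, hy, hk⟩, hk⟩
    · intro k _
      exact hcod k S' hS'R
  obtain ⟨f, hf, hft⟩ := (Finset.all_card_le_biUnion_card_iff_exists_injective _).mp hall
  have hex : ∀ x : {x // x ∈ R}, ∃ c ∈ U, x.1 ⊔ c = f x := fun x => ((hmt _ _).mp (hft x)).1
  choose g hgU hgf using hex
  refine ⟨fun x => if h : x ∈ R then g ⟨x, h⟩ else x, ?_, ?_⟩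
  · intro x hx
    simp only [hx, dite_true]
    have h1 := (hmU _).mp (hgU ⟨x, hx⟩)
    refine ⟨h1.1, h1.2, ?_⟩
    have h2 := ((hmt _ _).mp (hft ⟨x, hx⟩)).2
    rw [← hgf ⟨x, hx⟩] at h2
    exact h2
  · intro x hx y hy e
    simp only [hx, hy, dite_true] at e
    have h1 : f ⟨x, hx⟩ = f ⟨y, hy⟩ := by
      rw [← hgf ⟨x, hx⟩, ← hgf ⟨y, hy⟩]
      exact e
    exact congrArg Subtype.val (hf h1)

/-- **Balanced ownership of all nonzero rows**, from any injection into the nonzero rows. -/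
theorem alloc_rows {A R : Finset L} {u : L} [DecidableEq L] [DecidableRel (α := L) (· ≤ ·)]
    (Z : L → Prop) (hA : ∀ a ∈ A, IsAtom a) (hu : rk u = 2)
    (hR : ∀ x ∈ R, x ∈ A ∧ ¬ x ≤ u)
    {m : L → L} (hm : ∀ x ∈ R, m x ∈ A ∧ m x ≤ u ∧ ¬ Z (x ⊔ m x))
    (hminj : ∀ x ∈ R, ∀ y ∈ R, x ⊔ m x = y ⊔ m y → x = y) :
    ∃ (own : L → Finset L) (cls : L → ℕ), SC A R u own cls ∧
      (∀ x ∈ R, ∀ c ∈ own x, ¬ Z (x ⊔ c)) ∧
      (∀ x ∈ R, ∀ c ∈ A, c ≤ u → ¬ Z (x ⊔ c) →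
        ∃ y ∈ R, c ∈ own y ∧ y ⊔ c = x ⊔ c ∧ cls y ≤ cls x) := by
  classical
  have : Fintype L := Fintype.ofFinite L
  have hne : ∀ x ∈ R, ∀ c, c ≤ u → x ≠ c := by
    rintro x hx c hc rfl
    exact (hR x hx).2 hc
  have hrk : ∀ x ∈ R, ∀ c ∈ A, c ≤ u → rk (x ⊔ c) = 2 := fun x hx c hc hcu =>
    rk_line (hA x (hR x hx).1) (hA c hc) (hne x hx c hcu)
  -- two points of `u` on a line through `x`
  have hcol : ∀ x ∈ R, ∀ c ∈ A, c ≤ u → ∀ c' ∈ A, c' ≤ u → c' ≤ x ⊔ c → c = c' := by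
    intro x hx c hc hcu c' hc' hcu' h
    by_contra hcc
    have h1 := line_two (hA c hc) (hA c' hc') hcc (le_sup_right : c ≤ x ⊔ c) h
      (hrk x hx c hc hcu) hcu hcu' hu
    exact (hR x hx).2 (h1 ▸ le_sup_left)
  have hrow : ∀ x ∈ R, ∀ y ∈ R, ∀ c ∈ A, c ≤ u → y ≤ x ⊔ c → y ⊔ c = x ⊔ c :=
    fun x hx y hy c hc hcu h =>
      line_of (hA y (hR y hy).1) (hA c hc) (hne y hy c hcu) h le_sup_right (hrk x hx c hc hcu)
  let X := {x : L // x ∈ R}
  let K := {k : L // ∃ x ∈ R, ∃ c ∈ A, c ≤ u ∧ ¬ Z k ∧ x ⊔ c = k}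
  let inc : K → Finset X := fun k => Finset.univ.filter (fun x => x.1 ≤ k.1)
  have hinc : ∀ (k : K) (x : X), x ∈ inc k ↔ x.1 ≤ k.1 := fun k x => by simp [inc]
  let mk : ∀ (x c : L), x ∈ R → c ∈ A → c ≤ u → ¬ Z (x ⊔ c) → K :=
    fun x c hx hc hcu hZ => ⟨x ⊔ c, x, hx, c, hc, hcu, hZ, rfl⟩
  obtain ⟨o, cls, ho, hlow, hload⟩ := Pool.Agent.Helper38.SC.alloc inc
    (fun k => by
      obtain ⟨x, hx, c, hc, hcu, hZ, e⟩ := k.2
      exact ⟨⟨x, hx⟩, (hinc k _).mpr (e ▸ le_sup_left)⟩)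
    (fun x => mk x.1 (m x.1) x.2 (hm x.1 x.2).1 (hm x.1 x.2).2.1 (hm x.1 x.2).2.2)
    (fun x y e => Subtype.ext (hminj x.1 x.2 y.1 y.2 (congrArg Subtype.val e)))
    (fun x => (hinc _ _).mpr le_sup_left)
  -- owned colours
  let own : L → Finset L := fun x => A.filter (fun c => c ≤ u ∧
    ∃ (hx : x ∈ R) (k : K), o k = ⟨x, hx⟩ ∧ k.1 = x ⊔ c)
  have hown : ∀ x c, c ∈ own x ↔ c ∈ A ∧ c ≤ u ∧
      ∃ (hx : x ∈ R) (k : K), o k = ⟨x, hx⟩ ∧ k.1 = x ⊔ c := fun x c => by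
    simp only [own, Finset.mem_filter]
  have hcard : ∀ (x : L) (hx : x ∈ R), (own x).card = Pool.Agent.Helper38.SC.load o ⟨x, hx⟩ := by
    intro x hx
    unfold Pool.Agent.Helper38.SC.load
    symm
    -- the map from rows to colours
    have hex : ∀ k ∈ Finset.univ.filter (fun k => o k = (⟨x, hx⟩ : X)),
        ∃ c ∈ A, c ≤ u ∧ k.1 = x ⊔ c := by
      intro k hk
      rw [Finset.mem_filter] at hk
      obtain ⟨y, hy, c, hc, hcu, hZ, e⟩ := k.2
      have h1 : x ≤ k.1 := by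
        have := (hinc k (o k)).mp (ho k)
        rw [hk.2] at this
        exact this
      refine ⟨c, hc, hcu, ?_⟩
      rw [← e] at h1 ⊢
      exact (hrow y hy x hx c hc hcu h1).symm
    refine Finset.card_bij' (fun k hk => (hex k hk).choose)
      (fun c hc => ((hown x c).mp hc).2.2.choose_spec.choose) ?_ ?_ ?_ ?_
    · intro k hk
      have h1 := (hex k hk).choose_spec
      have h2 := (Finset.mem_filter.mp hk).2
      exact (hown _ _).mpr ⟨h1.1, h1.2.1, hx, k, h2, h1.2.2⟩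
    · intro c hc
      have h1 := ((hown x c).mp hc).2.2.choose_spec.choose_spec
      rw [Finset.mem_filter]
      exact ⟨Finset.mem_univ _, h1.1⟩
    · intro k hk
      have h1 := (hex k hk).choose_spec
      have hc : (hex k hk).choose ∈ own x :=
        (hown _ _).mpr ⟨h1.1, h1.2.1, hx, k, (Finset.mem_filter.mp hk).2, h1.2.2⟩
      have h2 := ((hown x _).mp hc).2.2.choose_spec.choose_spec
      apply Subtype.ext
      exact h2.2.trans h1.2.2.symm
    · intro c hc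
      have h1 := ((hown x c).mp hc).2.2.choose_spec.choose_spec
      have hk : ((hown x c).mp hc).2.2.choose_spec.choose ∈
          Finset.univ.filter (fun k => o k = (⟨x, hx⟩ : X)) := by
        rw [Finset.mem_filter]
        exact ⟨Finset.mem_univ _, h1.1⟩
      have h2 := (hex _ hk).choose_spec
      have h3 := (hown x c).mp hc
      exact hcol x hx _ h2.1 h2.2.1 c h3.1 h3.2.1 (by rw [← h2.2.2, h1.2]; exact le_sup_right)
  refine ⟨own, fun x => if hx : x ∈ R then cls ⟨x, hx⟩ else 0, ?_, ?_, ?_⟩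
  · refine ⟨hA, hu, fun v hv => (hR v hv).1, fun v hv => (hR v hv).2, ?_, ?_, ?_, ?_, ?_, ?_⟩
    · intro v _ c hc
      have h1 := (hown v c).mp hc
      exact ⟨h1.1, h1.2.1⟩
    · intro v hv v' hv' c hc hc' e
      obtain ⟨h1, h2, hx, k, hk, hk2⟩ := (hown v c).mp hc
      obtain ⟨h1', h2', hx', k', hk', hk2'⟩ := (hown v' c).mp hc'
      have h3 : k = k' := Subtype.ext (by rw [hk2, hk2', e])
      rw [h3, hk'] at hk
      exact (congrArg Subtype.val hk).symm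
    · intro v hv c hc y hy hyk
      obtain ⟨h1, h2, hx, k, hk, hk2⟩ := (hown v c).mp hc
      simp only [hv, hy, dite_true]
      have h3 := hlow k ⟨y, hy⟩ ((hinc _ _).mpr (by rw [hk2]; exact hyk))
      rw [hk] at h3
      exact h3
    · intro v hv
      simp only [hv, dite_true]
      exact (hload ⟨v, hv⟩).1
    · intro v hv
      simp only [hv, dite_true]
      rw [hcard v hv]
      exact (hload ⟨v, hv⟩).2.1
    · intro v hv
      simp only [hv, dite_true]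
      rw [hcard v hv]
      exact (hload ⟨v, hv⟩).2.2
  · intro x hx c hc
    obtain ⟨h1, h2, hx', k, hk, hk2⟩ := (hown x c).mp hc
    obtain ⟨y, hy, c', hc', hcu', hZ, e⟩ := k.2
    rw [← hk2]
    exact hZ
  · intro x hx c hc hcu hZ
    set k : K := mk x c hx hc hcu hZ with hk
    have hkv : k.1 = x ⊔ c := rfl
    have h1 : (o k).1 ≤ x ⊔ c := by
      have := (hinc k (o k)).mp (ho k)
      exact this
    have h2 : (o k).1 ⊔ c = x ⊔ c := hrow x hx (o k).1 (o k).2 c hc hcu h1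
    refine ⟨(o k).1, (o k).2, (hown _ _).mpr ⟨hc, hcu, (o k).2, k, rfl, by rw [hkv, h2]⟩, h2, ?_⟩
    have h3 := hlow k ⟨x, hx⟩ ((hinc _ _).mpr (by rw [hkv]; exact le_sup_left))
    have e1 : (o k).1 ∈ R := (o k).2
    simp only [hx, e1, dite_true]
    exact h3

/-- **Level 1 with the zero rows inside the planes `c ⊔ v`.** -/
theorem level1K {A R : Finset L} {u v : L} [DecidableEq L] [DecidableRel (α := L) (· ≤ ·)]
    (hA : ∀ a ∈ A, IsAtom a) (hu : rk u = 2) (hv : rk v = 2) (huv : rk (u ⊔ v) = 4)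
    (hU : 2 ≤ (A.filter (· ≤ u)).card)
    (hmax : ∀ k, rk k = 2 → (∃ c ∈ A, c ≤ u ∧ c ≤ k) →
      (A.filter (· ≤ k)).card ≤ (A.filter (· ≤ u)).card)
    (hR : ∀ x ∈ R, x ∈ A ∧ ¬ x ≤ u ∧ ¬ x ≤ v) :
    ∃ (own : L → Finset L) (cls : L → ℕ), SC A R u own cls ∧
      (∀ x ∈ R, ∀ c ∈ own x, ¬ x ≤ c ⊔ v) ∧
      (∀ x ∈ R, ∀ c ∈ A, c ≤ u → ¬ x ≤ c ⊔ v →
        ∃ y ∈ R, c ∈ own y ∧ y ⊔ c = x ⊔ c ∧ cls y ≤ cls x) := by
  classical
  have hcv : ∀ c ∈ A, c ≤ u → ¬ c ≤ v := by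
    intro c hc hcu hcv
    have h1 : u ⊔ v ≤ u ⊔ v := le_rfl
    obtain ⟨d, hd, hdc⟩ : ∃ d ∈ A.filter (· ≤ u), d ≠ c :=
      Finset.exists_mem_ne (by omega) c
    rw [Finset.mem_filter] at hd
    have hcd : c ⊔ d = u := line_of (hA c hc) (hA d hd.1) hdc.symm hcu hd.2 hu
    have h2 : u ⊔ v = v ⊔ d := by
      rw [← hcd]
      apply le_antisymm
      · exact sup_le (sup_le (hcv.trans le_sup_left) le_sup_right) le_sup_left
      · exact sup_le le_sup_right (le_sup_right.trans le_sup_left)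
    have h3 := rk_sup_atom_le (x := v) (hA d hd.1)
    rw [← h2] at h3
    omega
  have hK3 : ∀ c ∈ A, c ≤ u → rk (c ⊔ v) = 3 := fun c hc hcu => by
    rw [sup_comm, rk_sup_atom (hA c hc) (hcv c hc hcu), hv]
  -- the predicate
  set Z : L → Prop := fun k => ∃ c ∈ A, c ≤ u ∧ c ≤ k ∧ k ≤ c ⊔ v with hZ
  have hZiff : ∀ x ∈ R, ∀ c ∈ A, c ≤ u → (Z (x ⊔ c) ↔ x ≤ c ⊔ v) := by
    intro x hx c hc hcu
    constructor
    · rintro ⟨c', hc', hcu', h1, h2⟩
      have hxc : x ≠ c := fun h => (hR x hx).2.1 (h ▸ hcu)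
      have hcc : c = c' := by
        by_contra hne
        have h3 := line_two (hA c hc) (hA c' hc') hne (le_sup_right : c ≤ x ⊔ c) h1
          (rk_line (hA x (hR x hx).1) (hA c hc) hxc) hcu hcu' hu
        exact (hR x hx).2.1 (h3 ▸ le_sup_left)
      rw [hcc]
      exact (hcc ▸ le_sup_left : x ≤ x ⊔ c).trans h2
    · intro h
      exact ⟨c, hc, hcu, le_sup_right, sup_le h le_sup_left⟩
  have hZ1 : ∀ x ∈ R, ∀ c ∈ A, c ≤ u → ∀ c' ∈ A, c' ≤ u → Z (x ⊔ c) → Z (x ⊔ c') → c = c' := by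
    intro x hx c hc hcu c' hc' hcu' h h'
    rw [hZiff x hx c hc hcu] at h
    rw [hZiff x hx c' hc' hcu'] at h'
    by_contra hcc
    apply (hR x hx).2.2
    refine inter_line (hK3 c hc hcu) (hK3 c' hc' hcu') hv (hA x (hR x hx).1) le_sup_right
      le_sup_right h h' ?_
    intro e
    have h1 : c' ≤ c ⊔ v := e ▸ le_sup_left
    have h2 : u ≤ c ⊔ v := by
      rw [← line_of (hA c hc) (hA c' hc') hcc hcu hcu' hu]
      exact sup_le le_sup_left h1
    have h3 := rk_mono (sup_le h2 le_sup_right : u ⊔ v ≤ c ⊔ v)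
    have h4 := hK3 c hc hcu
    omega
  obtain ⟨m, hm, hminj⟩ := level1Z Z hA hu hU hmax (fun x hx => ⟨(hR x hx).1, (hR x hx).2.1⟩) hZ1
  obtain ⟨own, cls, h1, h2, h3⟩ := alloc_rows Z hA hu
    (fun x hx => ⟨(hR x hx).1, (hR x hx).2.1⟩) hm hminj
  refine ⟨own, cls, h1, ?_, ?_⟩
  · intro x hx c hc h
    have h4 := h1.ownA x hx c hc
    exact h2 x hx c hc ((hZiff x hx c h4.1 h4.2).mpr h)
  · intro x hx c hc hcu h
    exact h3 x hx c hc hcu (fun h' => h ((hZiff x hx c hc hcu).mp h'))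

end Pool.Agent.Helper56.BP
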