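import Mathlib

/-!
# Big blocks

Blocks on a finite set, two of them share at most one point.  The blocks with more than `√(2ν)`
points have at most `2ν` incidences, so most ordered pairs of points lie in small blocks which do
not contain a given point.
-/

set_option autoImplicit false

namespace Pool.Agent.Helper56.Cauchy

open Finset

variable {α β : Type*} [DecidableEq α] [DecidableEq β]

/-- **Big blocks have few incidences.** -/
theorem big_blocks (X : Finset α) (B : Finset β) (f : β → Finset α) (hX : ∀ b ∈ B, f b ⊆ X)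
    (h1 : ∀ b ∈ B, ∀ b' ∈ B, b ≠ b' → (f b ∩ f b').card ≤ 1)
    (hbig : ∀ b ∈ B, 2 * X.card < (f b).card ^ 2) : ∑ b ∈ B, (f b).card ≤ 2 * X.card := by
  classical
  set D : ℕ := ∑ b ∈ B, (f b).card with hD
  set ν : ℕ := X.card with hν
  set k : ℕ := B.card with hk
  -- incidences
  have e1 : D = ∑ x ∈ X, (B.filter (fun b => x ∈ f b)).card := by
    rw [hD]
    have : ∀ b ∈ B, (f b).card = ∑ x ∈ X, if x ∈ f b then 1 else 0 := by
      intro b hb
      rw [Finset.sum_boole, Finset.filter_mem_eq_inter, Finset.inter_eq_right.mpr (hX b hb)]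
      simp
    rw [Finset.sum_congr rfl this, Finset.sum_comm]
    refine Finset.sum_congr rfl fun x _ => ?_
    rw [Finset.sum_boole]
    simp
  have e2 : ∑ x ∈ X, (B.filter (fun b => x ∈ f b)).card ^ 2 =
      ∑ b ∈ B, ∑ b' ∈ B, (f b ∩ f b').card := by
    have : ∀ x ∈ X, (B.filter (fun b => x ∈ f b)).card ^ 2 =
        ∑ b ∈ B, ∑ b' ∈ B, if x ∈ f b ∧ x ∈ f b' then 1 else 0 := by
      intro x _
      have h : (B.filter (fun b => x ∈ f b)).card = ∑ b ∈ B, if x ∈ f b then 1 else 0 := by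
        rw [Finset.sum_boole]
        simp
      rw [sq, h, Finset.sum_mul_sum]
      refine Finset.sum_congr rfl fun b _ => Finset.sum_congr rfl fun b' _ => ?_
      by_cases hb : x ∈ f b <;> by_cases hb' : x ∈ f b' <;> simp [hb, hb']
    rw [Finset.sum_congr rfl this, Finset.sum_comm]
    refine Finset.sum_congr rfl fun b hb => ?_
    rw [Finset.sum_comm]
    refine Finset.sum_congr rfl fun b' hb' => ?_
    rw [Finset.sum_boole]
    have : X.filter (fun x => x ∈ f b ∧ x ∈ f b') = f b ∩ f b' := by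
      ext x
      simp only [Finset.mem_filter, Finset.mem_inter]
      exact ⟨fun h => h.2, fun h => ⟨hX b hb h.1, h⟩⟩
    rw [this]
    simp
  have e3 : ∑ b ∈ B, ∑ b' ∈ B, (f b ∩ f b').card ≤ D + k ^ 2 := by
    have h : ∀ b ∈ B, ∑ b' ∈ B, (f b ∩ f b').card ≤ (f b).card + k := by
      intro b hb
      rw [← Finset.add_sum_erase B _ hb, Finset.inter_self]
      refine Nat.add_le_add_left ?_ _
      calc ∑ b' ∈ B.erase b, (f b ∩ f b').card ≤ ∑ b' ∈ B.erase b, 1 :=
            Finset.sum_le_sum fun b' hb' =>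
              h1 b hb b' (Finset.mem_of_mem_erase hb') (Finset.ne_of_mem_erase hb').symm
        _ = (B.erase b).card := by simp
        _ ≤ k := Finset.card_le_card (Finset.erase_subset _ _)
    calc ∑ b ∈ B, ∑ b' ∈ B, (f b ∩ f b').card ≤ ∑ b ∈ B, ((f b).card + k) :=
          Finset.sum_le_sum h
      _ = D + k ^ 2 := by
          rw [Finset.sum_add_distrib, Finset.sum_const, smul_eq_mul, ← hD, ← hk, sq]
  have e4 : D ^ 2 ≤ ν * (D + k ^ 2) := by
    calc D ^ 2 = (∑ x ∈ X, (B.filter (fun b => x ∈ f b)).card) ^ 2 := by rw [← e1]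
      _ ≤ X.card * ∑ x ∈ X, (B.filter (fun b => x ∈ f b)).card ^ 2 :=
          sq_sum_le_card_mul_sum_sq
      _ ≤ ν * (D + k ^ 2) := Nat.mul_le_mul_left _ (by rw [e2]; exact e3)
  have e5 : 2 * ν * k ^ 2 ≤ D ^ 2 := by
    have h : ∀ b ∈ B, ∀ b' ∈ B, 2 * ν ≤ (f b).card * (f b').card := by
      intro b hb b' hb'
      have h3 := hbig b hb
      have h4 := hbig b' hb'
      by_contra hcon
      push Not at hcon
      have h5 : (2 * ν) * (2 * ν) ≤ (f b).card ^ 2 * (f b').card ^ 2 :=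
        Nat.mul_le_mul h3.le h4.le
      have h6 : (f b).card ^ 2 * (f b').card ^ 2 < (2 * ν) * (2 * ν) := by
        rw [← mul_pow, sq]
        exact Nat.mul_self_lt_mul_self hcon
      omega
    calc 2 * ν * k ^ 2 = ∑ b ∈ B, ∑ b' ∈ B, 2 * ν := by
          simp only [Finset.sum_const, smul_eq_mul, ← hk]
          ring
      _ ≤ ∑ b ∈ B, ∑ b' ∈ B, (f b).card * (f b').card :=
          Finset.sum_le_sum fun b hb => Finset.sum_le_sum fun b' hb' => h b hb b' hb'
      _ = D ^ 2 := by rw [sq, hD, Finset.sum_mul_sum]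
  by_contra hcon
  push Not at hcon
  have h7 : D ^ 2 ≤ 2 * ν * D := by nlinarith
  have h8 : 2 * ν * D < D * D := Nat.mul_lt_mul_of_pos_right hcon (by omega)
  rw [sq] at h7
  omega

/-- **Most pairs are in small blocks off a given point.** -/
theorem good_pairs (X : Finset α) (g0 : α) (hg0 : g0 ∈ X) (bl : α → α → β) (f : β → Finset α)
    (hf : ∀ g ∈ X, ∀ h ∈ X, g ≠ h → f (bl g h) ⊆ X ∧ g ∈ f (bl g h) ∧ h ∈ f (bl g h))
    (huniq : ∀ g ∈ X, ∀ h ∈ X, g ≠ h → ∀ g' ∈ X, ∀ h' ∈ X, g' ≠ h' → g' ∈ f (bl g h) →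
      h' ∈ f (bl g h) → bl g' h' = bl g h)
    {M : ℕ} (hM : ∀ g ∈ X, ∀ h ∈ X, g ≠ h → (f (bl g h)).card ≤ M) (hMX : 10 * M ≤ X.card)
    (hX : 110 ≤ X.card) :
    16 * X.card ^ 2 ≤ 25 * (X.offDiag.filter (fun p => g0 ∉ f (bl p.1 p.2) ∧
      (f (bl p.1 p.2)).card ^ 2 ≤ 2 * X.card)).card := by
  classical
  set ν : ℕ := X.card with hν
  set B : Finset β := X.offDiag.image (fun p => bl p.1 p.2) with hB
  have hmB : ∀ b ∈ B, ∃ g ∈ X, ∃ h ∈ X, g ≠ h ∧ bl g h = b := by
    intro b hb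
    obtain ⟨⟨g, h⟩, hp, e⟩ := Finset.mem_image.mp hb
    obtain ⟨h1, h2, h3⟩ := Finset.mem_offDiag.mp hp
    exact ⟨g, h1, h, h2, h3, e⟩
  have hsub : ∀ b ∈ B, f b ⊆ X := by
    intro b hb
    obtain ⟨g, hg, h, hh, hne, rfl⟩ := hmB b hb
    exact (hf g hg h hh hne).1
  have hshare : ∀ b ∈ B, ∀ b' ∈ B, b ≠ b' → (f b ∩ f b').card ≤ 1 := by
    intro b hb b' hb' hne
    rw [Finset.card_le_one]
    intro x hx y hy
    by_contra hxy
    obtain ⟨hx1, hx2⟩ := Finset.mem_inter.mp hx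
    obtain ⟨hy1, hy2⟩ := Finset.mem_inter.mp hy
    obtain ⟨g, hg, h, hh, hgh, rfl⟩ := hmB b hb
    obtain ⟨g', hg', h', hh', hgh', rfl⟩ := hmB b' hb'
    have hxX := hsub _ hb hx1
    have hyX := hsub _ hb hy1
    exact hne ((huniq g hg h hh hgh x hxX y hyX hxy hx1 hy1).symm.trans
      (huniq g' hg' h' hh' hgh' x hxX y hyX hxy hx2 hy2))
  -- the pairs of a block
  have hpairs : ∀ b ∈ B, X.offDiag.filter (fun p => bl p.1 p.2 = b) = (f b).offDiag := by
    intro b hb
    obtain ⟨g, hg, h, hh, hgh, rfl⟩ := hmB b hb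
    ext ⟨x, y⟩
    simp only [Finset.mem_filter, Finset.mem_offDiag]
    constructor
    · rintro ⟨⟨h1, h2, h3⟩, h4⟩
      obtain ⟨-, h5, h6⟩ := hf x h1 y h2 h3
      rw [h4] at h5 h6
      exact ⟨h5, h6, h3⟩
    · rintro ⟨h1, h2, h3⟩
      have hx := hsub _ hb h1
      have hy := hsub _ hb h2
      exact ⟨⟨hx, hy, h3⟩, huniq g hg h hh hgh x hx y hy h3 h1 h2⟩
  -- big blocks
  set B1 : Finset β := B.filter (fun b => 2 * ν < (f b).card ^ 2) with hB1
  set B2 : Finset β := B.filter (fun b => (f b).card ^ 2 ≤ 2 * ν ∧ g0 ∈ f b) with hB2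
  have hb1 : ∑ b ∈ B1, (f b).card ≤ 2 * ν :=
    big_blocks X B1 f (fun b hb => hsub b (Finset.mem_filter.mp hb).1)
      (fun b hb b' hb' => hshare b (Finset.mem_filter.mp hb).1 b' (Finset.mem_filter.mp hb').1)
      (fun b hb => (Finset.mem_filter.mp hb).2)
  have hb2 : ∑ b ∈ B2, ((f b).card - 1) ≤ ν := by
    have : ∑ b ∈ B2, ((f b).card - 1) = (B2.biUnion (fun b => (f b).erase g0)).card := by
      rw [Finset.card_biUnion]
      · refine Finset.sum_congr rfl fun b hb => ?_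
        rw [Finset.card_erase_of_mem (Finset.mem_filter.mp hb).2.2]
      · intro b hb b' hb' hne
        rw [Function.onFun, Finset.disjoint_left]
        intro x hx hx'
        obtain ⟨h1, h2⟩ := Finset.mem_erase.mp hx
        obtain ⟨h3, h4⟩ := Finset.mem_erase.mp hx'
        obtain ⟨hbB, hbs, hbg⟩ := Finset.mem_filter.mp hb
        obtain ⟨hbB', hbs', hbg'⟩ := Finset.mem_filter.mp hb'
        have h5 := hshare b hbB b' hbB' hne
        rw [Finset.card_le_one] at h5
        exact h1 (h5 x (Finset.mem_inter.mpr ⟨h2, h4⟩) g0 (Finset.mem_inter.mpr ⟨hbg, hbg'⟩))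
    rw [this]
    refine Finset.card_le_card ?_
    intro x hx
    obtain ⟨b, hb, hx⟩ := Finset.mem_biUnion.mp hx
    exact hsub b (Finset.mem_filter.mp hb).1 (Finset.mem_of_mem_erase hx)
  -- the count
  have hsplit : X.offDiag.card ≤ (X.offDiag.filter (fun p => g0 ∉ f (bl p.1 p.2) ∧
      (f (bl p.1 p.2)).card ^ 2 ≤ 2 * ν)).card + ∑ b ∈ B1, (f b).offDiag.card +
      ∑ b ∈ B2, (f b).offDiag.card := by
    have hsub2 : X.offDiag ⊆ (X.offDiag.filter (fun p => g0 ∉ f (bl p.1 p.2) ∧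
        (f (bl p.1 p.2)).card ^ 2 ≤ 2 * ν)) ∪ (B1.biUnion fun b => (f b).offDiag) ∪
        (B2.biUnion fun b => (f b).offDiag) := by
      intro p hp
      have hbB : bl p.1 p.2 ∈ B := Finset.mem_image.mpr ⟨p, hp, rfl⟩
      have hpf : p ∈ (f (bl p.1 p.2)).offDiag := by
        rw [← hpairs _ hbB]
        exact Finset.mem_filter.mpr ⟨hp, rfl⟩
      by_cases h1 : 2 * ν < (f (bl p.1 p.2)).card ^ 2
      · refine Finset.mem_union_left _ (Finset.mem_union_right _ (Finset.mem_biUnion.mpr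
          ⟨bl p.1 p.2, Finset.mem_filter.mpr ⟨hbB, h1⟩, hpf⟩))
      · push Not at h1
        by_cases h2 : g0 ∈ f (bl p.1 p.2)
        · exact Finset.mem_union_right _ (Finset.mem_biUnion.mpr
            ⟨bl p.1 p.2, Finset.mem_filter.mpr ⟨hbB, h1, h2⟩, hpf⟩)
        · exact Finset.mem_union_left _ (Finset.mem_union_left _
            (Finset.mem_filter.mpr ⟨hp, h2, h1⟩))
    refine (Finset.card_le_card hsub2).trans ?_
    refine (Finset.card_union_le _ _).trans (Nat.add_le_add ?_ Finset.card_biUnion_le)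
    exact (Finset.card_union_le _ _).trans (Nat.add_le_add_left Finset.card_biUnion_le _)
  have c1 : ∑ b ∈ B1, (f b).offDiag.card ≤ 2 * ν * M := by
    calc ∑ b ∈ B1, (f b).offDiag.card ≤ ∑ b ∈ B1, (f b).card * M := by
          refine Finset.sum_le_sum fun b hb => ?_
          obtain ⟨g, hg, h, hh, hgh, e⟩ := hmB b (Finset.mem_filter.mp hb).1
          have h1 := hM g hg h hh hgh
          rw [e] at h1
          rw [Finset.offDiag_card]
          exact (Nat.sub_le _ _).trans (Nat.mul_le_mul_left _ h1)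
      _ = (∑ b ∈ B1, (f b).card) * M := (Finset.sum_mul _ _ _).symm
      _ ≤ 2 * ν * M := Nat.mul_le_mul_right _ hb1
  -- a number `t` with `t² ≤ 2ν`
  set t : ℕ := Nat.sqrt (2 * ν) with ht
  have ht2 : t * t ≤ 2 * ν := Nat.sqrt_le _
  have c2 : ∑ b ∈ B2, (f b).offDiag.card ≤ t * ν := by
    calc ∑ b ∈ B2, (f b).offDiag.card ≤ ∑ b ∈ B2, t * ((f b).card - 1) := by
          refine Finset.sum_le_sum fun b hb => ?_
          have h1 := (Finset.mem_filter.mp hb).2.1
          have h2 : (f b).card ≤ t := Nat.le_sqrt.mpr (by rw [← sq]; exact h1)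
          rw [Finset.offDiag_card]
          calc (f b).card * (f b).card - (f b).card = (f b).card * ((f b).card - 1) := by
                rw [Nat.mul_sub, Nat.mul_one]
            _ ≤ t * ((f b).card - 1) := Nat.mul_le_mul_right _ h2
      _ = t * ∑ b ∈ B2, ((f b).card - 1) := (Finset.mul_sum _ _ _).symm
      _ ≤ t * ν := Nat.mul_le_mul_left _ hb2
  have c3 : X.offDiag.card = ν * ν - ν := Finset.offDiag_card X
  set G : ℕ := (X.offDiag.filter (fun p => g0 ∉ f (bl p.1 p.2) ∧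
      (f (bl p.1 p.2)).card ^ 2 ≤ 2 * ν)).card with hG
  have c4 : ν * ν ≤ G + 2 * ν * M + t * ν + ν := by
    have h1 := hsplit
    rw [c3] at h1
    omega
  -- `t ≤ 7 ν / 50`
  have c5 : 50 * t ≤ 7 * ν := by
    by_contra hcon
    push Not at hcon
    have h1 : (7 * ν) * (7 * ν) < (50 * t) * (50 * t) := Nat.mul_self_lt_mul_self hcon
    have h2 : (50 * t) * (50 * t) ≤ 5000 * ν := by nlinarith
    nlinarith
  have c6 : 5 * (2 * ν * M) ≤ ν * ν := by nlinarith
  have c7 : 110 * ν ≤ ν * ν := Nat.mul_le_mul_right _ hX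
  have c8 : 50 * (t * ν) ≤ 7 * (ν * ν) := by nlinarith
  rw [sq]
  omega

end Pool.Agent.Helper56.Cauchy
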