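import Pool.Agent.Helper56.BP.Trans2
import Pool.Agent.Helper38.SC.Own
import Pool.Agent.Helper83.RC.ConeW
import Pool.Agent.Helper73.BP.ConeStart

/-!
# The cone frame: rank four from a kernel statement and a value statement
-/

set_option autoImplicit false
set_option linter.unusedSectionVars false

namespace Pool.Agent.Helper56.BP

open Pool.Agent.Helper28.BPack Pool.Agent.Helper61.Motz Pool.Agent.Helper38.Thick
  Pool.Agent.Helper38.SC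
open Pool.Agent.Alloc85 (St Ok AvR ld Feas)

variable {L : Type} [Lattice L] [BoundedOrder L] [Finite L] [IsUpperModularLattice L]

/-- The cone frame: a longest line `u` in the plane `Q`, a point `o` off `Q`, a point `ρ P` in every
plane `P` over `u`; `ρ` is `o` on the plane `u ⊔ o`. -/
structure FrC [DecidableRel (α := L) (· ≤ ·)] (A : Finset L) (Q o u : L) (ρ : L → L) : Prop where
  at_ : ∀ a ∈ A, IsAtom a
  rQ : rk Q = 3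
  oA : o ∈ A
  oQ : ¬ o ≤ Q
  ru : rk u = 2
  uQ : u ≤ Q
  U2 : 2 ≤ (A.filter (· ≤ u)).card
  max : ∀ k, rk k = 2 → (A.filter (· ≤ k)).card ≤ (A.filter (· ≤ u)).card
  tri : ∃ a ∈ A, a ≤ Q ∧ ¬ a ≤ u
  rho : ∀ x ∈ A, ¬ x ≤ Q → ρ (u ⊔ x) ∈ A ∧ ¬ ρ (u ⊔ x) ≤ Q ∧ ρ (u ⊔ x) ≤ u ⊔ x
  rhoo : ρ (u ⊔ o) = o

/-- The participants. -/
def NC [DecidableEq L] [DecidableRel (α := L) (· ≤ ·)] (A : Finset L) (Q o : L) : Finset L :=
  A.filter (fun x => ¬ x ≤ Q ∧ x ≠ o)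

/-- The representatives. -/
def RC [DecidableEq L] [DecidableRel (α := L) (· ≤ ·)] (A : Finset L) (Q o u : L) (ρ : L → L) :
    Finset L := A.filter (fun x => ¬ x ≤ Q ∧ x ≠ o ∧ ρ (u ⊔ x) = x)

/-- The rows through `o` are not available. -/
def ZC (o k : L) : Prop := o ≤ k

/-- The planes which a row may use. -/
def ADC (A : Finset L) (Q o u k H : L) : Prop := rk H = 3 ∧ k ≤ H ∧ ¬ u ≤ H ∧
  (o ≤ H → ∀ q ∈ A, q ≤ Q → q ≤ H → q ≤ u)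

section

variable [DecidableEq L] [DecidableRel (α := L) (· ≤ ·)] {A : Finset L} {Q o u : L} {ρ : L → L}

theorem mem_NC {x : L} : x ∈ NC A Q o ↔ x ∈ A ∧ ¬ x ≤ Q ∧ x ≠ o := by
  simp only [NC, Finset.mem_filter]

theorem mem_RC {x : L} : x ∈ RC A Q o u ρ ↔ x ∈ A ∧ ¬ x ≤ Q ∧ x ≠ o ∧ ρ (u ⊔ x) = x := by
  simp only [RC, Finset.mem_filter]

theorem FrC.off (F : FrC A Q o u ρ) {x : L} (h : ¬ x ≤ Q) : ¬ x ≤ u := fun h' => h (h'.trans F.uQ)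

/-- The planes over `u`. -/
theorem FrC.pl (F : FrC A Q o u ρ) {x z : L} (hx : x ∈ A) (hxu : ¬ x ≤ u) (hz : z ∈ A)
    (hzu : ¬ z ≤ u) (h : z ≤ u ⊔ x) : u ⊔ z = u ⊔ x :=
  eq_of_le_of_rk (sup_le le_sup_left h) (by
    rw [rk_sup_atom (F.at_ x hx) hxu, rk_sup_atom (F.at_ z hz) hzu])

theorem FrC.fr (F : FrC A Q o u ρ) : Fr A (NC A Q o) u (ADC A Q o u) :=
  ⟨F.at_, F.ru, fun _ hv => (mem_NC.mp hv).1, fun _ hv => F.off (mem_NC.mp hv).2.1,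
    fun _ _ h => ⟨h.1, h.2.1, h.2.2.1⟩⟩

/-- A representative is not in the plane of `o`. -/
theorem FrC.rep_o (F : FrC A Q o u ρ) {x : L} (hx : x ∈ RC A Q o u ρ) : ¬ o ≤ x ⊔ u := by
  obtain ⟨h1, h2, h3, h4⟩ := mem_RC.mp hx
  intro h
  have h5 := F.pl h1 (F.off h2) F.oA (F.off F.oQ) (by rw [sup_comm]; exact h)
  rw [← h5, F.rhoo] at h4
  exact h3 h4.symm

/-- **Rank four from a state in the cone frame.** -/
theorem crit4_of_sta_cone (F : FrC A Q o u ρ) {Rep : Finset L} (hRep : Rep ⊆ RC A Q o u ρ)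
    {own : L → Finset L} {pl : L → L}
    (S : Sta A (NC A Q o \ Rep) u (ZC o) Rep (ADC A Q o u) own pl)
    {Ls : L → L → Finset L} {σ : L → L → ℚ}
    (hLs : ∀ x ∈ NC A Q o \ Rep, ∀ a ∈ own x, Ls x a ⊆ pen A x (x ⊔ a) (pl (x ⊔ a)))
    (hσ0 : ∀ a g, 0 ≤ σ a g)
    (hσ1 : ∀ g, rk g = 2 → ∑ a ∈ A.filter (· ≤ u), σ a g ≤ 1)
    (hval : ∀ x ∈ NC A Q o \ Rep, 1 ≤ ∑ a ∈ own x, ∑ g ∈ Ls x a, σ a g) : Crit4 A := by
  classical
  have hmN : ∀ x, x ∈ NC A Q o \ Rep ↔ x ∈ A ∧ ¬ x ≤ Q ∧ x ≠ o ∧ x ∉ Rep := fun x => by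
    rw [Finset.mem_sdiff, mem_NC]
    tauto
  obtain ⟨cc, gg, hcc, hgg⟩ := level3_ls (A := A) (R := NC A Q o \ Rep) (u := u) (C := own)
    (HH := fun a x => pl (x ⊔ a)) (Ls := Ls) (σ := σ) F.at_
    (fun x hx => ⟨S.mem x hx, S.off x hx⟩)
    (fun x hx a ha => ⟨(S.ownA x hx a ha).1, (S.ownA x hx a ha).2, (S.pln x hx a ha).2.1,
      (S.pln x hx a ha).2.2.1⟩)
    hLs
    (fun a x hx ha y hy hb e => by rw [(S.inj x hx a ha y hy a hb e).1])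
    hσ0 hσ1 hval
  -- two points of `u`
  obtain ⟨b1, hb1', b2, hb2', hb12⟩ := Finset.one_lt_card.mp (show 1 < (A.filter (· ≤ u)).card from
    by have := F.U2; omega)
  obtain ⟨hb1, hbu1⟩ := Finset.mem_filter.mp hb1'
  obtain ⟨hb2, hbu2⟩ := Finset.mem_filter.mp hb2'
  -- same row, same colour
  have hcol : ∀ x ∈ NC A Q o \ Rep, ∀ y ∈ NC A Q o \ Rep, x ⊔ cc x = y ⊔ cc y → cc x = cc y := by
    intro x hx y hy e
    have h1 := S.ownA x hx _ (hcc x hx).1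
    have h2 := S.ownA y hy _ (hcc y hy).1
    exact F.fr.col (Finset.mem_sdiff.mp hx).1 h1.1 h1.2 h2.1 h2.2 (by rw [e]; exact le_sup_right)
  refine Pool.Agent.Helper83.RC.crit4_of_coneW (A := A) (Q := Q) (o := o) (u := u)
    (Rp := fun x => x ∈ Rep) (cc := cc) (gg := gg) (H := fun x => pl (x ⊔ cc x))
    (e1 := fun _ => b1) (e2 := fun _ => b2) F.at_ F.rQ F.oA F.oQ F.ru F.uQ ?_ ?_ ?_ ?_ ?_ ?_ ?_ ?_
    ?_ ?_ ?_
  · intro B hB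
    obtain ⟨a, ha, haQ, hau⟩ := F.tri
    refine Pool.Agent.Helper63.HM.crit3_plane F.at_
      ⟨b1, hb1, b2, hb2, a, ha, hbu1.trans F.uQ, hbu2.trans F.uQ, haQ, ?_⟩ F.rQ B hB
    have h1 : b1 ⊔ b2 = u := line_of (F.at_ b1 hb1) (F.at_ b2 hb2) hb12 hbu1 hbu2 F.ru
    rw [h1, rk_sup_atom (F.at_ a ha) hau, F.ru]
  · intro x _ _ _ hR
    exact F.rep_o (hRep hR)
  · intro x _ _ _ _
    exact ⟨hb1, hbu1, hb2, hbu2, hb12⟩
  · intro x _ _ _ hx y _ _ _ hy e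
    obtain ⟨h1, h2, h3, h4⟩ := mem_RC.mp (hRep hx)
    obtain ⟨k1, k2, k3, k4⟩ := mem_RC.mp (hRep hy)
    rw [sup_comm, sup_comm y u] at e
    rw [← h4, e, k4]
  · intro x _ _ _ hx y h1 h2 h3 hy
    have hyN := (hmN y).mpr ⟨h1, h2, h3, hy⟩
    have h4 := S.nrep y hyN _ (hcc y hyN).1 x hx
    exact ⟨fun e => h4 (by rw [e]; exact le_sup_left), fun e => h4 (by rw [e]; exact le_sup_left)⟩
  · intro x h1 h2 h3 hx
    have hxN := (hmN x).mpr ⟨h1, h2, h3, hx⟩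
    exact S.ownA x hxN _ (hcc x hxN).1
  · intro x h1 h2 h3 hx y k1 k2 k3 hy e
    have hxN := (hmN x).mpr ⟨h1, h2, h3, hx⟩
    have hyN := (hmN y).mpr ⟨k1, k2, k3, hy⟩
    have h4 := hcol x hxN y hyN e
    have h5 := (hcc y hyN).1
    rw [← h4] at h5 e
    exact S.uniq x hxN y hyN _ (hcc x hxN).1 h5 e
  · intro x h1 h2 h3 hx
    have hxN := (hmN x).mpr ⟨h1, h2, h3, hx⟩
    have h4 := S.pln x hxN _ (hcc x hxN).1
    exact ⟨h4.2.1, h4.2.2.1, h4.2.2.2, S.nz x hxN _ (hcc x hxN).1, h4.1.2.2.2⟩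
  · intro x h1 h2 h3 hx y k1 k2 k3 hy _ e
    have hxN := (hmN x).mpr ⟨h1, h2, h3, hx⟩
    have hyN := (hmN y).mpr ⟨k1, k2, k3, hy⟩
    exact (S.inj x hxN _ (hcc x hxN).1 y hyN _ (hcc y hyN).1 e).1
  · intro x h1 h2 h3 hx
    have hxN := (hmN x).mpr ⟨h1, h2, h3, hx⟩
    obtain ⟨-, h4, h5, h6, -⟩ := hcc x hxN
    exact ⟨h4, h5, h6⟩
  · intro x h1 h2 h3 hx y k1 k2 k3 hy e
    exact hgg x ((hmN x).mpr ⟨h1, h2, h3, hx⟩) y ((hmN y).mpr ⟨k1, k2, k3, hy⟩) e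

/-- The kernel statement: rows which do not contain the special point of their group have
different planes (Hall's condition). -/
def Ker (A : Finset L) (Q o u : L) (ρ : L → L) : Prop :=
  ∀ c ∈ A, c ≤ u → ∀ S : Finset L,
    (∀ k ∈ S, ∃ x ∈ A, ¬ x ≤ u ∧ ¬ x ≤ Q ∧ ¬ ρ (u ⊔ x) ≤ x ⊔ c ∧ k = x ⊔ c) →
    S.card ≤ (S.biUnion (fun k => (Set.toFinite {H | ADC A Q o u k H}).toFinset)).card

/-- **The start in the cone frame.** -/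
theorem cone_mP (F : FrC A Q o u ρ) (hK : Ker A Q o u ρ) :
    ∃ m P : L → L,
      (∀ x ∈ NC A Q o, x ∉ RC A Q o u ρ → m x ∈ A ∧ m x ≤ u ∧ ¬ ZC o (x ⊔ m x) ∧
        ADC A Q o u (x ⊔ m x) (P x) ∧ ∀ z ∈ RC A Q o u ρ, ¬ z ≤ x ⊔ m x) ∧
      (∀ x ∈ NC A Q o, x ∉ RC A Q o u ρ → ∀ y ∈ NC A Q o, y ∉ RC A Q o u ρ →
        x ⊔ m x = y ⊔ m y → x = y) ∧
      (∀ x ∈ NC A Q o, x ∉ RC A Q o u ρ → ∀ y ∈ NC A Q o, y ∉ RC A Q o u ρ → P x = P y → x = y) := by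
  classical
  set R : Finset L := NC A Q o \ RC A Q o u ρ with hR
  have hmR : ∀ x, x ∈ R ↔ x ∈ NC A Q o ∧ x ∉ RC A Q o u ρ := fun x => by
    rw [hR, Finset.mem_sdiff]
  have haj : ∀ k H, H ∈ (Set.toFinite {H | ADC A Q o u k H}).toFinset ↔ ADC A Q o u k H :=
    fun k H => by simp
  obtain ⟨m, P, h1, h2, h3, h4⟩ := Pool.Agent.Helper73.BP.start (A := A) (R := R) (u := u)
    (ρ := ρ) (Off := fun x => ¬ x ≤ Q)
    (adj := fun k => (Set.toFinite {H | ADC A Q o u k H}).toFinset) F.at_ F.ru F.U2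
    (fun k hk _ => F.max k hk)
    (fun x hx => by
      obtain ⟨h1, h2⟩ := (hmR x).mp hx
      obtain ⟨h3, h4, h5⟩ := mem_NC.mp h1
      exact ⟨h3, F.off h4, h4, F.at_ _ (F.rho x h3 h4).1,
        fun e => h2 (mem_RC.mpr ⟨h3, h4, h5, e⟩)⟩)
    (fun k H hH => by
      have := (haj k H).mp hH
      exact ⟨this.2.1, this.2.2.1⟩)
    hK
  refine ⟨m, P, ?_, ?_, ?_⟩
  · intro x hx hxR
    have hxR' := (hmR x).mpr ⟨hx, hxR⟩
    obtain ⟨h5, h6, h7⟩ := mem_NC.mp hx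
    obtain ⟨k1, k2, k3⟩ := h1 x hxR'
    have key : ∀ z ∈ A, ¬ z ≤ Q → ρ (u ⊔ z) = z → ¬ z ≤ x ⊔ m x := by
      intro z hz hzQ hzz h
      have h8 : z ≤ u ⊔ x := h.trans (sup_le le_sup_right (k2.trans le_sup_left))
      have h9 := F.pl h5 (F.off h6) hz (F.off hzQ) h8
      exact k3 (by rw [← h9, hzz]; exact h)
    refine ⟨k1, k2, key o F.oA F.oQ F.rhoo, (haj _ _).mp (h3 x hxR'), ?_⟩
    intro z hz
    obtain ⟨l1, l2, -, l4⟩ := mem_RC.mp hz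
    exact key z l1 l2 l4
  · intro x hx hxR y hy hyR e
    exact h2 x ((hmR x).mpr ⟨hx, hxR⟩) y ((hmR y).mpr ⟨hy, hyR⟩) e
  · intro x hx hxR y hy hyR e
    exact h4 x ((hmR x).mpr ⟨hx, hxR⟩) y ((hmR y).mpr ⟨hy, hyR⟩) e

/-- **CONE MASTER**: rank four from the kernel and the values of the fine states. -/
theorem crit4_of_fine_cone {W : Type} [DecidableEq W] (F : FrC A Q o u ρ)
    (hK : Ker A Q o u ρ) (sw : L → L → W) (harm : W → Prop)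
    (hsw : ∀ k H k' H', sw k H = sw k' H' → H = H')
    (hval : ∀ (Rep : Finset L) (E : Finset W) (own : L → Finset L) (pl : L → L)
      (rk' cls : L → ℕ), Fine A (NC A Q o) u (ZC o) (ADC A Q o u) sw harm (RC A Q o u ρ) Rep E
        own pl rk' cls →
      ∃ (Ls : L → L → Finset L) (σ : L → L → ℚ),
        (∀ x ∈ NC A Q o \ Rep, ∀ a ∈ own x, Ls x a ⊆ pen A x (x ⊔ a) (pl (x ⊔ a))) ∧
        (∀ a g, 0 ≤ σ a g) ∧
        (∀ g, rk g = 2 → ∑ a ∈ A.filter (· ≤ u), σ a g ≤ 1) ∧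
        (∀ x ∈ NC A Q o \ Rep, 1 ≤ ∑ a ∈ own x, ∑ g ∈ Ls x a, σ a g)) : Crit4 A := by
  obtain ⟨m, P, h1, h2, h3⟩ := cone_mP F hK
  obtain ⟨Rep, E, own, pl, rk', cls, S⟩ := exists_fine F.fr (ZC o) sw harm hsw h1 h2 h3
  obtain ⟨Ls, σ, g1, g2, g3, g4⟩ := hval Rep E own pl rk' cls S
  exact crit4_of_sta_cone F S.rep S.sta g1 g2 g3 g4

end

end Pool.Agent.Helper56.BP
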