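import Pool.Agent.Helper56.BP.Cone

/-!
# Choice of the cone frame
-/

set_option autoImplicit false
set_option linter.unusedSectionVars false

namespace Pool.Agent.Helper56.BP

open Pool.Agent.Helper28.BPack Pool.Agent.Helper61.Motz Pool.Agent.Helper38.Thick

variable {L : Type} [Lattice L] [BoundedOrder L] [Finite L] [IsUpperModularLattice L]

/-- All points of the plane `P` off `u` are on one line through `c`. -/
def DegA (A : Finset L) (u P c : L) : Prop :=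
  ∀ y ∈ A, y ≤ P → ¬ y ≤ u → ∀ z ∈ A, z ≤ P → ¬ z ≤ u → z ≤ y ⊔ c

/-- The condition of the kernel. -/
def NF (A : Finset L) (Q o u : L) : Prop :=
  ∀ c ∈ A, c ≤ u → ¬ DegA A u Q c ∨ ¬ DegA A u (u ⊔ o) c ∨ ∀ x ∈ A, ¬ x ≤ Q → DegA A u (u ⊔ x) c

/-- A longest line and a largest plane over it. -/
theorem exists_uQ [DecidableEq L] [DecidableRel (α := L) (· ≤ ·)] {A : Finset L}
    (hA : ∀ a ∈ A, IsAtom a) (hrA : rk (A.sup id) = 4) :
    ∃ u Q : L, rk u = 2 ∧ 2 ≤ (A.filter (· ≤ u)).card ∧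
      (∀ k, rk k = 2 → (A.filter (· ≤ k)).card ≤ (A.filter (· ≤ u)).card) ∧
      rk Q = 3 ∧ u ≤ Q ∧ (∃ a ∈ A, a ≤ Q ∧ ¬ a ≤ u) ∧
      (∀ P, rk P = 3 → u ≤ P → (A.filter (· ≤ P)).card ≤ (A.filter (· ≤ Q)).card) := by
  classical
  have : Fintype L := Fintype.ofFinite L
  obtain ⟨a0, ha0, -⟩ := exists_not_le hrA (p := ⊥) (by rw [rk_bot]; omega)
  obtain ⟨a1, ha1, h10⟩ := exists_not_le hrA (p := a0) (by rw [rk_atom (hA a0 ha0)]; omega)
  have h01 : a0 ≠ a1 := fun h => h10 h.symm.le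
  obtain ⟨u, hu', humax⟩ := Finset.exists_max_image (Finset.univ.filter (fun k : L => rk k = 2))
    (fun k => (A.filter (· ≤ k)).card)
    ⟨a0 ⊔ a1, by simp [rk_line (hA a0 ha0) (hA a1 ha1) h01]⟩
  have hu : rk u = 2 := (Finset.mem_filter.mp hu').2
  have hmax : ∀ k, rk k = 2 → (A.filter (· ≤ k)).card ≤ (A.filter (· ≤ u)).card := fun k hk =>
    humax k (by simp [hk])
  have hcard : 2 ≤ (A.filter (· ≤ u)).card := by
    have h1 := hmax (a0 ⊔ a1) (rk_line (hA a0 ha0) (hA a1 ha1) h01)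
    have h2 : ({a0, a1} : Finset L) ⊆ A.filter (· ≤ a0 ⊔ a1) := by
      intro z hz
      rw [Finset.mem_insert, Finset.mem_singleton] at hz
      rw [Finset.mem_filter]
      rcases hz with rfl | rfl
      · exact ⟨ha0, le_sup_left⟩
      · exact ⟨ha1, le_sup_right⟩
    have h3 := Finset.card_le_card h2
    rw [Finset.card_pair h01] at h3
    omega
  obtain ⟨a, ha, hau⟩ := exists_not_le hrA (p := u) (by omega)
  have hua : rk (u ⊔ a) = 3 := by rw [rk_sup_atom (hA a ha) hau, hu]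
  obtain ⟨Q, hQ', hQmax⟩ := Finset.exists_max_image
    (Finset.univ.filter (fun P : L => rk P = 3 ∧ u ≤ P)) (fun P => (A.filter (· ≤ P)).card)
    ⟨u ⊔ a, by simp [hua]⟩
  obtain ⟨hQ, huQ⟩ := (Finset.mem_filter.mp hQ').2
  have hQm : ∀ P, rk P = 3 → u ≤ P → (A.filter (· ≤ P)).card ≤ (A.filter (· ≤ Q)).card :=
    fun P h1 h2 => hQmax P (by simp [h1, h2])
  refine ⟨u, Q, hu, hcard, hmax, hQ, huQ, ?_, hQm⟩
  by_contra hcon
  push Not at hcon
  have h1 : A.filter (· ≤ Q) = A.filter (· ≤ u) := by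
    ext z
    rw [Finset.mem_filter, Finset.mem_filter]
    exact ⟨fun h => ⟨h.1, hcon z h.1 h.2⟩, fun h => ⟨h.1, h.2.trans huQ⟩⟩
  have h2 := hQm (u ⊔ a) hua le_sup_left
  rw [h1] at h2
  have h3 : insert a (A.filter (· ≤ u)) ⊆ A.filter (· ≤ u ⊔ a) := by
    intro z hz
    rw [Finset.mem_insert, Finset.mem_filter] at hz
    rw [Finset.mem_filter]
    rcases hz with rfl | hz
    · exact ⟨ha, le_sup_right⟩
    · exact ⟨hz.1, hz.2.trans le_sup_left⟩
  have h4 := Finset.card_le_card h3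
  rw [Finset.card_insert_of_notMem (by rw [Finset.mem_filter]; exact fun h => hau h.2)] at h4
  omega

/-- A plane over `u` is degenerate for at most one colour. -/
theorem deg_unique {A : Finset L} (hA : ∀ a ∈ A, IsAtom a) (hcore : Core A) {u P c c' : L}
    (hu : rk u = 2) (hP : rk P = 3) (huP : u ≤ P) (hPA : ∃ a ∈ A, a ≤ P ∧ ¬ a ≤ u)
    (hc : c ∈ A) (hcu : c ≤ u) (hc' : c' ∈ A) (hcu' : c' ≤ u)
    (h : DegA A u P c) (h' : DegA A u P c') : c = c' := by
  by_contra hcc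
  obtain ⟨p, hp, hpP, hpu⟩ := hPA
  have hccu : c ⊔ c' = u := line_of (hA c hc) (hA c' hc') hcc hcu hcu' hu
  obtain ⟨z, hz, hzp, hzne, hzu⟩ := hcore p hp c hc c' hc' hcc (by rw [hccu]; exact hpu)
  have hpuP : p ⊔ c ⊔ c' ≤ P := by
    rw [sup_assoc, hccu]
    exact sup_le hpP huP
  rw [hccu] at hzu
  have h1 := h p hp hpP hpu z hz (hzp.trans hpuP) hzu
  have h2 := h' p hp hpP hpu z hz (hzp.trans hpuP) hzu
  have hne : ∀ e, e ≤ u → p ≠ e := fun e he hh => hpu (hh ▸ he)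
  have e1 : z ⊔ p = p ⊔ c := line_of (hA z hz) (hA p hp) hzne h1 le_sup_left
    (rk_line (hA p hp) (hA c hc) (hne c hcu))
  have e2 : z ⊔ p = p ⊔ c' := line_of (hA z hz) (hA p hp) hzne h2 le_sup_left
    (rk_line (hA p hp) (hA c' hc') (hne c' hcu'))
  have e3 : c' ≤ p ⊔ c := by rw [← e1, e2]; exact le_sup_right
  have e4 : c ⊔ c' = p ⊔ c := line_of (hA c hc) (hA c' hc') hcc le_sup_right e3
    (rk_line (hA p hp) (hA c hc) (hne c hcu))
  exact hpu (by rw [← hccu, e4]; exact le_sup_left)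

/-- **The cone frame exists over every plane `Q` over a longest line.** -/
theorem exists_frC [DecidableEq L] [DecidableRel (α := L) (· ≤ ·)] {A : Finset L}
    (hA : ∀ a ∈ A, IsAtom a) (hrA : rk (A.sup id) = 4) (hcore : Core A) {u Q : L}
    (hu : rk u = 2) (hU : 2 ≤ (A.filter (· ≤ u)).card)
    (hmax : ∀ k, rk k = 2 → (A.filter (· ≤ k)).card ≤ (A.filter (· ≤ u)).card)
    (hQ : rk Q = 3) (huQ : u ≤ Q) (hQA : ∃ a ∈ A, a ≤ Q ∧ ¬ a ≤ u) :
    ∃ (o : L) (ρ : L → L), FrC A Q o u ρ ∧ NF A Q o u := by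
  classical
  -- the point `o`
  have ho : ∃ o ∈ A, ¬ o ≤ Q ∧ NF A Q o u := by
    obtain ⟨o0, ho0, ho0Q⟩ := exists_not_le hrA (p := Q) (by omega)
    by_cases hd : ∃ c ∈ A, c ≤ u ∧ DegA A u Q c
    · obtain ⟨c0, hc0, hc0u, hd0⟩ := hd
      by_cases hx : ∃ x ∈ A, ¬ x ≤ Q ∧ ¬ DegA A u (u ⊔ x) c0
      · obtain ⟨x, hx, hxQ, hxd⟩ := hx
        refine ⟨x, hx, hxQ, fun c hc hcu => ?_⟩
        by_cases hcc : c = c0
        · right
          left
          rw [hcc]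
          exact hxd
        · left
          intro h
          exact hcc (deg_unique hA hcore hu hQ huQ hQA hc hcu hc0 hc0u h hd0)
      · push Not at hx
        refine ⟨o0, ho0, ho0Q, fun c hc hcu => ?_⟩
        by_cases hcc : c = c0
        · right
          right
          rw [hcc]
          exact hx
        · left
          intro h
          exact hcc (deg_unique hA hcore hu hQ huQ hQA hc hcu hc0 hc0u h hd0)
    · push Not at hd
      exact ⟨o0, ho0, ho0Q, fun c hc hcu => Or.inl (hd c hc hcu)⟩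
  obtain ⟨o, hoA, hoQ, hNF⟩ := ho
  set ρ : L → L := fun P => if o ≤ P then o else
    if h : ∃ a ∈ A, a ≤ P ∧ ¬ a ≤ Q then h.choose else o with hρ
  refine ⟨o, ρ, ⟨hA, hQ, hoA, hoQ, hu, huQ, hU, hmax, hQA, ?_, ?_⟩, hNF⟩
  · intro x hx hxQ
    by_cases h : o ≤ u ⊔ x
    · have e : ρ (u ⊔ x) = o := by simp only [hρ]; exact if_pos h
      rw [e]
      exact ⟨hoA, hoQ, h⟩
    · have h2 : ∃ a ∈ A, a ≤ u ⊔ x ∧ ¬ a ≤ Q := ⟨x, hx, le_sup_right, hxQ⟩
      have e : ρ (u ⊔ x) = h2.choose := by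
        simp only [hρ]
        rw [if_neg h, dif_pos h2]
      rw [e]
      exact ⟨h2.choose_spec.1, h2.choose_spec.2.2, h2.choose_spec.2.1⟩
  · simp only [hρ]
    exact if_pos le_sup_right

end Pool.Agent.Helper56.BP
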