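import Pool.Agent.Helper56.BP.ConeFrame
import Pool.Agent.Helper95.Cone.ConeK

/-!
# The cone frame: only the value statement is left
-/

set_option autoImplicit false
set_option linter.unusedSectionVars false

namespace Pool.Agent.Helper56.BP

open Pool.Agent.Helper28.BPack Pool.Agent.Helper61.Motz Pool.Agent.Helper38.Thick

variable {L : Type} [Lattice L] [BoundedOrder L] [Finite L] [IsUpperModularLattice L]

theorem ker_of_frC [DecidableEq L] [DecidableRel (α := L) (· ≤ ·)] {A : Finset L} {Q o u : L}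
    {ρ : L → L} (F : FrC A Q o u ρ) (hNF : NF A Q o u) : Ker A Q o u ρ := by
  classical
  intro c hc hcu S hS
  have hne : ∀ x, ¬ x ≤ u → x ≠ c := fun x hx e => hx (e ▸ hcu)
  refine Pool.Agent.Helper95.Cone.cone_hK (ρ := ρ)
    (adj := fun k => (Set.toFinite {H | ADC A Q o u k H}).toFinset)
    F.at_ F.ru F.rQ F.uQ F.oA F.oQ hc hcu ?_ ?_ F.rhoo ?_ ?_ ?_ S ?_
  · obtain ⟨d, hd, hdc⟩ : ∃ d ∈ A.filter (· ≤ u), d ≠ c :=
      Finset.exists_mem_ne (by have := F.U2; omega) c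
    rw [Finset.mem_filter] at hd
    exact ⟨d, hd.1, hd.2, hdc⟩
  · exact F.tri
  · intro x hx hxQ
    obtain ⟨h1, h2, h3⟩ := F.rho x hx hxQ
    exact ⟨h1, F.pl hx (F.off hxQ) h1 (F.off h2) h3⟩
  · rcases hNF c hc hcu with h | h | h
    · left
      unfold DegA at h
      push Not at h
      obtain ⟨y, hy, hyQ, hyu, z, hz, hzQ, hzu, hzy⟩ := h
      exact ⟨z, hz, y, hy, hzQ, hyQ, hzu, hyu, by rw [sup_comm]; exact hzy⟩
    · right
      left
      unfold DegA at h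
      push Not at h
      obtain ⟨y, hy, hyQ, hyu, z, hz, hzQ, hzu, hzy⟩ := h
      by_cases h1 : y ≤ c ⊔ o
      · refine ⟨z, hz, hzQ, hzu, fun h2 => hzy ?_⟩
        have hco : c ≠ o := fun e => F.off F.oQ (e ▸ hcu)
        have h3 : y ⊔ c = c ⊔ o := line_of (F.at_ y hy) (F.at_ c hc) (hne y hyu) h1 le_sup_left
          (rk_line (F.at_ c hc) (F.at_ o F.oA) hco)
        rw [h3]
        exact h2
      · exact ⟨y, hy, hyQ, hyu, h1⟩
    · right
      right
      intro x hx y hy hxQ _ hyx hyu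
      rw [sup_comm]
      exact h x hx hxQ x hx le_sup_right (F.off hxQ) y hy hyx hyu
  · intro x hx hxQ H h1 h2 h3 h4 h5
    rw [Set.Finite.mem_toFinset, Set.mem_ofPred_eq]
    refine ⟨h1, h2, h3, fun ho q hq hqQ hqH => ?_⟩
    by_contra hqu
    exact h5 ⟨ho, q, hq, hqQ, hqu, hqH⟩
  · intro k hk
    obtain ⟨x, hx, -, hxQ, h1, h2⟩ := hS k hk
    exact ⟨x, hx, hxQ, h1, h2⟩

/-- **Rank four for every core from the values of the fine states in a cone frame** (`Q` = any plane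
over the longest line `u` chosen by `ch`, e.g. a largest one). -/
theorem crit4_of_cone_values [DecidableEq L] [DecidableRel (α := L) (· ≤ ·)] {W : Type}
    [DecidableEq W] {A : Finset L}
    (hA : ∀ a ∈ A, IsAtom a) (hrA : rk (A.sup id) = 4) (hcore : Core A)
    (sw : L → L → L → L → L → W) (harm : L → L → L → W → Prop)
    (hsw : ∀ Q o u k H k' H', sw Q o u k H = sw Q o u k' H' → H = H')
    (hval : ∀ (Q o u : L) (ρ : L → L), FrC A Q o u ρ → NF A Q o u →
      (∀ P, rk P = 3 → u ≤ P → (A.filter (· ≤ P)).card ≤ (A.filter (· ≤ Q)).card) →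
      ∀ (Rep : Finset L) (E : Finset W) (own : L → Finset L) (pl : L → L) (rk' cls : L → ℕ),
      Fine A (NC A Q o) u (ZC o) (ADC A Q o u) (sw Q o u) (harm Q o u) (RC A Q o u ρ) Rep E
        own pl rk' cls →
      ∃ (Ls : L → L → Finset L) (σ : L → L → ℚ),
        (∀ x ∈ NC A Q o \ Rep, ∀ a ∈ own x, Ls x a ⊆ pen A x (x ⊔ a) (pl (x ⊔ a))) ∧
        (∀ a g, 0 ≤ σ a g) ∧
        (∀ g, rk g = 2 → ∑ a ∈ A.filter (· ≤ u), σ a g ≤ 1) ∧
        (∀ x ∈ NC A Q o \ Rep, 1 ≤ ∑ a ∈ own x, ∑ g ∈ Ls x a, σ a g)) : Crit4 A := by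
  obtain ⟨u, Q, hu, hU, hmax, hQ, huQ, hQA, hQmax⟩ := exists_uQ hA hrA
  obtain ⟨o, ρ, F, hNF⟩ := exists_frC hA hrA hcore hu hU hmax hQ huQ hQA
  exact crit4_of_fine_cone F (ker_of_frC F hNF) (sw Q o u) (harm Q o u) (hsw Q o u)
    (hval Q o u ρ F hNF hQmax)

end Pool.Agent.Helper56.BP
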