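import Pool.Agent.Helper56.BP.Trans

/-!
# Dictionary between states and the lattice
-/

set_option autoImplicit false
set_option linter.unusedSectionVars false

namespace Pool.Agent.Helper56.BP

open Pool.Agent.Helper28.BPack Pool.Agent.Helper61.Motz Pool.Agent.Helper38.Thick
open Pool.Agent.Alloc85 (St Ok AvR ld Feas)

variable {L : Type} [Lattice L] [BoundedOrder L] [Finite L] [IsUpperModularLattice L]

/-- The rows. -/
def Rw (A N : Finset L) (u : L) (Z : L → Prop) (k : L) : Prop :=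
  ∃ x ∈ N, ∃ c ∈ A, c ≤ u ∧ ¬ Z k ∧ x ⊔ c = k

/-- The participants as a type. -/
abbrev XX (N : Finset L) : Type := {x : L // x ∈ N}

/-- The rows as a type. -/
abbrev KK (A N : Finset L) (u : L) (Z : L → Prop) : Type := {k : L // Rw A N u Z k}

section defs

variable [DecidableRel (α := L) (· ≤ ·)] {A N : Finset L} {u : L} {Z : L → Prop}

/-- The participants on a row. -/
def mm (A N : Finset L) (u : L) (Z : L → Prop) (k : KK A N u Z) : Finset (XX N) :=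
  N.attach.filter (fun x => x.1 ≤ k.1)

/-- The planes which a row may use. -/
noncomputable def aj (A N : Finset L) (u : L) (Z : L → Prop) (adj : L → L → Prop)
    (k : KK A N u Z) : Finset L := (Set.toFinite {H | adj k.1 H}).toFinset

theorem mem_mm {k : KK A N u Z} {x : XX N} : x ∈ mm A N u Z k ↔ x.1 ≤ k.1 := by
  simp [mm]

theorem mem_aj {adj : L → L → Prop} {k : KK A N u Z} {H : L} :
    H ∈ aj A N u Z adj k ↔ adj k.1 H := by
  simp [aj]

open Classical in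
/-- The owned colours. -/
noncomputable def ownS (A N : Finset L) (u : L) (Z : L → Prop) (s : St (XX N) (KK A N u Z) L)
    (x : L) : Finset L :=
  A.filter (fun c => c ≤ u ∧ ∃ (hx : x ∈ N) (k : KK A N u Z), k ∈ s.B ∧ s.own k = ⟨x, hx⟩ ∧
    k.1 = x ⊔ c)

open Classical in
/-- The plane of a row. -/
noncomputable def plS (A N : Finset L) (u : L) (Z : L → Prop) (s : St (XX N) (KK A N u Z) L)
    (k : L) : L := if h : Rw A N u Z k then s.pl ⟨k, h⟩ else k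

/-- The representatives in the lattice. -/
def repS (N : Finset L) (Rp : Finset (XX N)) : Finset L := Rp.map (Function.Embedding.subtype _)

/-- A function on the participants. -/
noncomputable def exS (N : Finset L) (f : XX N → ℕ) (x : L) : ℕ :=
  open Classical in if hx : x ∈ N then f ⟨x, hx⟩ else 0

theorem mem_ownS {s : St (XX N) (KK A N u Z) L} {x c : L} : c ∈ ownS A N u Z s x ↔
    c ∈ A ∧ c ≤ u ∧ ∃ (hx : x ∈ N) (k : KK A N u Z), k ∈ s.B ∧ s.own k = ⟨x, hx⟩ ∧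
      k.1 = x ⊔ c := by
  classical
  simp only [ownS, Finset.mem_filter]

theorem plS_val {s : St (XX N) (KK A N u Z) L} (k : KK A N u Z) : plS A N u Z s k.1 = s.pl k := by
  unfold plS
  rw [dif_pos k.2]

theorem exS_val {f : XX N → ℕ} {x : L} (hx : x ∈ N) : exS N f x = f ⟨x, hx⟩ := by
  unfold exS
  rw [dif_pos hx]

theorem mem_repS {Rp : Finset (XX N)} {x : L} (hx : x ∈ N) :
    x ∈ repS N Rp ↔ (⟨x, hx⟩ : XX N) ∈ Rp := by
  simp only [repS, Finset.mem_map, Function.Embedding.coe_subtype]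
  constructor
  · rintro ⟨a, ha, e⟩
    have : a = ⟨x, hx⟩ := Subtype.ext e
    rw [← this]
    exact ha
  · intro h
    exact ⟨_, h, rfl⟩

theorem repS_sub {Rp : Finset (XX N)} {x : L} (hx : x ∈ repS N Rp) : x ∈ N := by
  obtain ⟨a, -, e⟩ := Finset.mem_map.mp hx
  rw [← e]
  exact a.2

end defs

section lemmas

variable [DecidableEq L] [DecidableRel (α := L) (· ≤ ·)] {A N : Finset L} {u : L}
  {Z : L → Prop} {adj : L → L → Prop}

/-- Two points of `u` on a line through `x`. -/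
theorem Fr.col (F : Fr A N u adj) {x c c' : L} (hx : x ∈ N) (hc : c ∈ A) (hcu : c ≤ u)
    (hc' : c' ∈ A) (hcu' : c' ≤ u) (h : c' ≤ x ⊔ c) : c = c' := by
  by_contra hcc
  have hne : x ≠ c := fun e => F.off x hx (e ▸ hcu)
  have h1 := line_two (F.at_ c hc) (F.at_ c' hc') hcc (le_sup_right : c ≤ x ⊔ c) h
    (rk_line (F.at_ x (F.mem x hx)) (F.at_ c hc) hne) hcu hcu' F.ru
  exact F.off x hx (h1 ▸ le_sup_left)

theorem Fr.row (F : Fr A N u adj) {x y c : L} (hx : x ∈ N) (hy : y ∈ N) (hc : c ∈ A)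
    (hcu : c ≤ u) (h : y ≤ x ⊔ c) : y ⊔ c = x ⊔ c := by
  have hne : ∀ x ∈ N, x ≠ c := fun x hx e => F.off x hx (e ▸ hcu)
  exact line_of (F.at_ y (F.mem y hy)) (F.at_ c hc) (hne y hy) h le_sup_right
    (rk_line (F.at_ x (F.mem x hx)) (F.at_ c hc) (hne x hx))

/-- The colour of a plane. -/
theorem Fr.colH (F : Fr A N u adj) {k H c c' : L} (h : adj k H) (hc : c ∈ A) (hcu : c ≤ u)
    (hcH : c ≤ H) (hc' : c' ∈ A) (hcu' : c' ≤ u) (hcH' : c' ≤ H) : c = c' := by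
  by_contra hcc
  apply (F.ad k H h).2.2
  rw [← line_of (F.at_ c hc) (F.at_ c' hc') hcc hcu hcu' F.ru]
  exact sup_le hcH hcH'

variable {Rp : Finset (XX N)} {s : St (XX N) (KK A N u Z) L}

theorem own_row (F : Fr A N u adj) (hok : Ok (mm A N u Z) (aj A N u Z adj)
    (AvR (mm A N u Z) Rp) s) {k : KK A N u Z} (hk : k ∈ s.B) :
    ∃ c, c ∈ ownS A N u Z s (s.own k).1 ∧ k.1 = (s.own k).1 ⊔ c := by
  obtain ⟨y, hy, c, hc, hcu, hZ, e⟩ := k.2
  have h1 : (s.own k).1 ≤ k.1 := mem_mm.mp (hok.own k hk)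
  have h2 : (s.own k).1 ⊔ c = k.1 := by
    rw [← e] at h1 ⊢
    exact F.row hy (s.own k).2 hc hcu h1
  exact ⟨c, mem_ownS.mpr ⟨hc, hcu, (s.own k).2, k, hk, rfl, h2.symm⟩, h2.symm⟩

theorem own_user (hok : Ok (mm A N u Z) (aj A N u Z adj) (AvR (mm A N u Z) Rp) s)
    {k : KK A N u Z} (hk : k ∈ s.B) : (s.own k).1 ∈ N \ repS N Rp := by
  rw [Finset.mem_sdiff]
  exact ⟨(s.own k).2, fun h => hok.av k hk _ (hok.own k hk) ((mem_repS (s.own k).2).mp h)⟩

theorem own_load (F : Fr A N u adj) (hok : Ok (mm A N u Z) (aj A N u Z adj)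
    (AvR (mm A N u Z) Rp) s) {x : L} (hx : x ∈ N) :
    (ownS A N u Z s x).card = ld s ⟨x, hx⟩ := by
  unfold Pool.Agent.Alloc85.ld
  symm
  have hex : ∀ k ∈ s.B.filter (fun k => s.own k = (⟨x, hx⟩ : XX N)),
      ∃ c, c ∈ ownS A N u Z s x ∧ k.1 = x ⊔ c := by
    intro k hk
    rw [Finset.mem_filter] at hk
    have h1 := own_row F hok hk.1
    rw [hk.2] at h1
    exact h1
  refine Finset.card_bij' (fun k hk => (hex k hk).choose)
    (fun c hc => (mem_ownS.mp hc).2.2.choose_spec.choose) ?_ ?_ ?_ ?_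
  · intro k hk
    exact (hex k hk).choose_spec.1
  · intro c hc
    have h1 := (mem_ownS.mp hc).2.2.choose_spec.choose_spec
    rw [Finset.mem_filter]
    exact ⟨h1.1, h1.2.1⟩
  · intro k hk
    have h1 := (hex k hk).choose_spec
    have h2 := (mem_ownS.mp h1.1).2.2.choose_spec.choose_spec
    apply Subtype.ext
    exact h2.2.2.trans h1.2.symm
  · intro c hc
    have h1 := (mem_ownS.mp hc).2.2.choose_spec.choose_spec
    have hk : (mem_ownS.mp hc).2.2.choose_spec.choose ∈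
        s.B.filter (fun k => s.own k = (⟨x, hx⟩ : XX N)) := by
      rw [Finset.mem_filter]
      exact ⟨h1.1, h1.2.1⟩
    have h2 := (hex _ hk).choose_spec
    have h3 := mem_ownS.mp hc
    have h4 := mem_ownS.mp h2.1
    exact F.col hx h4.1 h4.2.1 h3.1 h3.2.1 (by rw [← h2.2, h1.2.2]; exact le_sup_right)

/-- The state in the lattice. -/
theorem sta_of_ok (F : Fr A N u adj) (hok : Ok (mm A N u Z) (aj A N u Z adj)
    (AvR (mm A N u Z) Rp) s) (hld : ∀ z, z ∉ Rp → 1 ≤ ld s z) :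
    Sta A (N \ repS N Rp) u Z (repS N Rp) adj (ownS A N u Z s) (plS A N u Z s) := by
  refine ⟨F.at_, F.ru, ?_, ?_, ?_, ?_, ?_, ?_, ?_, ?_, ?_⟩
  · exact fun v hv => F.mem v (Finset.mem_sdiff.mp hv).1
  · exact fun v hv => F.off v (Finset.mem_sdiff.mp hv).1
  · intro v _ c hc
    have h1 := mem_ownS.mp hc
    exact ⟨h1.1, h1.2.1⟩
  · intro v _ c hc
    obtain ⟨h1, h2, hx, k, hk, hk1, hk2⟩ := mem_ownS.mp hc
    obtain ⟨y, hy, c', hc', hcu', hZ, e⟩ := k.2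
    rw [← hk2]
    exact hZ
  · intro v _ c hc z hz hzk
    obtain ⟨h1, h2, hx, k, hk, hk1, hk2⟩ := mem_ownS.mp hc
    have hzN := repS_sub hz
    exact hok.av k hk ⟨z, hzN⟩ (mem_mm.mpr (by rw [hk2]; exact hzk)) ((mem_repS hzN).mp hz)
  · intro v _ v' _ c hc hc' e
    obtain ⟨h1, h2, hx, k, hk, hk1, hk2⟩ := mem_ownS.mp hc
    obtain ⟨h1', h2', hx', k', hk', hk1', hk2'⟩ := mem_ownS.mp hc'
    have h3 : k = k' := Subtype.ext (by rw [hk2, hk2', e])
    rw [h3, hk1'] at hk1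
    exact (congrArg Subtype.val hk1).symm
  · intro v _ c hc
    obtain ⟨h1, h2, hx, k, hk, hk1, hk2⟩ := mem_ownS.mp hc
    have h3 : adj (v ⊔ c) (plS A N u Z s (v ⊔ c)) := by
      rw [← hk2, plS_val]
      exact mem_aj.mp (hok.pl k hk)
    exact ⟨h3, F.ad _ _ h3⟩
  · intro v hv c hc v' hv' c' hc' e
    obtain ⟨h1, h2, hx, k, hk, hk1, hk2⟩ := mem_ownS.mp hc
    obtain ⟨h1', h2', hx', k', hk', hk1', hk2'⟩ := mem_ownS.mp hc'
    rw [← hk2, ← hk2', plS_val, plS_val] at e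
    have h3 := hok.inj k hk k' hk' e
    have h4 : v = v' := by
      rw [h3, hk1'] at hk1
      exact (congrArg Subtype.val hk1).symm
    refine ⟨h4, ?_⟩
    have h5 : v ⊔ c = v ⊔ c' := by
      have h6 : k.1 = k'.1 := congrArg Subtype.val h3
      rw [hk2, hk2', ← h4] at h6
      exact h6
    exact F.col hx h1 h2 h1' h2' (by rw [h5]; exact le_sup_right)
  · intro v hv
    obtain ⟨hx, h1⟩ := Finset.mem_sdiff.mp hv
    rw [own_load F hok hx]
    exact hld _ (fun h => h1 ((mem_repS hx).mpr h))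

/-- A row as an element of the type of rows. -/
def mkR {x c : L} (hx : x ∈ N) (hc : c ∈ A) (hcu : c ≤ u) (hZ : ¬ Z (x ⊔ c)) : KK A N u Z :=
  ⟨x ⊔ c, x, hx, c, hc, hcu, hZ, rfl⟩

theorem mkR_val {x c : L} (hx : x ∈ N) (hc : c ∈ A) (hcu : c ≤ u) (hZ : ¬ Z (x ⊔ c)) :
    (mkR hx hc hcu hZ).1 = x ⊔ c := rfl

theorem unowned (F : Fr A N u adj) (hok : Ok (mm A N u Z) (aj A N u Z adj)
    (AvR (mm A N u Z) Rp) s) {y c : L} (hy : y ∈ N) (hc : c ∈ A) (hcu : c ≤ u)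
    (hZ : ¬ Z (y ⊔ c))
    (hno : ∀ z ∈ N \ repS N Rp, c ∈ ownS A N u Z s z → z ⊔ c ≠ y ⊔ c) :
    mkR hy hc hcu hZ ∉ s.B := by
  intro h
  obtain ⟨c', h2, h3⟩ := own_row F hok h
  have h4 := mem_ownS.mp h2
  rw [mkR_val] at h3
  have h5 : c = c' := by
    apply F.col hy hc hcu h4.1 h4.2.1
    rw [h3]
    exact le_sup_right
  rw [← h5] at h2 h3
  exact hno _ (own_user hok h) h2 h3.symm

theorem avail {y c : L} (hy : y ∈ N) (hc : c ∈ A) (hcu : c ≤ u) (hZ : ¬ Z (y ⊔ c))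
    (hrep : ∀ z ∈ repS N Rp, ¬ z ≤ y ⊔ c) :
    ∀ z ∈ mm A N u Z (mkR hy hc hcu hZ), z ∉ Rp := by
  intro z hz hzR
  exact hrep z.1 ((mem_repS z.2).mpr hzR) (mem_mm.mp hz)

theorem mm_nonempty {y c : L} (hy : y ∈ N) (hc : c ∈ A) (hcu : c ≤ u) (hZ : ¬ Z (y ⊔ c)) :
    (mm A N u Z (mkR hy hc hcu hZ)).Nonempty :=
  ⟨⟨y, hy⟩, mem_mm.mpr (by rw [mkR_val]; exact le_sup_left)⟩

/-- The row of a plane through the colour `c`. -/
theorem own_plane (F : Fr A N u adj) (hok : Ok (mm A N u Z) (aj A N u Z adj)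
    (AvR (mm A N u Z) Rp) s) {k : KK A N u Z} (hk : k ∈ s.B) {c : L} (hc : c ∈ A) (hcu : c ≤ u)
    (hcH : c ≤ s.pl k) :
    (s.own k).1 ∈ N \ repS N Rp ∧ c ∈ ownS A N u Z s (s.own k).1 ∧ k.1 = (s.own k).1 ⊔ c ∧
      plS A N u Z s ((s.own k).1 ⊔ c) = s.pl k := by
  obtain ⟨c', h5, h6⟩ := own_row F hok hk
  have h7 := mem_ownS.mp h5
  have h8 : adj k.1 (s.pl k) := mem_aj.mp (hok.pl k hk)
  have h9 : c' = c := by
    apply F.colH h8 h7.1 h7.2.1 _ hc hcu hcH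
    exact (h6 ▸ le_sup_right : c' ≤ k.1).trans (F.ad _ _ h8).2.1
  rw [h9] at h5 h6
  refine ⟨own_user hok hk, h5, h6, ?_⟩
  rw [← h6, plS_val]

/-- A start. -/
theorem start_feas (F : Fr A N u adj) {Rep0 : Finset L} {m P : L → L}
    (hm : ∀ x ∈ N, x ∉ Rep0 → m x ∈ A ∧ m x ≤ u ∧ ¬ Z (x ⊔ m x) ∧ adj (x ⊔ m x) (P x) ∧
      ∀ z ∈ Rep0, ¬ z ≤ x ⊔ m x)
    (hminj : ∀ x ∈ N, x ∉ Rep0 → ∀ y ∈ N, y ∉ Rep0 → x ⊔ m x = y ⊔ m y → x = y)
    (hPinj : ∀ x ∈ N, x ∉ Rep0 → ∀ y ∈ N, y ∉ Rep0 → P x = P y → x = y) :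
    ∃ s : St (XX N) (KK A N u Z) L, Feas (mm A N u Z) (aj A N u Z adj)
      (N.attach.filter (fun x => x.1 ∈ Rep0)) s := by
  classical
  have : Fintype (KK A N u Z) := Fintype.ofFinite _
  have hR0 : ∀ x : XX N, x ∈ N.attach.filter (fun x => x.1 ∈ Rep0) ↔ x.1 ∈ Rep0 :=
    fun x => by simp
  let B0 : Finset (KK A N u Z) := Finset.univ.filter (fun k => ∃ x ∈ N, x ∉ Rep0 ∧ x ⊔ m x = k.1)
  have hB0 : ∀ k, k ∈ B0 ↔ ∃ x ∈ N, x ∉ Rep0 ∧ x ⊔ m x = k.1 := fun k => by simp [B0]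
  by_cases hX : Nonempty (XX N)
  · obtain ⟨x0⟩ := hX
    let ow : KK A N u Z → XX N := fun k => if h : ∃ x ∈ N, x ∉ Rep0 ∧ x ⊔ m x = k.1 then
      ⟨h.choose, h.choose_spec.1⟩ else x0
    have how : ∀ k ∈ B0, (ow k).1 ∉ Rep0 ∧ (ow k).1 ⊔ m (ow k).1 = k.1 := by
      intro k hk
      have h := (hB0 k).mp hk
      have e : ow k = ⟨h.choose, h.choose_spec.1⟩ := dif_pos h
      rw [e]
      exact h.choose_spec.2
    refine ⟨⟨B0, ow, fun k => P (ow k).1⟩, ⟨?_, ?_, ?_, ?_⟩, ?_⟩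
    · intro k hk z hz hzR
      have h1 := how k hk
      have h2 := (hm _ (ow k).2 h1.1).2.2.2.2 z.1 ((hR0 z).mp hzR)
      rw [h1.2] at h2
      exact h2 (mem_mm.mp hz)
    · intro k hk
      have h1 := how k hk
      rw [mem_mm, ← h1.2]
      exact le_sup_left
    · intro k hk
      have h1 := how k hk
      rw [mem_aj]
      have h2 := (hm _ (ow k).2 h1.1).2.2.2.1
      rw [h1.2] at h2
      exact h2
    · intro k hk k' hk' e
      have h1 := how k hk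
      have h1' := how k' hk'
      have h2 := hPinj _ (ow k).2 h1.1 _ (ow k').2 h1'.1 e
      apply Subtype.ext
      rw [← h1.2, ← h1'.2, h2]
    · intro z hz
      have hz' : z.1 ∉ Rep0 := fun h => hz ((hR0 z).mpr h)
      have h1 := hm z.1 z.2 hz'
      have hk : mkR z.2 h1.1 h1.2.1 h1.2.2.1 ∈ B0 := (hB0 _).mpr ⟨z.1, z.2, hz', rfl⟩
      have h2 := how _ hk
      have h3 := hminj _ (ow (mkR z.2 h1.1 h1.2.1 h1.2.2.1)).2 h2.1 z.1 z.2 hz' h2.2
      refine Nat.one_le_iff_ne_zero.mpr (Finset.card_ne_zero.mpr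
        ⟨mkR z.2 h1.1 h1.2.1 h1.2.2.1, ?_⟩)
      rw [Finset.mem_filter]
      exact ⟨hk, Subtype.ext h3⟩
  · have hK : IsEmpty (KK A N u Z) := ⟨fun k => by
      obtain ⟨x, hx, -⟩ := k.2
      exact hX ⟨⟨x, hx⟩⟩⟩
    exact ⟨⟨∅, fun k => (hK.false k).elim, fun k => (hK.false k).elim⟩,
      ⟨fun k => (hK.false k).elim, fun k => (hK.false k).elim, fun k => (hK.false k).elim,
        fun k => (hK.false k).elim⟩, fun z => (hX ⟨z⟩).elim⟩

end lemmas

end Pool.Agent.Helper56.BP
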