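import Pool.Agent.Helper85.Alloc85

/-!
# Cheapest matchings

`f : Λ → Ρ` = an injective choice with `f l ∈ N l`, `w` = cost of the elements of `Ρ`.  `Arc l l'` =
`l` may take the partner of `l'`.  The class of `l` is the largest cost of the partner of some `l'`
from which `l` is reached; it is `top` on the set `Dd` of those `l` from which no unused element is
reached.
-/

set_option autoImplicit false
set_option linter.unusedSectionVars false

namespace Pool.Agent.Helper56.Exch

open Relation Finset

variable {Λ Ρ : Type*} [Fintype Λ] [DecidableEq Λ] [DecidableEq Ρ]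

/-- matchings of `Λ` -/
structure Mt (N : Λ → Finset Ρ) (f : Λ → Ρ) : Prop where
  inj : Function.Injective f
  mem : ∀ l, f l ∈ N l

/-- `l` may take the partner of `l'` -/
def Arc (N : Λ → Finset Ρ) (f : Λ → Ρ) (l l' : Λ) : Prop := f l' ∈ N l

theorem update_mt {N : Λ → Finset Ρ} (w : Ρ → ℕ) {f : Λ → Ρ} (h : Mt N f) {l0 : Λ} {r : Ρ}
    (hr : r ∈ N l0) (hfree : ∀ l, f l ≠ r) :
    Mt N (Function.update f l0 r) ∧
      ∑ l, w (Function.update f l0 r l) + w (f l0) = ∑ l, w (f l) + w r ∧
      ∀ l, Function.update f l0 r l ≠ f l0 := by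
  refine ⟨⟨?_, ?_⟩, ?_, ?_⟩
  · intro a b e
    by_cases ha : a = l0
    · by_cases hb : b = l0
      · rw [ha, hb]
      · rw [ha, Function.update_self, Function.update_of_ne hb] at e
        exact absurd e.symm (hfree b)
    · by_cases hb : b = l0
      · rw [hb, Function.update_self, Function.update_of_ne ha] at e
        exact absurd e (hfree a)
      · rw [Function.update_of_ne ha, Function.update_of_ne hb] at e
        exact h.inj e
  · intro l
    by_cases hl : l = l0
    · rw [hl, Function.update_self]
      exact hr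
    · rw [Function.update_of_ne hl]
      exact h.mem l
  · have e1 := Finset.add_sum_erase univ (fun l => w (Function.update f l0 r l))
      (Finset.mem_univ l0)
    have e2 := Finset.add_sum_erase univ (fun l => w (f l)) (Finset.mem_univ l0)
    have e : ∑ x ∈ univ.erase l0, w (Function.update f l0 r x) =
        ∑ x ∈ univ.erase l0, w (f x) := by
      apply Finset.sum_congr rfl
      intro x hx
      rw [Function.update_of_ne (Finset.ne_of_mem_erase hx)]
    simp only [Function.update_self] at e1
    rw [e] at e1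
    omega
  · intro l
    by_cases hl : l = l0
    · rw [hl, Function.update_self]
      exact fun e => hfree l0 e.symm
    · rw [Function.update_of_ne hl]
      exact fun e => hl (h.inj e)

theorem exchange_path {N : Λ → Finset Ρ} (w : Ρ → ℕ) (n : ℕ) : ∀ (f : Λ → Ρ) (_ : Mt N f)
    (p : ℕ → Λ) (r : Ρ), (∀ i < n, Arc N f (p i) (p (i + 1))) →
    (∀ i j, i < j → j ≤ n → p i ≠ p j) → r ∈ N (p n) → (∀ l, f l ≠ r) →
    ∃ f' : Λ → Ρ, Mt N f' ∧ ∑ l, w (f' l) + w (f (p 0)) = ∑ l, w (f l) + w r ∧
      (∀ l, f' l ≠ f (p 0)) ∧ ∀ l, f' l = r ∨ ∃ l', f' l = f l' := by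
  induction n with
  | zero =>
    intro f h p r _ _ hr hfree
    obtain ⟨h1, h2, h3⟩ := update_mt w h hr hfree
    refine ⟨_, h1, h2, h3, ?_⟩
    intro l
    by_cases hl : l = p 0
    · left
      rw [hl, Function.update_self]
    · right
      exact ⟨l, by rw [Function.update_of_ne hl]⟩
  | succ n ih =>
    intro f h p r harc hne hr hfree
    obtain ⟨h1, h2, h3⟩ := update_mt w h hr hfree
    have hf1 : ∀ i ≤ n, Function.update f (p (n + 1)) r (p i) = f (p i) := by
      intro i hi
      rw [Function.update_of_ne (hne i (n + 1) (by omega) (by omega))]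
    obtain ⟨f', h', c', u', v'⟩ := ih _ h1 p (f (p (n + 1)))
      (fun i hi => by
        show Function.update f (p (n + 1)) r (p (i + 1)) ∈ N (p i)
        rw [hf1 (i + 1) (by omega)]
        exact harc i (by omega))
      (fun i j hij hj => hne i j hij (by omega))
      (harc n (by omega)) h3
    rw [hf1 0 (by omega)] at c' u'
    refine ⟨f', h', by omega, u', ?_⟩
    intro l
    rcases v' l with e | ⟨l', e⟩
    · exact Or.inr ⟨_, e⟩
    · by_cases hl : l' = p (n + 1)
      · left
        rw [e, hl, Function.update_self]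
      · right
        exact ⟨l', by rw [e, Function.update_of_ne hl]⟩

/-- `l0` gives its partner back and `r` is used instead. -/
theorem exchange {N : Λ → Finset Ρ} (w : Ρ → ℕ) {f : Λ → Ρ} (h : Mt N f) {l0 l1 : Λ} {r : Ρ}
    (hr : ReflTransGen (Arc N f) l0 l1) (hr1 : r ∈ N l1) (hfree : ∀ l, f l ≠ r) :
    ∃ f' : Λ → Ρ, Mt N f' ∧ ∑ l, w (f' l) + w (f l0) = ∑ l, w (f l) + w r ∧
      (∀ l, f' l ≠ f l0) ∧ ∀ l, f' l = r ∨ ∃ l', f' l = f l' := by
  obtain ⟨n, p, h0, hn, h1, -, h2⟩ := Pool.Agent.Alloc85.exists_path hr
  obtain ⟨f', g1, g2, g3, g4⟩ := exchange_path w n f h p r h1 h2 (by rw [hn]; exact hr1) hfree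
  rw [h0] at g2 g3
  exact ⟨f', g1, g2, g3, g4⟩

/-- nothing unused is reached from `l` -/
def Dd (N : Λ → Finset Ρ) (f : Λ → Ρ) (l : Λ) : Prop :=
  ∀ l', ReflTransGen (Arc N f) l l' → ∀ r ∈ N l', ∃ l'', f l'' = r

/-- the class of `l` -/
noncomputable def cls (N : Λ → Finset Ρ) (f : Λ → Ρ) (w : Ρ → ℕ) (top : ℕ) (l : Λ) : ℕ := by
  classical
  exact if Dd N f l then top else
    (univ.filter fun l' => ReflTransGen (Arc N f) l' l).sup fun l' => w (f l')

section

variable {N : Λ → Finset Ρ} {f : Λ → Ρ} {w : Ρ → ℕ} {top : ℕ}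

theorem Dd.fwd {a b : Λ} (h : Dd N f a) (hab : ReflTransGen (Arc N f) a b) : Dd N f b :=
  fun l' h' => h l' (hab.trans h')

theorem cls_of_D {l : Λ} (h : Dd N f l) : cls N f w top l = top := by
  classical
  unfold cls
  rw [if_pos h]

theorem cls_le_top (htop : ∀ r, w r ≤ top) (l : Λ) : cls N f w top l ≤ top := by
  classical
  unfold cls
  split_ifs
  · exact le_rfl
  · exact Finset.sup_le fun l' _ => htop _

theorem cls_mono (htop : ∀ r, w r ≤ top) {a b : Λ} (h : ReflTransGen (Arc N f) a b) :
    cls N f w top a ≤ cls N f w top b := by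
  classical
  by_cases hb : Dd N f b
  · rw [cls_of_D hb]
    exact cls_le_top htop a
  · have ha : ¬ Dd N f a := fun ha => hb (ha.fwd h)
    unfold cls
    rw [if_neg ha, if_neg hb]
    apply Finset.sup_mono
    intro l' hl'
    rw [Finset.mem_filter] at hl' ⊢
    exact ⟨Finset.mem_univ _, hl'.2.trans h⟩

theorem le_cls (htop : ∀ r, w r ≤ top) (l : Λ) : w (f l) ≤ cls N f w top l := by
  classical
  by_cases hD : Dd N f l
  · rw [cls_of_D hD]
    exact htop _
  · unfold cls
    rw [if_neg hD]
    exact Finset.le_sup (f := fun l' => w (f l'))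
      (Finset.mem_filter.mpr ⟨Finset.mem_univ _, ReflTransGen.refl⟩)

/-- a cheapest matching: an unused element costs at least the class -/
theorem cls_le (h : Mt N f) (hmin : ∀ f', Mt N f' → ∑ l, w (f l) ≤ ∑ l, w (f' l)) {l : Λ} {r : Ρ}
    (hr : r ∈ N l) (hfree : ∀ l', f l' ≠ r) : cls N f w top l ≤ w r := by
  classical
  have hD : ¬ Dd N f l := fun hD => by
    obtain ⟨l'', h''⟩ := hD l ReflTransGen.refl r hr
    exact hfree l'' h''
  unfold cls
  rw [if_neg hD]
  refine Finset.sup_le fun l' hl' => ?_
  rw [Finset.mem_filter] at hl'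
  obtain ⟨f', h', hc, -, -⟩ := exchange w h hl'.2 hr hfree
  have := hmin f' h'
  omega

end

/-- **Ranks**: a linear order of the strong components compatible with `R` and with the monotone
function `c`. -/
theorem exists_rank {Λ : Type*} [Fintype Λ] (R : Λ → Λ → Prop) (c : Λ → ℕ)
    (hc : ∀ a b, R a b → c a ≤ c b) :
    ∃ rk : Λ → ℕ, (∀ a b, R a b → rk b ≤ rk a) ∧
      (∀ a b, rk a = rk b ↔ (ReflTransGen R a b ∧ ReflTransGen R b a)) ∧
      ∀ a b, c a < c b → rk b < rk a := by
  classical
  have hc' : ∀ a b, ReflTransGen R a b → c a ≤ c b := by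
    intro a b h
    induction h with
    | refl => exact le_rfl
    | tail _ h2 ih => exact ih.trans (hc _ _ h2)
  let sc : Setoid Λ := ⟨fun a b => ReflTransGen R a b ∧ ReflTransGen R b a,
    fun a => ⟨ReflTransGen.refl, ReflTransGen.refl⟩, fun h => ⟨h.2, h.1⟩,
    fun h h' => ⟨h.1.trans h'.1, h'.2.trans h.2⟩⟩
  have hfin : Finite (Quotient sc) := inferInstance
  obtain ⟨n, ⟨e⟩⟩ := Finite.exists_equiv_fin (Quotient sc)
  set id' : Λ → ℕ := fun a => (e (Quotient.mk sc a)).val with hid
  have hidlt : ∀ a, id' a < n := fun a => (e (Quotient.mk sc a)).isLt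
  set anc : Λ → ℕ := fun a => (univ.filter fun l => ReflTransGen R l a).card with hanc
  set M : ℕ := Fintype.card Λ + 1 with hM
  have hancM : ∀ a, anc a < M := fun a => Nat.lt_succ_of_le (Finset.card_le_univ _)
  set v : Λ → ℕ := fun a => (c a * M + anc a) * n + id' a with hv
  have hlt : ∀ a b, c a * M + anc a < c b * M + anc b → v a < v b := by
    intro a b h
    have h1 := hidlt a
    have h2 : (c a * M + anc a + 1) * n ≤ (c b * M + anc b) * n := Nat.mul_le_mul_right _ h
    show (c a * M + anc a) * n + id' a < (c b * M + anc b) * n + id' b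
    rw [Nat.add_mul, one_mul] at h2
    omega
  have hsc : ∀ a b, ReflTransGen R a b → ReflTransGen R b a → v a = v b := by
    intro a b h h'
    have h1 : c a = c b := le_antisymm (hc' a b h) (hc' b a h')
    have h2 : anc a = anc b := by
      simp only [hanc]
      congr 1
      ext l
      simp only [Finset.mem_filter, Finset.mem_univ, true_and]
      exact ⟨fun k => k.trans h, fun k => k.trans h'⟩
    have h3 : id' a = id' b := by
      simp only [hid]
      rw [show Quotient.mk sc a = Quotient.mk sc b from Quotient.sound ⟨h, h'⟩]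
    simp only [hv]
    rw [h1, h2, h3]
  have hmono : ∀ a b, ReflTransGen R a b → ¬ ReflTransGen R b a → v a < v b := by
    intro a b h h'
    apply hlt
    have h1 := hc' a b h
    have h2 : anc a < anc b := by
      apply Finset.card_lt_card
      rw [Finset.ssubset_iff_of_subset]
      · exact ⟨b, Finset.mem_filter.mpr ⟨Finset.mem_univ _, ReflTransGen.refl⟩,
          fun hb => h' (Finset.mem_filter.mp hb).2⟩
      · intro l hl
        rw [Finset.mem_filter] at hl ⊢
        exact ⟨hl.1, hl.2.trans h⟩
    have h3 : c a * M ≤ c b * M := Nat.mul_le_mul_right _ h1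
    omega
  have hle : ∀ a b, R a b → v a ≤ v b := by
    intro a b h
    by_cases h' : ReflTransGen R b a
    · exact (hsc a b (ReflTransGen.single h) h').le
    · exact (hmono a b (ReflTransGen.single h) h').le
  set B : ℕ := univ.sup v with hB
  have hvB : ∀ a, v a ≤ B := fun a => Finset.le_sup (Finset.mem_univ a)
  refine ⟨fun a => B - v a, ?_, ?_, ?_⟩
  · intro a b h
    have := hle a b h
    show B - v b ≤ B - v a
    omega
  · intro a b
    constructor
    · intro h
      have h1 : v a = v b := by
        have := hvB a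
        have := hvB b
        have h2 : B - v a = B - v b := h
        omega
      have h3 : id' a = id' b := by
        rcases lt_trichotomy (c a * M + anc a) (c b * M + anc b) with h4 | h4 | h4
        · have := hlt a b h4
          omega
        · have h5 : (c a * M + anc a) * n + id' a = (c b * M + anc b) * n + id' b := h1
          rw [h4] at h5
          omega
        · have := hlt b a h4
          omega
      have h4 : Quotient.mk sc a = Quotient.mk sc b := e.injective (Fin.ext h3)
      exact Quotient.exact h4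
    · rintro ⟨h, h'⟩
      show B - v a = B - v b
      rw [hsc a b h h']
  · intro a b h
    have h1 : v a < v b := by
      apply hlt
      have h2 : (c a + 1) * M ≤ c b * M := Nat.mul_le_mul_right _ h
      have h3 := hancM a
      rw [Nat.add_mul, one_mul] at h2
      omega
    have := hvB b
    show B - v b < B - v a
    omega

end Pool.Agent.Helper56.Exch
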