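import Pool.Agent.Helper56.BP.LexCone

/-!
# Level 3 with extras

`tp R key g` = top user of the line `g`.  A user which is not an extra takes a line whose top user
is not an extra and has its colour.  An extra `z` takes a line of which it is the top user, or a line
`g` whose top user `v` is not an extra, has the colour `c`, such that the owner of the row `z ⊔ c`
has the plane `g ⊔ c`.
-/

set_option autoImplicit false
set_option linter.unusedSectionVars false

namespace Pool.Agent.Helper56.Lex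

open Pool.Agent.Helper28.BPack Pool.Agent.Helper61.Motz Pool.Agent.Helper38.Thick
  Pool.Agent.Helper38.SC Pool.Agent.Helper56.BP Pool.Agent.Helper56.Exch Relation
open Pool.Agent.Helper80.BP (Pl line_mem)

variable {L : Type} [Lattice L] [BoundedOrder L] [Finite L] [IsUpperModularLattice L]
  [DecidableEq L] [DecidableRel (α := L) (· ≤ ·)] {A : Finset L} {Q o u : L} {ρ : L → L}
  {Rep : Finset L} {m P : L → L}

/-- The line `g` is free for the extra `z`. -/
def FreeL (R : Finset L) (m P : L → L) (key : L → ℕ) (E : L → Prop) (z g : L) : Prop :=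
  tp R key g = z ∨ (¬ E (tp R key g) ∧ ∃ v0 ∈ R, v0 ≠ z ∧ m v0 = m (tp R key g) ∧
    z ≤ v0 ⊔ m v0 ∧ P v0 = g ⊔ m v0)

/-- **Level 3 with extras.** -/
theorem crit4_of_extra (F : FrC A Q o u ρ) (hRep : Rep ⊆ RC A Q o u ρ)
    (V : Val A (NC A Q o) u (ZC o) (ADC A Q o u) Rep m P) (key : L → ℕ) (E : L → Prop)
    (hN : ∀ x ∈ NC A Q o \ Rep, ¬ E x → ∃ g ∈ pen A x (x ⊔ m x) (P x),
      ¬ E (tp (NC A Q o \ Rep) key g) ∧ m (tp (NC A Q o \ Rep) key g) = m x)
    (hE : ∀ z ∈ NC A Q o \ Rep, E z → ∃ g ∈ pen A z (z ⊔ m z) (P z),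
      FreeL (NC A Q o \ Rep) m P key E z g) : Crit4 A := by
  classical
  set R : Finset L := NC A Q o \ Rep with hR
  have hex : ∀ x, ∃ g, x ∈ R → g ∈ pen A x (x ⊔ m x) (P x) ∧
      (¬ E x → ¬ E (tp R key g) ∧ m (tp R key g) = m x) ∧ (E x → FreeL R m P key E x g) := by
    intro x
    by_cases hx : x ∈ R
    · by_cases he : E x
      · obtain ⟨g, h1, h2⟩ := hE x hx he
        exact ⟨g, fun _ => ⟨h1, fun h => absurd he h, fun _ => h2⟩⟩
      · obtain ⟨g, h1, h2⟩ := hN x hx he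
        exact ⟨g, fun _ => ⟨h1, fun _ => h2, fun h => absurd h he⟩⟩
    · exact ⟨x, fun h => absurd h hx⟩
  choose gg hgg using hex
  have hxN : ∀ x ∈ R, x ∈ NC A Q o := fun x hx => (Finset.mem_sdiff.mp hx).1
  have hspec : ∀ x ∈ R, rk (gg x) = 2 ∧ x ≤ gg x ∧ gg x ≤ P x ∧ ¬ m x ≤ gg x ∧
      gg x ⊔ m x = P x := by
    intro x hx
    obtain ⟨r1, r2, r3, r4, r5⟩ := V.row x hx
    exact pen_spec F.at_ (F.fr.mem x (hxN x hx)) r1 (fun e => F.fr.off x (hxN x hx) (e ▸ r2)) r4.1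
      r4.2.1 (hgg x hx).1
  -- two points of a row on a line which does not contain the colour
  have two : ∀ a ∈ R, ∀ b ∈ R, ∀ v ∈ R, ∀ g, rk g = 2 → a ≤ g → b ≤ g → ¬ m v ≤ g →
      a ≤ v ⊔ m v → b ≤ v ⊔ m v → a = b := by
    intro a ha b hb v hv g hg hag hbg hvg hak hbk
    by_contra hne
    obtain ⟨r1, r2, r3, r4, r5⟩ := V.row v hv
    have haA := F.at_ a (F.fr.mem a (hxN a ha))
    have hbA := F.at_ b (F.fr.mem b (hxN b hb))
    have hvc : v ≠ m v := fun e => F.fr.off v (hxN v hv) (e ▸ r2)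
    have e1 := line_of haA hbA hne hag hbg hg
    have e2 := line_of haA hbA hne hak hbk
      (rk_line (F.at_ v (F.fr.mem v (hxN v hv))) (F.at_ _ r1) hvc)
    exact hvg ((le_sup_right : m v ≤ v ⊔ m v).trans (e2.symm.trans e1).le)
  refine crit4_of_sdr F hRep V (gg := gg) (fun x hx => (hgg x hx).1) ?_
  intro x hx y hy e
  obtain ⟨s1, s2, s3, s4, s5⟩ := hspec x hx
  obtain ⟨t1, t2, t3, t4, t5⟩ := hspec y hy
  -- a user which is not an extra against an extra
  have mix : ∀ x ∈ R, ∀ z ∈ R, ¬ E x → E z → gg x ≠ gg z := by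
    intro x hx z hz hx' hz' e
    obtain ⟨s1, s2, s3, s4, s5⟩ := hspec x hx
    obtain ⟨t1, t2, t3, t4, t5⟩ := hspec z hz
    obtain ⟨h1, h2⟩ := (hgg x hx).2.1 hx'
    rcases (hgg z hz).2.2 hz' with h3 | ⟨h3, v0, h4, h5, h6, h7, h8⟩
    · rw [e, h3] at h1
      exact h1 hz'
    · have e1 : m x = m v0 := by rw [← h2, e, h6]
      have e2 : P x = P v0 := by rw [← s5, h8, e, e1]
      have e3 := V.pinj x hx v0 h4 e2
      subst e3
      apply h5
      refine two x hx z hz x hx (gg x) s1 s2 (by rw [e]; exact t2) s4 le_sup_left h7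
  by_cases hx' : E x
  · by_cases hy' : E y
    · rcases (hgg x hx).2.2 hx' with h3 | ⟨h3, v0, h4, h5, h6, h7, h8⟩ <;>
        rcases (hgg y hy).2.2 hy' with k3 | ⟨k3, w0, k4, k5, k6, k7, k8⟩
      · rw [← h3, ← k3, e]
      · rw [← e, h3] at k3
        exact absurd hx' k3
      · rw [e, k3] at h3
        exact absurd hy' h3
      · have e1 : m v0 = m w0 := by rw [h6, k6, e]
        have e2 : P v0 = P w0 := by rw [h8, k8, e, e1]
        have e3 := V.pinj v0 h4 w0 k4 e2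
        subst e3
        have hv0 : ¬ m v0 ≤ gg x := by
          intro h
          have h9 : P v0 = gg x := by rw [h8, sup_eq_left.mpr h]
          have h10 := (V.row v0 h4).2.2.2.1.1
          rw [h9, s1] at h10
          omega
        exact two x hx y hy v0 h4 (gg x) s1 s2 (by rw [e]; exact t2) hv0 h7 k7
    · exact absurd e.symm (mix y hy x hx hy' hx')
  · by_cases hy' : E y
    · exact absurd e (mix x hx y hy hx' hy')
    · obtain ⟨h1, h2⟩ := (hgg x hx).2.1 hx'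
      obtain ⟨k1, k2⟩ := (hgg y hy).2.1 hy'
      have e1 : m x = m y := by rw [← h2, ← k2, e]
      apply V.pinj x hx y hy
      rw [← s5, ← t5, e, e1]

/-- **The free line of an extra in the plane of a complete colour `c`**: `v0` owns the row of `z`
with the colour `c`, and every user of the plane off this row which is above `z` lies on a row owned
with the colour `c` by a user which is not an extra and not lower. -/
theorem exists_free (F : FrC A Q o u ρ)
    (V : Val A (NC A Q o) u (ZC o) (ADC A Q o u) Rep m P) {key : L → ℕ} {E : L → Prop}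
    (hkey : ∀ y ∈ NC A Q o \ Rep, ∀ y' ∈ NC A Q o \ Rep, key y = key y' → u ⊔ y = u ⊔ y')
    {z v0 : L} (hz : z ∈ NC A Q o \ Rep) (hv0 : v0 ∈ NC A Q o \ Rep) (hzv : v0 ≠ z)
    (hrow : z ≤ v0 ⊔ m v0) (hsp : ∃ y ∈ A, y ≤ P v0 ∧ ¬ y ≤ v0 ⊔ m v0)
    (hown : ∀ y ∈ NC A Q o \ Rep, y ≤ P v0 → ¬ y ≤ v0 ⊔ m v0 → key y ≤ key z →
      ∃ v ∈ NC A Q o \ Rep, m v = m v0 ∧ ¬ E v ∧ v ⊔ m v0 = y ⊔ m v0 ∧ key v ≤ key y) :
    ∃ g, rk g = 2 ∧ z ≤ g ∧ g ≤ P v0 ∧ ¬ m v0 ≤ g ∧ (∃ y ∈ A, y ≠ z ∧ y ≤ g ∧ ¬ y ≤ u ⊔ z) ∧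
      FreeL (NC A Q o \ Rep) m P key E z g := by
  classical
  set R : Finset L := NC A Q o \ Rep with hR
  have hxN : ∀ x ∈ R, x ∈ NC A Q o := fun x hx => (Finset.mem_sdiff.mp hx).1
  obtain ⟨r1, r2, r3, r4, r5⟩ := V.row v0 hv0
  have hvA := F.fr.mem v0 (hxN v0 hv0)
  have hzA := F.fr.mem z (hxN z hz)
  have hvc : v0 ≠ m v0 := fun e => F.fr.off v0 (hxN v0 hv0) (e ▸ r2)
  have hzc : z ≠ m v0 := fun e => F.fr.off z (hxN z hz) (e ▸ r2)
  have hk : z ⊔ m v0 = v0 ⊔ m v0 := F.fr.row (hxN v0 hv0) (hxN z hz) r1 r2 hrow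
  have hkH : z ⊔ m v0 ≤ P v0 := by rw [hk]; exact r4.2.1
  have hzH : z ≤ P v0 := le_sup_left.trans hkH
  -- the points of the plane on `u ⊔ z` are on the row
  have hoff : ∀ y ∈ A, y ≤ P v0 → y ≤ u ⊔ z → y ≤ v0 ⊔ m v0 := by
    intro y hy hyH hyu
    by_contra hyk
    apply r4.2.2.1
    -- `z`, `m v0`, `y` span both planes
    have h1 : rk (z ⊔ m v0 ⊔ y) = 3 := by
      rw [rk_sup_atom (F.at_ y hy) (by rw [hk]; exact hyk),
        rk_line (F.at_ z hzA) (F.at_ _ r1) hzc]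
    have h2 : rk (u ⊔ z) = 3 := by
      rw [rk_sup_atom (F.at_ z hzA) (F.fr.off z (hxN z hz)), F.ru]
    have h3 : z ⊔ m v0 ⊔ y ≤ u ⊔ z :=
      sup_le (sup_le le_sup_right (r2.trans le_sup_left)) hyu
    have h4 : z ⊔ m v0 ⊔ y = u ⊔ z := eq_of_le_of_rk h3 (by rw [h1, h2])
    have h5 : z ⊔ m v0 ⊔ y ≤ P v0 := sup_le hkH hyH
    exact (le_sup_left : u ≤ u ⊔ z).trans (h4 ▸ h5)
  -- the lines through `z`
  have hline : ∀ y ∈ A, y ≤ P v0 → ¬ y ≤ v0 ⊔ m v0 → rk (z ⊔ y) = 2 ∧ z ⊔ y ≤ P v0 ∧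
      ¬ m v0 ≤ z ⊔ y ∧ y ≠ z ∧ ¬ y ≤ u ⊔ z ∧ z ⊔ y ⊔ m v0 = P v0 := by
    intro y hy hyH hyk
    have hne : y ≠ z := fun e => hyk (e ▸ hrow)
    have hg : z ⊔ y ∈ pen A z (z ⊔ m v0) (P v0) :=
      line_mem hy hyH (by rw [hk]; exact hyk)
    obtain ⟨g1, g2, g3, g4, g5⟩ := pen_spec F.at_ hzA r1 hzc r4.1 hkH hg
    exact ⟨g1, g3, g4, hne, fun h => hyk (hoff y hy hyH h), g5⟩
  -- users on such a line: `z` or off the row
  have hmem : ∀ y ∈ A, y ≤ P v0 → ¬ y ≤ v0 ⊔ m v0 → ∀ a ∈ R, a ≤ z ⊔ y → a ≠ z →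
      ¬ a ≤ v0 ⊔ m v0 := by
    intro y hy hyH hyk a ha hag haz h
    obtain ⟨g1, g3, g4, -⟩ := hline y hy hyH hyk
    have haA := F.at_ a (F.fr.mem a (hxN a ha))
    have e1 := line_of haA (F.at_ z hzA) haz hag le_sup_left g1
    have e2 := line_of haA (F.at_ z hzA) haz h hrow
      (rk_line (F.at_ v0 hvA) (F.at_ _ r1) hvc)
    exact g4 ((le_sup_right : m v0 ≤ v0 ⊔ m v0).trans (e2.symm.trans e1).le)
  by_cases hup : ∃ y ∈ R, y ≤ P v0 ∧ ¬ y ≤ v0 ⊔ m v0 ∧ key y ≤ key z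
  · -- the top user off the row
    obtain ⟨y0, hy0, hy0H, hy0k, hy0z⟩ := hup
    obtain ⟨w, hw, hwmin⟩ := Finset.exists_min_image
      (R.filter (fun y => y ≤ P v0 ∧ ¬ y ≤ v0 ⊔ m v0)) key
      ⟨y0, Finset.mem_filter.mpr ⟨hy0, hy0H, hy0k⟩⟩
    obtain ⟨hwR, hwH, hwk⟩ := Finset.mem_filter.mp hw
    have hwz : key w ≤ key z :=
      (hwmin y0 (Finset.mem_filter.mpr ⟨hy0, hy0H, hy0k⟩)).trans hy0z
    obtain ⟨v, hv, hmv, hEv, hvw, hkv⟩ := hown w hwR hwH hwk hwz
    have hvA' := F.fr.mem v (hxN v hv)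
    have hvH : v ≤ P v0 := by
      have : v ≤ w ⊔ m v0 := by rw [← hvw]; exact le_sup_left
      exact this.trans (sup_le hwH ((le_sup_right : m v0 ≤ z ⊔ m v0).trans hkH))
    have hvk : ¬ v ≤ v0 ⊔ m v0 := by
      intro h
      apply hwk
      have : w ≤ v ⊔ m v0 := by rw [hvw]; exact le_sup_left
      exact this.trans (sup_le h le_sup_right)
    obtain ⟨g1, g3, g4, g5, g6, g7⟩ := hline v hvA' hvH hvk
    refine ⟨z ⊔ v, g1, le_sup_left, g3, g4, ⟨v, hvA', g5, le_sup_right, g6⟩, ?_⟩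
    -- the top user of the line
    have htop : tp R key (z ⊔ v) = v := by
      obtain ⟨t1, t2, t3⟩ := tp_spec (R := R) (key := key) hv (le_sup_right : v ≤ z ⊔ v)
      have h1 := t3 v hv le_sup_right
      have h2 := t3 z hz le_sup_left
      set t := tp R key (z ⊔ v) with ht
      by_contra hne
      have hkk : key t = key v := by
        by_cases htz : t = z
        · rw [htz] at h1 ⊢
          omega
        · have h3 := hmem v hvA' hvH hvk t t1 t2 htz
          have h4 := hwmin t (Finset.mem_filter.mpr ⟨t1, t2.trans g3, h3⟩)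
          omega
      have h5 := hkey t t1 v hv hkk
      -- `t`, `v` in one group on a line which is not in the group
      by_cases htz : t = z
      · exact g6 (by rw [← htz, h5]; exact le_sup_right)
      · have h3 := hmem v hvA' hvH hvk t t1 t2 htz
        have htA := F.at_ t (F.fr.mem t (hxN t t1))
        have e1 := line_of htA (F.at_ v hvA') hne t2 le_sup_right g1
        have h6 : z ≤ u ⊔ v := by
          have : z ≤ t ⊔ v := by rw [e1]; exact le_sup_left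
          exact this.trans (sup_le (by rw [← h5]; exact le_sup_right) le_sup_right)
        have h7 := F.pl (F.fr.mem v (hxN v hv)) (F.fr.off v (hxN v hv)) hzA
          (F.fr.off z (hxN z hz)) h6
        exact g6 (by rw [h7]; exact le_sup_right)
    right
    rw [htop]
    exact ⟨hEv, v0, hv0, hzv, hmv.symm, hrow, g7.symm⟩
  · -- `z` is above everybody off the row
    push Not at hup
    obtain ⟨y, hy, hyH, hyk⟩ := hsp
    obtain ⟨g1, g3, g4, g5, g6, g7⟩ := hline y hy hyH hyk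
    refine ⟨z ⊔ y, g1, le_sup_left, g3, g4, ⟨y, hy, g5, le_sup_right, g6⟩, Or.inl ?_⟩
    obtain ⟨t1, t2, t3⟩ := tp_spec (R := R) (key := key) hz (le_sup_left : z ≤ z ⊔ y)
    by_contra htz
    have h3 := hmem y hy hyH hyk _ t1 t2 htz
    have h4 := hup _ t1 (t2.trans g3) h3
    have h5 := t3 z hz le_sup_left
    omega

end Pool.Agent.Helper56.Lex
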