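import Pool.Agent.Helper56.BP.Exch
import Pool.Agent.Helper56.BP.Deficit
import Pool.Agent.Helper80.BP.RowsR

/-!
# The cheapest start in the lattice

One row and one plane for every user, `ix c` = price of the colour `c`.  The sum of the prices is
as small as possible, then a second function `F2` of the start is as small as possible.
-/

set_option autoImplicit false
set_option linter.unusedSectionVars false

namespace Pool.Agent.Helper56.Lex

open Pool.Agent.Helper28.BPack Pool.Agent.Helper61.Motz Pool.Agent.Helper38.Thick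
  Pool.Agent.Helper56.BP Pool.Agent.Helper56.Exch Relation

variable {L : Type} [Lattice L] [BoundedOrder L] [Finite L] [IsUpperModularLattice L]
  [DecidableEq L]

/-- A start with the representatives `Rep`. -/
structure Val (A N : Finset L) (u : L) (Z : L → Prop) (adj : L → L → Prop) (Rep : Finset L)
    (m P : L → L) : Prop where
  row : ∀ x ∈ N \ Rep, m x ∈ A ∧ m x ≤ u ∧ ¬ Z (x ⊔ m x) ∧ adj (x ⊔ m x) (P x) ∧
    ∀ z ∈ Rep, ¬ z ≤ x ⊔ m x
  rinj : ∀ x ∈ N \ Rep, ∀ y ∈ N \ Rep, x ⊔ m x = y ⊔ m y → x = y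
  pinj : ∀ x ∈ N \ Rep, ∀ y ∈ N \ Rep, P x = P y → x = y

/-- available rows -/
def Row (A N : Finset L) (u : L) (Z : L → Prop) (Rep : Finset L) (k : L) : Prop :=
  (∃ x ∈ N \ Rep, ∃ c ∈ A, c ≤ u ∧ x ⊔ c = k) ∧ ¬ Z k ∧ ∀ z ∈ Rep, ¬ z ≤ k

/-- users -/
abbrev UU (N Rep : Finset L) := {x : L // x ∈ N \ Rep}

/-- rows -/
abbrev RW (A N : Finset L) (u : L) (Z : L → Prop) (Rep : Finset L) :=
  {k : L // Row A N u Z Rep k}

/-- the price of a plane -/
noncomputable def pr (A : Finset L) (u : L) (ix : L → ℕ) (H : L) : ℕ := by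
  classical
  exact if h : ∃ c ∈ A, c ≤ u ∧ c ≤ H then ix h.choose else 0

/-- the possible partners -/
noncomputable def NB (A N : Finset L) (u : L) (Z : L → Prop) (adj : L → L → Prop) (Rep : Finset L)
    (l : UU N Rep ⊕ RW A N u Z Rep) : Finset (RW A N u Z Rep ⊕ L) := by
  classical
  exact match l with
    | Sum.inl x => (Set.toFinite {r : RW A N u Z Rep ⊕ L | ∃ k : RW A N u Z Rep,
        r = Sum.inl k ∧ x.1 ≤ k.1}).toFinset
    | Sum.inr k => (Set.toFinite {r : RW A N u Z Rep ⊕ L | r = Sum.inl k ∨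
        ∃ H, r = Sum.inr H ∧ adj k.1 H}).toFinset

section

variable {A N : Finset L} {u : L} {Z : L → Prop} {adj : L → L → Prop} {Rep : Finset L}
  {m P : L → L} {ix : L → ℕ}

theorem mem_NB_inl {x : UU N Rep} {r : RW A N u Z Rep ⊕ L} :
    r ∈ NB A N u Z adj Rep (Sum.inl x) ↔ ∃ k : RW A N u Z Rep, r = Sum.inl k ∧ x.1 ≤ k.1 := by
  simp [NB]

theorem mem_NB_inr {k : RW A N u Z Rep} {r : RW A N u Z Rep ⊕ L} :
    r ∈ NB A N u Z adj Rep (Sum.inr k) ↔ r = Sum.inl k ∨ ∃ H, r = Sum.inr H ∧ adj k.1 H := by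
  simp [NB]

/-- the cost of an element on the right side -/
noncomputable def ww (A N : Finset L) (u : L) (Z : L → Prop) (Rep : Finset L) (ix : L → ℕ) :
    RW A N u Z Rep ⊕ L → ℕ := Sum.elim (fun _ => 0) (pr A u ix)

theorem pr_eq (F : Fr A N u adj) {k H c : L} (h : adj k H) (hc : c ∈ A) (hcu : c ≤ u)
    (hcH : c ≤ H) : pr A u ix H = ix c := by
  classical
  have hex : ∃ c ∈ A, c ≤ u ∧ c ≤ H := ⟨c, hc, hcu, hcH⟩
  unfold pr
  rw [dif_pos hex]
  obtain ⟨h1, h2, h3⟩ := hex.choose_spec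
  rw [F.colH h h1 h2 h3 hc hcu hcH]

/-- the matching of a start -/
noncomputable def f0 (V : Val A N u Z adj Rep m P) :
    UU N Rep ⊕ RW A N u Z Rep → RW A N u Z Rep ⊕ L := by
  classical
  exact fun l => match l with
    | Sum.inl x => Sum.inl ⟨x.1 ⊔ m x.1, ⟨x.1, x.2, m x.1, (V.row x.1 x.2).1, (V.row x.1 x.2).2.1,
        rfl⟩, (V.row x.1 x.2).2.2.1, (V.row x.1 x.2).2.2.2.2⟩
    | Sum.inr k => if h : ∃ x ∈ N \ Rep, x ⊔ m x = k.1 then Sum.inr (P h.choose) else Sum.inl k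

theorem f0_inl (V : Val A N u Z adj Rep m P) (x : UU N Rep) :
    ∃ k : RW A N u Z Rep, f0 V (Sum.inl x) = Sum.inl k ∧ k.1 = x.1 ⊔ m x.1 := ⟨_, rfl, rfl⟩

theorem f0_used (V : Val A N u Z adj Rep m P) (k : RW A N u Z Rep) {x : L} (hx : x ∈ N \ Rep)
    (e : x ⊔ m x = k.1) : f0 V (Sum.inr k) = Sum.inr (P x) := by
  classical
  have hex : ∃ x ∈ N \ Rep, x ⊔ m x = k.1 := ⟨x, hx, e⟩
  have h1 : f0 V (Sum.inr k) = Sum.inr (P hex.choose) := by
    show (if h : ∃ x ∈ N \ Rep, x ⊔ m x = k.1 then _ else _) = _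
    rw [dif_pos hex]
  rw [h1]
  obtain ⟨h2, h3⟩ := hex.choose_spec
  rw [V.rinj _ h2 x hx (h3.trans e.symm)]

theorem f0_unused (V : Val A N u Z adj Rep m P) (k : RW A N u Z Rep)
    (h : ∀ x ∈ N \ Rep, x ⊔ m x ≠ k.1) : f0 V (Sum.inr k) = Sum.inl k := by
  classical
  show (if h : ∃ x ∈ N \ Rep, x ⊔ m x = k.1 then _ else _) = _
  rw [dif_neg]
  rintro ⟨x, hx, e⟩
  exact h x hx e

theorem f0_mt (V : Val A N u Z adj Rep m P) : Mt (NB A N u Z adj Rep) (f0 V) := by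
  classical
  constructor
  · intro a b e
    rcases a with x | k <;> rcases b with y | k'
    · obtain ⟨k1, e1, e2⟩ := f0_inl V x
      obtain ⟨k2, e3, e4⟩ := f0_inl V y
      rw [e1, e3, Sum.inl.injEq] at e
      rw [e, e4] at e2
      rw [Subtype.ext (V.rinj x.1 x.2 y.1 y.2 e2.symm)]
    · obtain ⟨k1, e1, e2⟩ := f0_inl V x
      by_cases h : ∃ z ∈ N \ Rep, z ⊔ m z = k'.1
      · obtain ⟨z, hz, e3⟩ := h
        rw [e1, f0_used V k' hz e3] at e
        cases e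
      · push Not at h
        rw [e1, f0_unused V k' h, Sum.inl.injEq] at e
        exact absurd (by rw [← e, e2]) (h x.1 x.2)
    · obtain ⟨k1, e1, e2⟩ := f0_inl V y
      by_cases h : ∃ z ∈ N \ Rep, z ⊔ m z = k.1
      · obtain ⟨z, hz, e3⟩ := h
        rw [e1, f0_used V k hz e3] at e
        cases e
      · push Not at h
        rw [e1, f0_unused V k h, Sum.inl.injEq] at e
        exact absurd (by rw [e, e2]) (h y.1 y.2)
    · by_cases h : ∃ z ∈ N \ Rep, z ⊔ m z = k.1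
      · obtain ⟨z, hz, e3⟩ := h
        by_cases h' : ∃ z ∈ N \ Rep, z ⊔ m z = k'.1
        · obtain ⟨z', hz', e3'⟩ := h'
          rw [f0_used V k hz e3, f0_used V k' hz' e3', Sum.inr.injEq] at e
          have := V.pinj z hz z' hz' e
          subst this
          rw [Subtype.ext (e3.symm.trans e3')]
        · push Not at h'
          rw [f0_used V k hz e3, f0_unused V k' h'] at e
          cases e
      · push Not at h
        by_cases h' : ∃ z ∈ N \ Rep, z ⊔ m z = k'.1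
        · obtain ⟨z', hz', e3'⟩ := h'
          rw [f0_unused V k h, f0_used V k' hz' e3'] at e
          cases e
        · push Not at h'
          rw [f0_unused V k h, f0_unused V k' h', Sum.inl.injEq] at e
          rw [e]
  · intro l
    rcases l with x | k
    · obtain ⟨k1, e1, e2⟩ := f0_inl V x
      rw [mem_NB_inl]
      exact ⟨k1, e1, by rw [e2]; exact le_sup_left⟩
    · rw [mem_NB_inr]
      by_cases h : ∃ z ∈ N \ Rep, z ⊔ m z = k.1
      · obtain ⟨z, hz, e3⟩ := h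
        right
        refine ⟨P z, f0_used V k hz e3, ?_⟩
        rw [← e3]
        exact (V.row z hz).2.2.2.1
      · push Not at h
        left
        exact f0_unused V k h

/-- the cost of the matching of a start -/
theorem f0_cost (F : Fr A N u adj) (V : Val A N u Z adj Rep m P) [Fintype (RW A N u Z Rep)] :
    ∑ l, ww A N u Z Rep ix (f0 V l) = ∑ x ∈ N \ Rep, ix (m x) := by
  classical
  rw [Fintype.sum_sum_type]
  have h1 : ∑ x : UU N Rep, ww A N u Z Rep ix (f0 V (Sum.inl x)) = 0 := by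
    apply Finset.sum_eq_zero
    intro x _
    obtain ⟨k, e1, -⟩ := f0_inl V x
    rw [e1]
    rfl
  rw [h1, zero_add]
  have h2 : ∀ x : UU N Rep, ∃ k : RW A N u Z Rep, k.1 = x.1 ⊔ m x.1 := fun x => by
    obtain ⟨k, -, e⟩ := f0_inl V x
    exact ⟨k, e⟩
  choose kk hkk using h2
  have hkinj : Function.Injective kk := by
    intro x y e
    have : x.1 ⊔ m x.1 = y.1 ⊔ m y.1 := by rw [← hkk, ← hkk, e]
    exact Subtype.ext (V.rinj x.1 x.2 y.1 y.2 this)
  have h3 : ∑ k : RW A N u Z Rep, ww A N u Z Rep ix (f0 V (Sum.inr k)) =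
      ∑ k ∈ Finset.univ.image kk, ww A N u Z Rep ix (f0 V (Sum.inr k)) := by
    symm
    apply Finset.sum_subset (Finset.subset_univ _)
    intro k _ hk
    rw [f0_unused V k]
    · rfl
    · intro x hx e
      apply hk
      rw [Finset.mem_image]
      exact ⟨⟨x, hx⟩, Finset.mem_univ _, Subtype.ext (by rw [hkk]; exact e)⟩
  rw [h3, Finset.sum_image (fun a _ b _ e => hkinj e), ← Finset.sum_coe_sort (N \ Rep)]
  apply Finset.sum_congr rfl
  intro x _
  rw [f0_used V (kk x) x.2 (hkk x).symm]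
  obtain ⟨r1, r2, r3, r4, r5⟩ := V.row x.1 x.2
  show pr A u ix (P x.1) = _
  exact pr_eq F r4 r1 r2 ((le_sup_right : m x.1 ≤ x.1 ⊔ m x.1).trans (F.ad _ _ r4).2.1)

/-- a matching gives a start -/
theorem val_of_mt (F : Fr A N u adj) [Fintype (RW A N u Z Rep)]
    {f : UU N Rep ⊕ RW A N u Z Rep → RW A N u Z Rep ⊕ L} (h : Mt (NB A N u Z adj Rep) f) :
    ∃ m' P' : L → L, Val A N u Z adj Rep m' P' ∧
      ∑ x ∈ N \ Rep, ix (m' x) ≤ ∑ l, ww A N u Z Rep ix (f l) ∧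
      ∀ x ∈ N \ Rep, ∃ l, f l = Sum.inr (P' x) := by
  classical
  have h1 : ∀ x : UU N Rep, ∃ (c H : L) (k : RW A N u Z Rep), f (Sum.inl x) = Sum.inl k ∧
      c ∈ A ∧ c ≤ u ∧ x.1 ⊔ c = k.1 ∧ f (Sum.inr k) = Sum.inr H ∧ adj k.1 H := by
    intro x
    obtain ⟨k, e1, e2⟩ := mem_NB_inl.mp (h.mem (Sum.inl x))
    obtain ⟨⟨y, hy, c, hc, hcu, e3⟩, hZ, hR⟩ := k.2
    have e4 : x.1 ⊔ c = k.1 := by
      rw [← e3]
      exact F.row (Finset.mem_sdiff.mp hy).1 (Finset.mem_sdiff.mp x.2).1 hc hcu (by rw [e3]; exact e2)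
    rcases mem_NB_inr.mp (h.mem (Sum.inr k)) with e5 | ⟨H, e5, e6⟩
    · exact absurd (h.inj (e1.trans e5.symm)) (by simp)
    · exact ⟨c, H, k, e1, hc, hcu, e4, e5, e6⟩
  choose cc HH kk g1 g2 g3 g4 g5 g6 using h1
  have hex : ∀ x : L, ∃ c H : L, ∀ hx : x ∈ N \ Rep, c = cc ⟨x, hx⟩ ∧ H = HH ⟨x, hx⟩ := by
    intro x
    by_cases hx : x ∈ N \ Rep
    · exact ⟨cc ⟨x, hx⟩, HH ⟨x, hx⟩, fun _ => ⟨rfl, rfl⟩⟩
    · exact ⟨x, x, fun h => absurd h hx⟩
  choose m' P' hmP using hex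
  have hkinj : Function.Injective kk := by
    intro x y e
    have := h.inj ((g1 x).trans ((congrArg Sum.inl e).trans (g1 y).symm))
    exact Sum.inl.inj this
  refine ⟨m', P', ⟨?_, ?_, ?_⟩, ?_, ?_⟩
  · intro x hx
    rw [(hmP x hx).1, (hmP x hx).2, g4 ⟨x, hx⟩]
    exact ⟨g2 ⟨x, hx⟩, g3 ⟨x, hx⟩, (kk ⟨x, hx⟩).2.2.1, g6 ⟨x, hx⟩, (kk ⟨x, hx⟩).2.2.2⟩
  · intro x hx y hy e
    rw [(hmP x hx).1, (hmP y hy).1, g4 ⟨x, hx⟩, g4 ⟨y, hy⟩] at e
    exact congrArg Subtype.val (hkinj (Subtype.ext e))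
  · intro x hx y hy e
    rw [(hmP x hx).2, (hmP y hy).2] at e
    have e1 : f (Sum.inr (kk ⟨x, hx⟩)) = f (Sum.inr (kk ⟨y, hy⟩)) := by rw [g5, g5, e]
    have e2 := Sum.inr.inj (h.inj e1)
    exact congrArg Subtype.val (hkinj e2)
  · rw [Fintype.sum_sum_type]
    have e1 : ∑ x ∈ N \ Rep, ix (m' x) =
        ∑ k ∈ Finset.univ.image kk, ww A N u Z Rep ix (f (Sum.inr k)) := by
      rw [Finset.sum_image (fun a _ b _ e => hkinj e), ← Finset.sum_coe_sort (N \ Rep)]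
      apply Finset.sum_congr rfl
      intro x _
      rw [g5, (hmP x.1 x.2).1]
      show _ = pr A u ix (HH x)
      rw [pr_eq F (g6 x) (g2 x) (g3 x)
        ((show cc x ≤ (kk x).1 from by rw [← g4 x]; exact le_sup_right).trans (F.ad _ _ (g6 x)).2.1)]
    rw [e1]
    have e2 : ∑ k ∈ Finset.univ.image kk, ww A N u Z Rep ix (f (Sum.inr k)) ≤
        ∑ k, ww A N u Z Rep ix (f (Sum.inr k)) :=
      Finset.sum_le_sum_of_subset (Finset.subset_univ _)
    omega
  · intro x hx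
    exact ⟨Sum.inr (kk ⟨x, hx⟩), by rw [g5, (hmP x hx).2]⟩

end

section

variable {A N : Finset L} {u : L} {Z : L → Prop} {adj : L → L → Prop} {Rep : Finset L}
  {m P : L → L} {ix : L → ℕ}

/-- Reachability between users (`Sum.inl`) and rows (`Sum.inr`): `l` may take the place of `l'`. -/
def Reach (V : Val A N u Z adj Rep m P) : UU N Rep ⊕ RW A N u Z Rep →
    UU N Rep ⊕ RW A N u Z Rep → Prop := ReflTransGen (Arc (NB A N u Z adj Rep) (f0 V))

/-- one more user -/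
theorem Val.extend (F : Fr A N u adj) (V : Val A N u Z adj Rep m P) {r c H : L} (hr : r ∈ Rep)
    (hc : c ∈ A) (hcu : c ≤ u) (hZ : ¬ Z (r ⊔ c)) (honly : ∀ z ∈ Rep, z ≤ r ⊔ c → z = r)
    (hH : adj (r ⊔ c) H) (hfree : ∀ x ∈ N \ Rep, P x ≠ H) :
    ∃ m' P', Val A N u Z adj (Rep.erase r) m' P' := by
  classical
  have hmem : ∀ x, x ∈ N \ Rep.erase r → x = r ∨ (x ≠ r ∧ x ∈ N \ Rep) := by
    intro x hx
    rw [Finset.mem_sdiff, Finset.mem_erase] at hx
    by_cases e : x = r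
    · exact Or.inl e
    · exact Or.inr ⟨e, Finset.mem_sdiff.mpr ⟨hx.1, fun h => hx.2 ⟨e, h⟩⟩⟩
  have hrow : ∀ x ∈ N \ Rep, x ⊔ m x ≠ r ⊔ c := fun x hx e =>
    (V.row x hx).2.2.2.2 r hr (by rw [e]; exact le_sup_left)
  refine ⟨Function.update m r c, Function.update P r H, ?_, ?_, ?_⟩
  · intro x hx
    rcases hmem x hx with rfl | ⟨hxr, hx'⟩
    · rw [Function.update_self, Function.update_self]
      refine ⟨hc, hcu, hZ, hH, fun z hz hzr => ?_⟩
      exact (Finset.mem_erase.mp hz).1 (honly z (Finset.mem_erase.mp hz).2 hzr)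
    · rw [Function.update_of_ne hxr, Function.update_of_ne hxr]
      obtain ⟨h1, h2, h3, h4, h5⟩ := V.row x hx'
      exact ⟨h1, h2, h3, h4, fun z hz => h5 z (Finset.mem_erase.mp hz).2⟩
  · intro x hx y hy e
    rcases hmem x hx with rfl | ⟨hxr, hx'⟩ <;> rcases hmem y hy with rfl | ⟨hyr, hy'⟩
    · rfl
    · rw [Function.update_self, Function.update_of_ne hyr] at e
      exact absurd e.symm (hrow y hy')
    · rw [Function.update_self, Function.update_of_ne hxr] at e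
      exact absurd e (hrow x hx')
    · rw [Function.update_of_ne hxr, Function.update_of_ne hyr] at e
      exact V.rinj x hx' y hy' e
  · intro x hx y hy e
    rcases hmem x hx with rfl | ⟨hxr, hx'⟩ <;> rcases hmem y hy with rfl | ⟨hyr, hy'⟩
    · rfl
    · rw [Function.update_self, Function.update_of_ne hyr] at e
      exact absurd e.symm (hfree y hy')
    · rw [Function.update_self, Function.update_of_ne hxr] at e
      exact absurd e (hfree x hx')
    · rw [Function.update_of_ne hxr, Function.update_of_ne hyr] at e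
      exact V.pinj x hx' y hy' e

/-- **The cheapest start** with classes `cls` (users), `crw` (rows) and ranks `rr`, `rrw`. -/
structure LexS (A N : Finset L) (u : L) (Z : L → Prop) (adj : L → L → Prop) (Rep0 Rep : Finset L)
    (m P : L → L) (ix : L → ℕ) (F2 : (L → L) → (L → L) → ℕ) (top : ℕ)
    (cls crw rr rrw : L → ℕ) : Prop where
  rep : Rep ⊆ Rep0
  val : Val A N u Z adj Rep m P
  minrep : ∀ r ∈ Rep, ¬ ∃ m' P', Val A N u Z adj (Rep.erase r) m' P'
  cost : ∀ m' P', Val A N u Z adj Rep m' P' → ∑ x ∈ N \ Rep, ix (m x) ≤ ∑ x ∈ N \ Rep, ix (m' x)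
  cost2 : ∀ m' P', Val A N u Z adj Rep m' P' →
    ∑ x ∈ N \ Rep, ix (m x) = ∑ x ∈ N \ Rep, ix (m' x) → F2 m P ≤ F2 m' P'
  /-- prices of colours are below `top` -/
  ixt : ∀ c ∈ A, ix c < top
  letop : ∀ x ∈ N \ Rep, cls x ≤ top
  /-- the price of a user is at most the class of its row, at most its class -/
  self : ∀ x ∈ N \ Rep, ix (m x) ≤ crw (x ⊔ m x)
  own : ∀ x ∈ N \ Rep, crw (x ⊔ m x) ≤ cls x ∧ rr x ≤ rrw (x ⊔ m x)
  /-- users on used rows -/
  low : ∀ x ∈ N \ Rep, ∀ y ∈ N \ Rep, y ≤ x ⊔ m x → cls y ≤ cls x ∧ rr x ≤ rr y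
  /-- users on available unused rows -/
  un : ∀ k, Row A N u Z Rep k → (∀ x ∈ N \ Rep, x ⊔ m x ≠ k) → ∀ y ∈ N \ Rep, y ≤ k →
    cls y ≤ crw k ∧ rrw k ≤ rr y
  /-- available rows see used planes -/
  pl : ∀ k, Row A N u Z Rep k → ∀ x ∈ N \ Rep, adj k (P x) →
    crw k ≤ crw (x ⊔ m x) ∧ rrw (x ⊔ m x) ≤ rrw k
  /-- available rows see unused planes -/
  fr : ∀ k, Row A N u Z Rep k → ∀ H, adj k H → (∀ x ∈ N \ Rep, P x ≠ H) →
    ∀ c ∈ A, c ≤ u → c ≤ H → crw k ≤ ix c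
  /-- rows through one representative see only planes of users of the top class -/
  reps : ∀ r ∈ Rep, ∀ c ∈ A, c ≤ u → ¬ Z (r ⊔ c) → (∀ z ∈ Rep, z ≤ r ⊔ c → z = r) →
    ∀ H, adj (r ⊔ c) H → ∃ x ∈ N \ Rep, P x = H ∧ cls x = top
  /-- the class is the price of a user whose row reaches `x` -/
  att : ∀ x ∈ N \ Rep, cls x = top ∨ ∃ z ∈ N \ Rep, cls x = ix (m z) ∧
    ∀ (hx : x ∈ N \ Rep) (k : RW A N u Z Rep), k.1 = z ⊔ m z →
      Reach val (Sum.inr k) (Sum.inl ⟨x, hx⟩)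
  rk : ∀ x ∈ N \ Rep, ∀ y ∈ N \ Rep, cls x < cls y → rr y < rr x
  comp : ∀ (x : L) (hx : x ∈ N \ Rep) (y : L) (hy : y ∈ N \ Rep), rr x = rr y ↔
    (Reach val (Sum.inl ⟨x, hx⟩) (Sum.inl ⟨y, hy⟩) ∧ Reach val (Sum.inl ⟨y, hy⟩) (Sum.inl ⟨x, hx⟩))

theorem exists_min' {α : Type*} (p : α → Prop) (f : α → ℕ) (h : ∃ a, p a) :
    ∃ a, p a ∧ ∀ b, p b → f a ≤ f b := by
  classical
  have hex : ∃ n, ∃ a, p a ∧ f a = n := by
    obtain ⟨a, ha⟩ := h
    exact ⟨f a, a, ha, rfl⟩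
  obtain ⟨a, ha, hfa⟩ := Nat.find_spec hex
  refine ⟨a, ha, fun b hb => ?_⟩
  rw [hfa]
  exact Nat.find_min' hex ⟨b, hb, rfl⟩

theorem exists_lex {Rep0 : Finset L} (F : Fr A N u adj) (hRN : Rep0 ⊆ N) (ix : L → ℕ)
    (F2 : (L → L) → (L → L) → ℕ) {m0 P0 : L → L} (h0 : Val A N u Z adj Rep0 m0 P0) :
    ∃ (Rep : Finset L) (m P : L → L) (top : ℕ) (cls crw rr rrw : L → ℕ),
      LexS A N u Z adj Rep0 Rep m P ix F2 top cls crw rr rrw := by
  classical
  -- the representatives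
  obtain ⟨Rep, ⟨hR0, m1, P1, V1⟩, hRmin⟩ := exists_min'
    (fun R : Finset L => R ⊆ Rep0 ∧ ∃ m P, Val A N u Z adj R m P) (fun R => R.card)
    ⟨Rep0, Finset.Subset.refl _, m0, P0, h0⟩
  have hminrep : ∀ r ∈ Rep, ¬ ∃ m' P', Val A N u Z adj (Rep.erase r) m' P' := by
    intro r hr h
    have h1 := hRmin (Rep.erase r) ⟨(Finset.erase_subset _ _).trans hR0, h⟩
    have h2 := Finset.card_erase_lt_of_mem hr
    omega
  -- cheapest
  obtain ⟨q2, V2, hc2⟩ := exists_min' (fun q : (L → L) × (L → L) => Val A N u Z adj Rep q.1 q.2)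
    (fun q => ∑ x ∈ N \ Rep, ix (q.1 x)) ⟨(m1, P1), V1⟩
  obtain ⟨q, ⟨V, hcq⟩, hc3⟩ := exists_min'
    (fun q : (L → L) × (L → L) => Val A N u Z adj Rep q.1 q.2 ∧
      ∑ x ∈ N \ Rep, ix (q.1 x) = ∑ x ∈ N \ Rep, ix (q2.1 x))
    (fun q => F2 q.1 q.2) ⟨q2, V2, rfl⟩
  obtain ⟨m, P⟩ := q
  simp only at V hcq hc3
  have hcost : ∀ m' P', Val A N u Z adj Rep m' P' →
      ∑ x ∈ N \ Rep, ix (m x) ≤ ∑ x ∈ N \ Rep, ix (m' x) := by
    intro m' P' V'
    rw [hcq]
    exact hc2 (m', P') V'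
  have hcost2 : ∀ m' P', Val A N u Z adj Rep m' P' →
      ∑ x ∈ N \ Rep, ix (m x) = ∑ x ∈ N \ Rep, ix (m' x) → F2 m P ≤ F2 m' P' := by
    intro m' P' V' e
    exact hc3 (m', P') ⟨V', by rw [← e, hcq]⟩
  have : Fintype (RW A N u Z Rep) := Fintype.ofFinite _
  set NN := NB A N u Z adj Rep with hNN
  set f := f0 V with hf
  set w := ww A N u Z Rep ix with hw
  have hM : Mt NN f := f0_mt V
  have hmin : ∀ f', Mt NN f' → ∑ l, w (f l) ≤ ∑ l, w (f' l) := by
    intro f' h'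
    obtain ⟨m', P', V', h1, -⟩ := val_of_mt (ix := ix) F h'
    have h2 := f0_cost (ix := ix) F V
    have h3 := hcost m' P' V'
    have h4 : ∑ l, w (f l) = ∑ x ∈ N \ Rep, ix (m x) := h2
    rw [h4]
    exact h3.trans h1
  set top : ℕ := A.sup ix + 1 with htop
  have hixt : ∀ c ∈ A, ix c < top := fun c hc => Nat.lt_succ_of_le (Finset.le_sup (f := ix) hc)
  have hprt : ∀ H, pr A u ix H ≤ top := by
    intro H
    unfold pr
    split_ifs with h
    · exact (hixt _ h.choose_spec.1).le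
    · exact Nat.zero_le _
  have hwt : ∀ r, w r ≤ top := by
    intro r
    rcases r with k | H
    · exact Nat.zero_le _
    · exact hprt H
  set cl := cls NN f w top with hcl
  obtain ⟨rk, k1, k2, k3⟩ := exists_rank (Arc NN f) cl
    (fun a b h => cls_mono hwt (ReflTransGen.single h))
  set clU : L → ℕ := fun x => if h : x ∈ N \ Rep then cl (Sum.inl ⟨x, h⟩) else 0 with hclU
  set clR : L → ℕ := fun k => if h : Row A N u Z Rep k then cl (Sum.inr ⟨k, h⟩) else 0 with hclR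
  set rrU : L → ℕ := fun x => if h : x ∈ N \ Rep then rk (Sum.inl ⟨x, h⟩) else 0 with hrrU
  set rrR : L → ℕ := fun k => if h : Row A N u Z Rep k then rk (Sum.inr ⟨k, h⟩) else 0 with hrrR
  have eU : ∀ x (h : x ∈ N \ Rep), clU x = cl (Sum.inl ⟨x, h⟩) := fun x h => by
    simp only [hclU, dif_pos h]
  have eR : ∀ k (h : Row A N u Z Rep k), clR k = cl (Sum.inr ⟨k, h⟩) := fun k h => by
    simp only [hclR, dif_pos h]
  have fU : ∀ x (h : x ∈ N \ Rep), rrU x = rk (Sum.inl ⟨x, h⟩) := fun x h => by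
    simp only [hrrU, dif_pos h]
  have fR : ∀ k (h : Row A N u Z Rep k), rrR k = rk (Sum.inr ⟨k, h⟩) := fun k h => by
    simp only [hrrR, dif_pos h]
  have hrow : ∀ x ∈ N \ Rep, Row A N u Z Rep (x ⊔ m x) := fun x hx =>
    ⟨⟨x, hx, m x, (V.row x hx).1, (V.row x hx).2.1, rfl⟩, (V.row x hx).2.2.1,
      (V.row x hx).2.2.2.2⟩
  have fused : ∀ x (hx : x ∈ N \ Rep), f (Sum.inr ⟨x ⊔ m x, hrow x hx⟩) = Sum.inr (P x) :=
    fun x hx => f0_used V _ hx rfl
  have finl : ∀ x (hx : x ∈ N \ Rep), f (Sum.inl ⟨x, hx⟩) = Sum.inl ⟨x ⊔ m x, hrow x hx⟩ :=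
    fun x hx => rfl
  -- the arcs
  have arcOwn : ∀ x (hx : x ∈ N \ Rep), Arc NN f (Sum.inr ⟨x ⊔ m x, hrow x hx⟩)
      (Sum.inl ⟨x, hx⟩) := by
    intro x hx
    show f (Sum.inl ⟨x, hx⟩) ∈ NN _
    rw [finl, hNN, mem_NB_inr]
    exact Or.inl rfl
  have arcLow : ∀ x (hx : x ∈ N \ Rep) y (hy : y ∈ N \ Rep), y ≤ x ⊔ m x →
      Arc NN f (Sum.inl ⟨y, hy⟩) (Sum.inl ⟨x, hx⟩) := by
    intro x hx y hy h
    show f (Sum.inl ⟨x, hx⟩) ∈ NN _
    rw [finl, hNN, mem_NB_inl]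
    exact ⟨_, rfl, h⟩
  have arcUn : ∀ k (hk : Row A N u Z Rep k), (∀ x ∈ N \ Rep, x ⊔ m x ≠ k) →
      ∀ y (hy : y ∈ N \ Rep), y ≤ k → Arc NN f (Sum.inl ⟨y, hy⟩) (Sum.inr ⟨k, hk⟩) := by
    intro k hk hun y hy h
    show f (Sum.inr ⟨k, hk⟩) ∈ NN _
    rw [hf, f0_unused V ⟨k, hk⟩ hun, hNN, mem_NB_inl]
    exact ⟨_, rfl, h⟩
  have arcPl : ∀ k (hk : Row A N u Z Rep k), ∀ x (hx : x ∈ N \ Rep), adj k (P x) →
      Arc NN f (Sum.inr ⟨k, hk⟩) (Sum.inr ⟨x ⊔ m x, hrow x hx⟩) := by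
    intro k hk x hx h
    show f (Sum.inr ⟨x ⊔ m x, hrow x hx⟩) ∈ NN _
    rw [fused x hx, hNN, mem_NB_inr]
    exact Or.inr ⟨_, rfl, h⟩
  have mono : ∀ a b, Arc NN f a b → cl a ≤ cl b := fun a b h =>
    cls_mono hwt (ReflTransGen.single h)
  refine ⟨Rep, m, P, top, clU, clR, rrU, rrR, hR0, V, hminrep, hcost, hcost2, hixt, ?_, ?_, ?_, ?_,
    ?_, ?_, ?_, ?_, ?_, ?_, ?_⟩
  · intro x hx
    rw [eU x hx]
    exact cls_le_top hwt _
  · intro x hx
    rw [eR _ (hrow x hx)]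
    have h1 := le_cls (N := NN) (f := f) (top := top) hwt (Sum.inr ⟨x ⊔ m x, hrow x hx⟩)
    rw [fused x hx] at h1
    have h2 : w (Sum.inr (P x)) = ix (m x) :=
      pr_eq F (V.row x hx).2.2.2.1 (V.row x hx).1 (V.row x hx).2.1
        ((le_sup_right : m x ≤ x ⊔ m x).trans (F.ad _ _ (V.row x hx).2.2.2.1).2.1)
    rw [h2] at h1
    exact h1
  · intro x hx
    rw [eR _ (hrow x hx), eU x hx, fU x hx, fR _ (hrow x hx)]
    exact ⟨mono _ _ (arcOwn x hx), k1 _ _ (arcOwn x hx)⟩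
  · intro x hx y hy h
    rw [eU x hx, eU y hy, fU x hx, fU y hy]
    exact ⟨mono _ _ (arcLow x hx y hy h), k1 _ _ (arcLow x hx y hy h)⟩
  · intro k hk hun y hy h
    rw [eU y hy, eR k hk, fU y hy, fR k hk]
    exact ⟨mono _ _ (arcUn k hk hun y hy h), k1 _ _ (arcUn k hk hun y hy h)⟩
  · intro k hk x hx h
    rw [eR k hk, eR _ (hrow x hx), fR k hk, fR _ (hrow x hx)]
    exact ⟨mono _ _ (arcPl k hk x hx h), k1 _ _ (arcPl k hk x hx h)⟩
  · intro k hk H hH hfree c hc hcu hcH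
    rw [eR k hk]
    have h1 : Sum.inr H ∈ NN (Sum.inr ⟨k, hk⟩) := by
      rw [hNN, mem_NB_inr]
      exact Or.inr ⟨H, rfl, hH⟩
    have h2 : ∀ l, f l ≠ Sum.inr H := by
      intro l e
      rcases l with x | k'
      · rw [finl x.1 x.2] at e
        cases e
      · by_cases h : ∃ z ∈ N \ Rep, z ⊔ m z = k'.1
        · obtain ⟨z, hz, e3⟩ := h
          rw [hf, f0_used V k' hz e3, Sum.inr.injEq] at e
          exact hfree z hz e
        · push Not at h
          rw [hf, f0_unused V k' h] at e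
          cases e
    have h3 := cls_le (top := top) hM hmin h1 h2
    have h4 : w (Sum.inr H) = ix c := pr_eq F hH hc hcu hcH
    rw [h4] at h3
    exact h3
  · intro r hr c hc hcu hZ honly H hH
    by_cases hused : ∃ x ∈ N \ Rep, P x = H
    · obtain ⟨x, hx, hxH⟩ := hused
      refine ⟨x, hx, hxH, ?_⟩
      rw [eU x hx]
      apply cls_of_D
      by_contra hD
      have hD' : ¬ Dd NN f (Sum.inr ⟨x ⊔ m x, hrow x hx⟩) := fun h =>
        hD (h.fwd (ReflTransGen.single (arcOwn x hx)))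
      unfold Dd at hD'
      push Not at hD'
      obtain ⟨l', hl', r', hr', hfree⟩ := hD'
      obtain ⟨f', h', -, hne, -⟩ := exchange w hM hl' hr' hfree
      obtain ⟨m', P', V', -, h3⟩ := val_of_mt (ix := ix) F h'
      apply hminrep r hr
      refine V'.extend F hr hc hcu hZ honly hH ?_
      intro z hz e
      obtain ⟨l, hl⟩ := h3 z hz
      apply hne l
      rw [hl, fused x hx, e, hxH]
    · push Not at hused
      exact absurd (V.extend F hr hc hcu hZ honly hH hused) (hminrep r hr)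
  · intro x hx
    rw [eU x hx]
    by_cases hD : Dd NN f (Sum.inl ⟨x, hx⟩)
    · exact Or.inl (cls_of_D hD)
    · right
      have h1 : cl (Sum.inl ⟨x, hx⟩) =
          (Finset.univ.filter fun l' => ReflTransGen (Arc NN f) l' (Sum.inl ⟨x, hx⟩)).sup
            fun l' => w (f l') := by
        rw [hcl]
        unfold cls
        rw [if_neg hD]
      obtain ⟨l, hl, hlmax⟩ := Finset.exists_mem_eq_sup
        (Finset.univ.filter fun l' => ReflTransGen (Arc NN f) l' (Sum.inl ⟨x, hx⟩))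
        ⟨Sum.inl ⟨x, hx⟩, Finset.mem_filter.mpr ⟨Finset.mem_univ _, ReflTransGen.refl⟩⟩
        (fun l' => w (f l'))
      rw [← h1] at hlmax
      have hreach := (Finset.mem_filter.mp hl).2
      have hprx : ∀ z ∈ N \ Rep, w (Sum.inr (P z)) = ix (m z) := fun z hz =>
        pr_eq F (V.row z hz).2.2.2.1 (V.row z hz).1 (V.row z hz).2.1
          ((le_sup_right : m z ≤ z ⊔ m z).trans (F.ad _ _ (V.row z hz).2.2.2.1).2.1)
      -- value zero: take `x` itself
      have hzero : cl (Sum.inl ⟨x, hx⟩) = 0 → ∃ z ∈ N \ Rep, cl (Sum.inl ⟨x, hx⟩) = ix (m z) ∧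
          ∀ (hx : x ∈ N \ Rep) (k : RW A N u Z Rep), k.1 = z ⊔ m z →
            Reach V (Sum.inr k) (Sum.inl ⟨x, hx⟩) := by
        intro e
        refine ⟨x, hx, ?_, ?_⟩
        · have h2 := le_cls (N := NN) (f := f) (top := top) hwt
            (Sum.inr ⟨x ⊔ m x, hrow x hx⟩)
          rw [fused x hx, hprx x hx] at h2
          have h3 := mono _ _ (arcOwn x hx)
          have h4 : ix (m x) ≤ cl (Sum.inl ⟨x, hx⟩) := h2.trans h3
          omega
        · intro hx' k hk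
          have hk' : k = ⟨x ⊔ m x, hrow x hx⟩ := Subtype.ext hk
          rw [hk']
          exact ReflTransGen.single (arcOwn x hx)
      rcases l with y | k
      · exact hzero hlmax
      · by_cases h : ∃ z ∈ N \ Rep, z ⊔ m z = k.1
        · obtain ⟨z, hz, e3⟩ := h
          refine ⟨z, hz, ?_, ?_⟩
          · rw [hlmax]
            show w (f (Sum.inr k)) = _
            rw [hf, f0_used V k hz e3]
            exact hprx z hz
          · intro hx' k' hk'
            have : k' = k := Subtype.ext (hk'.trans e3)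
            rw [this]
            exact hreach
        · push Not at h
          refine hzero ?_
          rw [hlmax]
          show w (f (Sum.inr k)) = 0
          rw [hf, f0_unused V k h]
          rfl
  · intro x hx y hy h
    rw [eU x hx, eU y hy] at h
    rw [fU x hx, fU y hy]
    exact k3 _ _ h
  · intro x hx y hy
    rw [fU x hx, fU y hy]
    exact k2 _ _

end

end Pool.Agent.Helper56.Lex
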