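import Pool.Agent.Helper56.BP.Lex
import Pool.Agent.Helper63.HM.PerLevel
import Pool.Agent.Helper56.BP.ConeKer

/-!
# The cheapest start in the cone frame, level 3 from coloured lines
-/

set_option autoImplicit false
set_option linter.unusedSectionVars false

namespace Pool.Agent.Helper56.Lex

open Pool.Agent.Helper28.BPack Pool.Agent.Helper61.Motz Pool.Agent.Helper38.Thick
  Pool.Agent.Helper38.SC Pool.Agent.Helper56.BP Pool.Agent.Helper56.Exch Relation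
open Pool.Agent.Helper80.BP (Pl line_mem)

variable {L : Type} [Lattice L] [BoundedOrder L] [Finite L] [IsUpperModularLattice L]
  [DecidableEq L]

section

variable {A N : Finset L} {u : L} {Z : L → Prop} {adj : L → L → Prop} {Rep : Finset L}
  {m P : L → L} {ix : L → ℕ}

/-- The state of a start. -/
theorem Val.exists_sta (F : Fr A N u adj) (V : Val A N u Z adj Rep m P) :
    ∃ pl : L → L, (∀ x ∈ N \ Rep, pl (x ⊔ m x) = P x) ∧
      Sta A (N \ Rep) u Z Rep adj (fun x => {m x}) pl := by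
  classical
  set R : Finset L := N \ Rep with hR
  set pl : L → L := fun k => if h : ∃ x ∈ R, x ⊔ m x = k then P h.choose else ⊥ with hpl
  have hplv : ∀ x ∈ R, pl (x ⊔ m x) = P x := by
    intro x hx
    have h : ∃ y ∈ R, y ⊔ m y = x ⊔ m x := ⟨x, hx, rfl⟩
    have e : pl (x ⊔ m x) = P h.choose := by simp only [hpl, dif_pos h]
    rw [e]
    obtain ⟨h4, h5⟩ := h.choose_spec
    rw [V.rinj _ h4 x hx h5]
  refine ⟨pl, hplv, F.at_, F.ru, fun v hv => F.mem v (Finset.mem_sdiff.mp hv).1,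
    fun v hv => F.off v (Finset.mem_sdiff.mp hv).1, ?_, ?_, ?_, ?_, ?_, ?_, ?_⟩
  · intro v hv c hc
    rw [Finset.mem_singleton] at hc
    subst hc
    exact ⟨(V.row v hv).1, (V.row v hv).2.1⟩
  · intro v hv c hc
    rw [Finset.mem_singleton] at hc
    subst hc
    exact (V.row v hv).2.2.1
  · intro v hv c hc
    rw [Finset.mem_singleton] at hc
    subst hc
    exact (V.row v hv).2.2.2.2
  · intro v hv v' hv' c hc hc' e
    rw [Finset.mem_singleton] at hc hc'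
    exact V.rinj v hv v' hv' (by rw [← hc, ← hc', e])
  · intro v hv c hc
    rw [Finset.mem_singleton] at hc
    subst hc
    rw [hplv v hv]
    exact ⟨(V.row v hv).2.2.2.1, F.ad _ _ (V.row v hv).2.2.2.1⟩
  · intro v hv c hc v' hv' c' hc' e
    rw [Finset.mem_singleton] at hc hc'
    subst hc hc'
    rw [hplv v hv, hplv v' hv'] at e
    have e2 := V.pinj v hv v' hv' e
    exact ⟨e2, by rw [e2]⟩
  · intro v _
    simp

/-- helper80's structure for the ranks of the cheapest start. -/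
theorem LexS.sr (F : Fr A N u adj) {Rep0 : Finset L} {F2 : (L → L) → (L → L) → ℕ} {top : ℕ}
    {cls crw rr rrw : L → ℕ} (S : LexS A N u Z adj Rep0 Rep m P ix F2 top cls crw rr rrw) :
    Pool.Agent.Helper80.BP.R.SR A (N \ Rep) u (fun x => {m x}) (fun _ => 2) rr := by
  refine ⟨F.at_, F.ru, fun v hv => F.mem v (Finset.mem_sdiff.mp hv).1,
    fun v hv => F.off v (Finset.mem_sdiff.mp hv).1, ?_, ?_, ?_, ?_, ?_, ?_, ?_, ?_⟩
  · intro v hv c hc
    rw [Finset.mem_singleton] at hc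
    subst hc
    exact ⟨(S.val.row v hv).1, (S.val.row v hv).2.1⟩
  · intro v hv v' hv' c hc hc' e
    rw [Finset.mem_singleton] at hc hc'
    exact S.val.rinj v hv v' hv' (by rw [← hc, ← hc', e])
  · intro v hv c hc y hy h
    rw [Finset.mem_singleton] at hc
    subst hc
    exact (S.low v hv y hy h).2
  · intro v _
    simp
  · intro v _
    simp
  · intro v _
    simp
  · intro _ _ _ _ _
    exact le_rfl
  · intro _ _ _ _ _ h
    exact absurd (by decide : Even 2) h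

end

section

variable [DecidableRel (α := L) (· ≤ ·)] {A : Finset L} {Q o u : L} {ρ : L → L}
  {Rep : Finset L} {m P : L → L}

/-- **Level 3 = different lines.** -/
theorem crit4_of_sdr (F : FrC A Q o u ρ) (hRep : Rep ⊆ RC A Q o u ρ)
    (V : Val A (NC A Q o) u (ZC o) (ADC A Q o u) Rep m P) {gg : L → L}
    (hg : ∀ x ∈ NC A Q o \ Rep, gg x ∈ pen A x (x ⊔ m x) (P x))
    (hinj : ∀ x ∈ NC A Q o \ Rep, ∀ y ∈ NC A Q o \ Rep, gg x = gg y → x = y) : Crit4 A := by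
  classical
  obtain ⟨pl, hpl, S⟩ := V.exists_sta F.fr
  refine Pool.Agent.Helper63.Deficit.crit4_of_match_cone F hRep S
    (Ls := fun x c => pen A x (x ⊔ c) (pl (x ⊔ c))) ?_
  have hz : ∀ x, ∃ z, x ∈ NC A Q o \ Rep → z ∈ A ∧ z ≤ P x ∧ ¬ z ≤ x ⊔ m x ∧ x ⊔ z = gg x := by
    intro x
    by_cases hx : x ∈ NC A Q o \ Rep
    · obtain ⟨z, h1, h2, h3, h4⟩ := mem_pen.mp (hg x hx)
      exact ⟨z, fun _ => ⟨h1, h2, h3, h4⟩⟩
    · exact ⟨x, fun h => absurd h hx⟩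
  choose zz hzz using hz
  refine ⟨m, zz, ?_, ?_⟩
  · intro x hx
    obtain ⟨h1, h2, h3, h4⟩ := hzz x hx
    refine ⟨Finset.mem_singleton_self _, h1, by rw [hpl x hx]; exact h2, h3, ?_⟩
    rw [h4, hpl x hx]
    exact hg x hx
  · intro x hx y hy e
    rw [(hzz x hx).2.2.2, (hzz y hy).2.2.2] at e
    exact hinj x hx y hy e

/-- **Level 3 from coloured lines** (helper49): every line gets one colour; it is enough that every
user has a line of its own colour in its pencil. -/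
theorem crit4_of_colour (F : FrC A Q o u ρ) (hRep : Rep ⊆ RC A Q o u ρ)
    (V : Val A (NC A Q o) u (ZC o) (ADC A Q o u) Rep m P) {col : L → L}
    (h : ∀ x ∈ NC A Q o \ Rep, ∃ g ∈ pen A x (x ⊔ m x) (P x), col g = m x) : Crit4 A := by
  classical
  have hex : ∀ x, ∃ g, x ∈ NC A Q o \ Rep → g ∈ pen A x (x ⊔ m x) (P x) ∧ col g = m x := by
    intro x
    by_cases hx : x ∈ NC A Q o \ Rep
    · obtain ⟨g, h1, h2⟩ := h x hx
      exact ⟨g, fun _ => ⟨h1, h2⟩⟩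
    · exact ⟨x, fun h => absurd h hx⟩
  choose gg hgg using hex
  have hspec : ∀ x ∈ NC A Q o \ Rep, gg x ⊔ m x = P x := by
    intro x hx
    obtain ⟨r1, r2, r3, r4, r5⟩ := V.row x hx
    have hxN := (Finset.mem_sdiff.mp hx).1
    exact (pen_spec F.at_ (F.fr.mem x hxN) r1 (fun e => F.fr.off x hxN (e ▸ r2)) r4.1 r4.2.1
      (hgg x hx).1).2.2.2.2
  refine crit4_of_sdr F hRep V (gg := gg) (fun x hx => (hgg x hx).1) ?_
  intro x hx y hy e
  have h1 : m x = m y := by rw [← (hgg x hx).2, ← (hgg y hy).2, e]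
  apply V.pinj x hx y hy
  rw [← hspec x hx, ← hspec y hy, e, h1]

/-- The top user of a line (smallest key). -/
noncomputable def tp (R : Finset L) (key : L → ℕ) (g : L) : L := by
  classical
  exact if h : (R.filter (· ≤ g)).Nonempty then
    (Finset.exists_min_image (R.filter (· ≤ g)) key h).choose else g

theorem tp_spec {R : Finset L} {key : L → ℕ} {g x : L} (hx : x ∈ R) (hxg : x ≤ g) :
    tp R key g ∈ R ∧ tp R key g ≤ g ∧ ∀ y ∈ R, y ≤ g → key (tp R key g) ≤ key y := by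
  classical
  have h : (R.filter (· ≤ g)).Nonempty := ⟨x, Finset.mem_filter.mpr ⟨hx, hxg⟩⟩
  unfold tp
  rw [dif_pos h]
  obtain ⟨h1, h2⟩ := (Finset.exists_min_image (R.filter (· ≤ g)) key h).choose_spec
  exact ⟨(Finset.mem_filter.mp h1).1, (Finset.mem_filter.mp h1).2,
    fun y hy hyg => h2 y (Finset.mem_filter.mpr ⟨hy, hyg⟩)⟩

/-- **Top row** (helper49): `v1` has the smallest key in the plane of `x`, only users on its row have
the same key, and `v1` owns its row with the colour of `x`.  Then some line of the pencil of `x` has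
its top user of the colour of `x`. -/
theorem top_row (F : FrC A Q o u ρ) (V : Val A (NC A Q o) u (ZC o) (ADC A Q o u) Rep m P)
    {key : L → ℕ} {x v1 : L} (hx : x ∈ NC A Q o \ Rep) (hv : v1 ∈ NC A Q o \ Rep)
    (hvH : v1 ≤ P x) (hm : m v1 = m x) (hw : ∃ z ∈ A, z ≤ P x ∧ ¬ z ≤ x ⊔ m x)
    (hkey : ∀ y ∈ NC A Q o \ Rep, y ≤ P x → key v1 ≤ key y ∧
      (key y = key v1 → y ≤ v1 ⊔ m x)) :
    ∃ g ∈ pen A x (x ⊔ m x) (P x), m (tp (NC A Q o \ Rep) key g) = m x := by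
  classical
  obtain ⟨r1, r2, r3, r4, r5⟩ := V.row x hx
  have hxN := (Finset.mem_sdiff.mp hx).1
  have hvN := (Finset.mem_sdiff.mp hv).1
  have hxA := F.fr.mem x hxN
  have hvA := F.fr.mem v1 hvN
  have hxc : x ≠ m x := fun e => F.fr.off x hxN (e ▸ r2)
  have hvc : v1 ≠ m x := fun e => F.fr.off v1 hvN (e ▸ r2)
  -- the top user of a line of the pencil which contains `v1` is `v1`
  have htop : ∀ g ∈ pen A x (x ⊔ m x) (P x), v1 ≤ g → tp (NC A Q o \ Rep) key g = v1 := by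
    intro g hg hvg
    obtain ⟨g1, g2, g3, g4, g5⟩ := pen_spec F.at_ hxA r1 hxc r4.1 r4.2.1 hg
    obtain ⟨t1, t2, t3⟩ := tp_spec (R := NC A Q o \ Rep) (key := key) hv hvg
    have h1 := hkey _ t1 (t2.trans g3)
    have h2 := t3 v1 hv hvg
    have h3 := h1.2 (le_antisymm h2 h1.1)
    by_contra hne
    have e1 := line_of (F.at_ _ (F.fr.mem _ (Finset.mem_sdiff.mp t1).1)) (F.at_ v1 hvA) hne t2 hvg g1
    have e2 := line_of (F.at_ _ (F.fr.mem _ (Finset.mem_sdiff.mp t1).1)) (F.at_ v1 hvA) hne h3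
      le_sup_left (rk_line (F.at_ v1 hvA) (F.at_ _ r1) hvc)
    exact g4 ((le_sup_right : m x ≤ v1 ⊔ m x).trans (e2.symm.trans e1).le)
  by_cases hvx : v1 = x
  · -- any line of the pencil
    obtain ⟨z, hz, hzH, hzk⟩ := hw
    refine ⟨x ⊔ z, mem_pen.mpr ⟨z, hz, hzH, hzk, rfl⟩, ?_⟩
    rw [htop _ (mem_pen.mpr ⟨z, hz, hzH, hzk, rfl⟩) (by rw [hvx]; exact le_sup_left), hm]
  · have hvk : ¬ v1 ≤ x ⊔ m x := by
      intro h
      apply hvx
      apply V.rinj v1 hv x hx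
      rw [hm]
      exact F.fr.row hxN hvN r1 r2 h
    have hg : x ⊔ v1 ∈ pen A x (x ⊔ m x) (P x) := line_mem hvA hvH hvk
    exact ⟨_, hg, by rw [htop _ hg le_sup_right, hm]⟩

/-- The usable planes which contain a point of `A` off the row. -/
def ADS (A : Finset L) (Q o u k H : L) : Prop := ADC A Q o u k H ∧ ∃ y ∈ A, y ≤ H ∧ ¬ y ≤ k

theorem FrC.frS (F : FrC A Q o u ρ) : Fr A (NC A Q o) u (ADS A Q o u) :=
  ⟨F.at_, F.ru, F.fr.mem, F.fr.off, fun k H h => F.fr.ad k H h.1⟩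

/-- Hall's condition for the rows which do not contain the special point of their group, planes
spanned by points of `A`. -/
theorem kerS (F : FrC A Q o u ρ) (hNF : NF A Q o u) {c : L} (hc : c ∈ A) (hcu : c ≤ u)
    (S : Finset L)
    (hS : ∀ k ∈ S, ∃ x ∈ A, ¬ x ≤ Q ∧ ¬ ρ (u ⊔ x) ≤ x ⊔ c ∧ k = x ⊔ c) :
    S.card ≤ (S.biUnion (fun k => (Set.toFinite {H | ADS A Q o u k H}).toFinset)).card := by
  classical
  have hne : ∀ x, ¬ x ≤ u → x ≠ c := fun x hx e => hx (e ▸ hcu)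
  refine Pool.Agent.Helper95.Cone.cone_hK (ρ := ρ)
    (adj := fun k => (Set.toFinite {H | ADS A Q o u k H}).toFinset)
    F.at_ F.ru F.rQ F.uQ F.oA F.oQ hc hcu ?_ ?_ F.rhoo ?_ ?_ ?_ S hS
  · obtain ⟨d, hd, hdc⟩ : ∃ d ∈ A.filter (· ≤ u), d ≠ c :=
      Finset.exists_mem_ne (by have := F.U2; omega) c
    rw [Finset.mem_filter] at hd
    exact ⟨d, hd.1, hd.2, hdc⟩
  · exact F.tri
  · intro x hx hxQ
    obtain ⟨h1, h2, h3⟩ := F.rho x hx hxQ
    exact ⟨h1, F.pl hx (F.off hxQ) h1 (F.off h2) h3⟩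
  · rcases hNF c hc hcu with h | h | h
    · left
      unfold DegA at h
      push Not at h
      obtain ⟨y, hy, hyQ, hyu, z, hz, hzQ, hzu, hzy⟩ := h
      exact ⟨z, hz, y, hy, hzQ, hyQ, hzu, hyu, by rw [sup_comm]; exact hzy⟩
    · right
      left
      unfold DegA at h
      push Not at h
      obtain ⟨y, hy, hyQ, hyu, z, hz, hzQ, hzu, hzy⟩ := h
      by_cases h1 : y ≤ c ⊔ o
      · refine ⟨z, hz, hzQ, hzu, fun h2 => hzy ?_⟩
        have hco : c ≠ o := fun e => F.off F.oQ (e ▸ hcu)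
        have h3 : y ⊔ c = c ⊔ o := line_of (F.at_ y hy) (F.at_ c hc) (hne y hyu) h1 le_sup_left
          (rk_line (F.at_ c hc) (F.at_ o F.oA) hco)
        rw [h3]
        exact h2
      · exact ⟨y, hy, hyQ, hyu, h1⟩
    · right
      right
      intro x hx y hy hxQ _ hyx hyu
      rw [sup_comm]
      exact h x hx hxQ x hx le_sup_right (F.off hxQ) y hy hyx hyu
  · intro x hx hxQ H h1 h2 h3 h4 h5
    rw [Set.Finite.mem_toFinset, Set.mem_ofPred_eq]
    refine ⟨⟨h1, h2, h3, fun ho q hq hqQ hqH => ?_⟩, h4⟩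
    by_contra hqu
    exact h5 ⟨ho, q, hq, hqQ, hqu, hqH⟩

/-- **The start**, planes spanned by points of `A`. -/
theorem cone_mS (F : FrC A Q o u ρ) (hNF : NF A Q o u) :
    ∃ m P : L → L, Val A (NC A Q o) u (ZC o) (ADS A Q o u) (RC A Q o u ρ) m P := by
  classical
  set R : Finset L := NC A Q o \ RC A Q o u ρ with hR
  have hmR : ∀ x, x ∈ R ↔ x ∈ NC A Q o ∧ x ∉ RC A Q o u ρ := fun x => by
    rw [hR, Finset.mem_sdiff]
  have haj : ∀ k H, H ∈ (Set.toFinite {H | ADS A Q o u k H}).toFinset ↔ ADS A Q o u k H :=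
    fun k H => by simp
  obtain ⟨m, P, h1, h2, h3, h4⟩ := Pool.Agent.Helper73.BP.start (A := A) (R := R) (u := u)
    (ρ := ρ) (Off := fun x => ¬ x ≤ Q)
    (adj := fun k => (Set.toFinite {H | ADS A Q o u k H}).toFinset) F.at_ F.ru F.U2
    (fun k hk _ => F.max k hk)
    (fun x hx => by
      obtain ⟨h1, h2⟩ := (hmR x).mp hx
      obtain ⟨h3, h4, h5⟩ := mem_NC.mp h1
      exact ⟨h3, F.off h4, h4, F.at_ _ (F.rho x h3 h4).1,
        fun e => h2 (mem_RC.mpr ⟨h3, h4, h5, e⟩)⟩)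
    (fun k H hH => by
      have := ((haj k H).mp hH).1
      exact ⟨this.2.1, this.2.2.1⟩)
    (fun c hc hcu S hS => kerS F hNF hc hcu S (fun k hk => by
      obtain ⟨x, hx, -, hxQ, h1, h2⟩ := hS k hk
      exact ⟨x, hx, hxQ, h1, h2⟩))
  refine ⟨m, P, ⟨?_, ?_, ?_⟩⟩
  · intro x hx
    obtain ⟨h5, h6, h7⟩ := mem_NC.mp (Finset.mem_sdiff.mp hx).1
    obtain ⟨k1, k2, k3⟩ := h1 x hx
    have key : ∀ z ∈ A, ¬ z ≤ Q → ρ (u ⊔ z) = z → ¬ z ≤ x ⊔ m x := by
      intro z hz hzQ hzz h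
      have h8 : z ≤ u ⊔ x := h.trans (sup_le le_sup_right (k2.trans le_sup_left))
      have h9 := F.pl h5 (F.off h6) hz (F.off hzQ) h8
      exact k3 (by rw [← h9, hzz]; exact h)
    refine ⟨k1, k2, key o F.oA F.oQ F.rhoo, (haj _ _).mp (h3 x hx), ?_⟩
    intro z hz
    obtain ⟨l1, l2, -, l4⟩ := mem_RC.mp hz
    exact key z l1 l2 l4
  · exact fun x hx y hy e => h2 x hx y hy e
  · exact fun x hx y hy e => h4 x hx y hy e

/-- a start for the spanned planes is a start -/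
theorem Val.toADC (V : Val A (NC A Q o) u (ZC o) (ADS A Q o u) Rep m P) :
    Val A (NC A Q o) u (ZC o) (ADC A Q o u) Rep m P :=
  ⟨fun x hx => ⟨(V.row x hx).1, (V.row x hx).2.1, (V.row x hx).2.2.1, (V.row x hx).2.2.2.1.1,
    (V.row x hx).2.2.2.2⟩, V.rinj, V.pinj⟩

/-- **All ordinary rows have different planes** (colour by colour). -/
theorem exists_pi (F : FrC A Q o u ρ) (hNF : NF A Q o u) :
    ∃ π : L → L,
      (∀ c ∈ A, c ≤ u → ∀ x ∈ A, ¬ x ≤ Q → ¬ ρ (u ⊔ x) ≤ x ⊔ c →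
        ADS A Q o u (x ⊔ c) (π (x ⊔ c))) ∧
      (∀ c ∈ A, c ≤ u → ∀ x ∈ A, ¬ x ≤ Q → ¬ ρ (u ⊔ x) ≤ x ⊔ c →
        ∀ c' ∈ A, c' ≤ u → ∀ y ∈ A, ¬ y ≤ Q → ¬ ρ (u ⊔ y) ≤ y ⊔ c' →
        π (x ⊔ c) = π (y ⊔ c') → c = c' ∧ x ⊔ c = y ⊔ c') := by
  classical
  have h1 : ∀ c : L, ∃ f : L → L, c ∈ A → c ≤ u →
      (∀ x ∈ A, ¬ x ≤ Q → ¬ ρ (u ⊔ x) ≤ x ⊔ c → ADS A Q o u (x ⊔ c) (f (x ⊔ c))) ∧
      (∀ x ∈ A, ¬ x ≤ Q → ¬ ρ (u ⊔ x) ≤ x ⊔ c → ∀ y ∈ A, ¬ y ≤ Q → ¬ ρ (u ⊔ y) ≤ y ⊔ c →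
        f (x ⊔ c) = f (y ⊔ c) → x ⊔ c = y ⊔ c) := by
    intro c
    by_cases hc : c ∈ A ∧ c ≤ u
    swap
    · exact ⟨id, fun h1 h2 => absurd ⟨h1, h2⟩ hc⟩
    set T : Finset L := (A.filter (fun x => ¬ x ≤ Q ∧ ¬ ρ (u ⊔ x) ≤ x ⊔ c)).image (· ⊔ c) with hT
    have hmT : ∀ k, k ∈ T ↔ ∃ x ∈ A, ¬ x ≤ Q ∧ ¬ ρ (u ⊔ x) ≤ x ⊔ c ∧ x ⊔ c = k := by
      intro k
      rw [hT, Finset.mem_image]
      constructor
      · rintro ⟨x, hx, e⟩
        obtain ⟨h1, h2, h3⟩ := Finset.mem_filter.mp hx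
        exact ⟨x, h1, h2, h3, e⟩
      · rintro ⟨x, h1, h2, h3, e⟩
        exact ⟨x, Finset.mem_filter.mpr ⟨h1, h2, h3⟩, e⟩
    obtain ⟨g, hg, hg'⟩ := (Finset.all_card_le_biUnion_card_iff_exists_injective
      (fun k : T => (Set.toFinite {H | ADS A Q o u k.1 H}).toFinset)).mp (by
        intro S
        have h2 := kerS F hNF hc.1 hc.2 (S.image Subtype.val) (by
          intro k hk
          obtain ⟨k', -, rfl⟩ := Finset.mem_image.mp hk
          obtain ⟨x, h3, h4, h5, h6⟩ := (hmT _).mp k'.2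
          exact ⟨x, h3, h4, h5, h6.symm⟩)
        rw [Finset.card_image_of_injective _ Subtype.val_injective, Finset.image_biUnion] at h2
        exact h2)
    refine ⟨fun k => if h : k ∈ T then g ⟨k, h⟩ else k, fun _ _ => ⟨?_, ?_⟩⟩
    · intro x hx hxQ hρ
      have hk : x ⊔ c ∈ T := (hmT _).mpr ⟨x, hx, hxQ, hρ, rfl⟩
      simp only [dif_pos hk]
      have := hg' ⟨x ⊔ c, hk⟩
      simpa using this
    · intro x hx hxQ hρ y hy hyQ hρ' e
      have hk : x ⊔ c ∈ T := (hmT _).mpr ⟨x, hx, hxQ, hρ, rfl⟩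
      have hk' : y ⊔ c ∈ T := (hmT _).mpr ⟨y, hy, hyQ, hρ', rfl⟩
      simp only [dif_pos hk, dif_pos hk'] at e
      exact congrArg Subtype.val (hg e)
  choose f hf using h1
  -- the colour of a row
  have hcol : ∀ c ∈ A, c ≤ u → ∀ x ∈ A, ¬ x ≤ Q → ∀ c' ∈ A, c' ≤ u → c' ≤ x ⊔ c → c' = c := by
    intro c hc hcu x hx hxQ c' hc' hcu' h
    by_contra hne
    have hxc : x ≠ c := fun e => F.off hxQ (e ▸ hcu)
    have e1 := line_two (F.at_ c' hc') (F.at_ c hc) hne h le_sup_right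
      (rk_line (F.at_ x hx) (F.at_ c hc) hxc) hcu' hcu F.ru
    exact F.off hxQ (e1 ▸ le_sup_left)
  set π : L → L := fun k => if h : ∃ c ∈ A, c ≤ u ∧ c ≤ k then f h.choose k else k with hπ
  have hπv : ∀ c ∈ A, c ≤ u → ∀ x ∈ A, ¬ x ≤ Q → π (x ⊔ c) = f c (x ⊔ c) := by
    intro c hc hcu x hx hxQ
    have hex : ∃ c' ∈ A, c' ≤ u ∧ c' ≤ x ⊔ c := ⟨c, hc, hcu, le_sup_right⟩
    have e : π (x ⊔ c) = f hex.choose (x ⊔ c) := by simp only [hπ, dif_pos hex]
    obtain ⟨h2, h3, h4⟩ := hex.choose_spec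
    rw [e, hcol c hc hcu x hx hxQ _ h2 h3 h4]
  refine ⟨π, ?_, ?_⟩
  · intro c hc hcu x hx hxQ hρ
    rw [hπv c hc hcu x hx hxQ]
    exact (hf c hc hcu).1 x hx hxQ hρ
  · intro c hc hcu x hx hxQ hρ c' hc' hcu' y hy hyQ hρ' e
    rw [hπv c hc hcu x hx hxQ, hπv c' hc' hcu' y hy hyQ] at e
    have h2 := (hf c hc hcu).1 x hx hxQ hρ
    have h3 := (hf c' hc' hcu').1 y hy hyQ hρ'
    have hcc : c = c' := by
      by_contra hne
      apply h2.1.2.2.1
      rw [← line_of (F.at_ c hc) (F.at_ c' hc') hne hcu hcu' F.ru]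
      refine sup_le ((le_sup_right : c ≤ x ⊔ c).trans h2.1.2.1) ?_
      rw [e]
      exact (le_sup_right : c' ≤ y ⊔ c').trans h3.1.2.1
    subst hcc
    exact ⟨rfl, (hf c hc hcu).2 x hx hxQ hρ y hy hyQ hρ' e⟩

/-- **Rank four from the cheapest starts** of the cone frames (`Q` = a largest plane over a longest
line `u`). -/
theorem crit4_of_lex (hA : ∀ a ∈ A, IsAtom a) (hrA : rk (A.sup id) = 4) (hcore : Core A)
    (ix : L → L → L → L → ℕ) (F2 : L → L → L → (L → L) → (L → L) → ℕ)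
    (hval : ∀ (Q o u : L) (ρ : L → L), FrC A Q o u ρ → NF A Q o u →
      (∀ P, rk P = 3 → u ≤ P → (A.filter (· ≤ P)).card ≤ (A.filter (· ≤ Q)).card) →
      ∀ (Rep : Finset L) (m P : L → L) (top : ℕ) (cls crw rr rrw : L → ℕ),
        LexS A (NC A Q o) u (ZC o) (ADS A Q o u) (RC A Q o u ρ) Rep m P (ix Q o u) (F2 Q o u)
          top cls crw rr rrw →
        ∃ (m' P' gg : L → L), Val A (NC A Q o) u (ZC o) (ADS A Q o u) Rep m' P' ∧
          (∀ x ∈ NC A Q o \ Rep, gg x ∈ pen A x (x ⊔ m' x) (P' x)) ∧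
          (∀ x ∈ NC A Q o \ Rep, ∀ y ∈ NC A Q o \ Rep, gg x = gg y → x = y)) : Crit4 A := by
  obtain ⟨u, Q, hu, hU, hmax, hQ, huQ, hQA, hQmax⟩ := exists_uQ hA hrA
  obtain ⟨o, ρ, F, hNF⟩ := exists_frC hA hrA hcore hu hU hmax hQ huQ hQA
  obtain ⟨m0, P0, V0⟩ := cone_mS F hNF
  have hRN : RC A Q o u ρ ⊆ NC A Q o := fun x hx => by
    obtain ⟨h1, h2, h3, -⟩ := mem_RC.mp hx
    exact mem_NC.mpr ⟨h1, h2, h3⟩
  obtain ⟨Rep, m, P, top, cls, crw, rr, rrw, S⟩ := exists_lex (FrC.frS F) hRN (ix Q o u)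
    (F2 Q o u) V0
  obtain ⟨m', P', gg, V, h1, h2⟩ := hval Q o u ρ F hNF hQmax Rep m P top cls crw rr rrw S
  exact crit4_of_sdr F S.rep V.toADC h1 h2

end

end Pool.Agent.Helper56.Lex
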