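import Pool.Agent.Helper56.BP.Trans
import Pool.Agent.Helper38.SC.Own

/-!
# Rank four from a state with good values
-/

set_option autoImplicit false
set_option linter.unusedSectionVars false

namespace Pool.Agent.Helper56.BP

open Pool.Agent.Helper28.BPack Pool.Agent.Helper61.Motz Pool.Agent.Helper38.Thick
  Pool.Agent.Helper38.SC

variable {L : Type} [Lattice L] [BoundedOrder L] [Finite L] [IsUpperModularLattice L]

/-- Everything which is known about the balanced state. -/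
structure Full [DecidableEq L] (A N : Finset L) (u : L) (Z : L → Prop) (harm adj : L → L → Prop)
    (Rep0 Rep : Finset L) (adj' : L → L → Prop) (own : L → Finset L) (pl : L → L)
    (rc : L → ℕ) : Prop where
  rep : Rep ⊆ Rep0
  adj_le : ∀ k H, adj' k H → adj k H
  adj_ge : ∀ k H, adj k H → ¬ harm k H → adj' k H
  sta : Sta A (N \ Rep) u Z Rep adj' own pl
  low : ∀ v ∈ N \ Rep, ∀ c ∈ own v, ∀ y ∈ N \ Rep, y ≤ v ⊔ c → rc v ≤ rc y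
  bal : ∀ v ∈ N \ Rep, rc v ≤ (own v).card ∧ (own v).card ≤ rc v + 1
  free : ∀ y ∈ N \ Rep, ∀ c ∈ A, c ≤ u → ¬ Z (y ⊔ c) → (∀ z ∈ Rep, ¬ z ≤ y ⊔ c) →
    (∀ z ∈ N \ Rep, c ∈ own z → z ⊔ c ≠ y ⊔ c) → ∀ H, adj' (y ⊔ c) H →
    ∃ x ∈ N \ Rep, c ∈ own x ∧ pl (x ⊔ c) = H ∧ ∀ z ∈ N \ Rep, z ≤ y ⊔ c → rc x ≤ rc z
  reps : ∀ r ∈ Rep, ∀ c ∈ A, c ≤ u → ¬ Z (r ⊔ c) → (∀ z ∈ Rep, z ≤ r ⊔ c → z = r) →
    ∀ H, adj' (r ⊔ c) H → ∃ x ∈ N \ Rep, c ∈ own x ∧ pl (x ⊔ c) = H ∧ rc x = 0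
  harmless : ∀ x ∈ N \ Rep, ∀ c ∈ own x, harm (x ⊔ c) (pl (x ⊔ c)) → rc x = 0

theorem exists_full [DecidableEq L] [DecidableRel (α := L) (· ≤ ·)] {A N Rep0 : Finset L} {u : L}
    {adj : L → L → Prop} (F : Fr A N u adj) (Z : L → Prop) (harm : L → L → Prop)
    (hRep0 : Rep0 ⊆ N) {m P : L → L}
    (hm : ∀ x ∈ N, x ∉ Rep0 → m x ∈ A ∧ m x ≤ u ∧ ¬ Z (x ⊔ m x) ∧ adj (x ⊔ m x) (P x) ∧
      ∀ z ∈ Rep0, ¬ z ≤ x ⊔ m x)
    (hminj : ∀ x ∈ N, x ∉ Rep0 → ∀ y ∈ N, y ∉ Rep0 → x ⊔ m x = y ⊔ m y → x = y)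
    (hPinj : ∀ x ∈ N, x ∉ Rep0 → ∀ y ∈ N, y ∉ Rep0 → P x = P y → x = y) :
    ∃ (Rep : Finset L) (adj' : L → L → Prop) (own : L → Finset L) (pl : L → L) (rc : L → ℕ),
      Full A N u Z harm adj Rep0 Rep adj' own pl rc := by
  obtain ⟨Rep, adj', own, pl, rc, h1, h2, h3, h4, h5, h6, h7, h8, h9⟩ :=
    trans85 F Z harm hRep0 hm hminj hPinj
  exact ⟨Rep, adj', own, pl, rc, h1, h2, h3, h4, h5, h6, h7, h8, h9⟩

/-- **Rank four from levels 1 and 2 and a value statement** (frame with a line `u`, a basis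
`b1, b2, r1, r2`; the point `q` of `u` uses the lines `q ⊔ c q`, `q ⊔ d q`). -/
theorem crit4_of_state [DecidableEq L] [DecidableRel (α := L) (· ≤ ·)] {A Rep0 : Finset L}
    {u b1 b2 r1 r2 : L} {c d m P : L → L} {adj harm : L → L → Prop} {Z : L → Prop}
    (hA : ∀ a ∈ A, IsAtom a) (hu : rk u = 2)
    (hb1 : b1 ∈ A) (hb2 : b2 ∈ A) (hb12 : b1 ⊔ b2 = u)
    (hr1 : r1 ∈ A) (hr2 : r2 ∈ A) (h4 : rk (u ⊔ r1 ⊔ r2) = 4)
    -- representatives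
    (hRep0 : ∀ s ∈ Rep0, s ∈ A ∧ ¬ s ≤ u ∧ s ≠ r1 ∧ s ≠ r2 ∧ ¬ s ≤ r1 ⊔ u ∧ ¬ s ≤ r2 ⊔ u)
    (hRP : ∀ x ∈ Rep0, ∀ y ∈ Rep0, y ≤ x ⊔ u → x = y)
    -- lines of the points of `u`
    (hI : ∀ q ∈ A, q ≤ u → q ≠ b1 → q ≠ b2 → c q ∈ A ∧ d q ∈ A ∧ rk (u ⊔ c q ⊔ d q) = 4)
    -- lines of the representatives
    (hII : ∀ q ∈ Rep0, c q ∈ A ∧ c q ≤ u ∧ d q ∈ A ∧ d q ≤ u ∧ c q ≠ d q)
    (h12 : ∀ q ∈ A, q ≤ u → q ≠ b1 → q ≠ b2 → ∀ s ∈ Rep0, (c s = q ∨ d s = q) →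
      ¬ s ≤ q ⊔ c q ∧ ¬ s ≤ q ⊔ d q)
    -- forced zero rows
    (hZ1 : ∀ q ∈ A, q ≤ u → q ≠ b1 → q ≠ b2 → Z (q ⊔ c q) ∧ Z (q ⊔ d q))
    (hZ2 : Z (b1 ⊔ r1) ∧ Z (b1 ⊔ r2) ∧ Z (b2 ⊔ r1) ∧ Z (b2 ⊔ r2))
    -- planes
    (had : ∀ k H, adj k H → rk H = 3 ∧ k ≤ H ∧ ¬ u ≤ H)
    (had1 : ∀ q ∈ A, q ≤ u → q ≠ b1 → q ≠ b2 → ∀ x ∈ A, ¬ x ≤ u →
      ¬ adj (x ⊔ q) (q ⊔ c q ⊔ d q))
    (had2 : ∀ x ∈ A, ¬ x ≤ u → ¬ adj (x ⊔ b1) (b1 ⊔ (r1 ⊔ r2)) ∧ ¬ adj (x ⊔ b2) (b2 ⊔ (r1 ⊔ r2)))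
    -- levels 1 and 2
    (hm : ∀ x ∈ A, ¬ x ≤ u → x ≠ r1 → x ≠ r2 → x ∉ Rep0 → m x ∈ A ∧ m x ≤ u ∧
      ¬ Z (x ⊔ m x) ∧ adj (x ⊔ m x) (P x) ∧ ∀ z ∈ Rep0, ¬ z ≤ x ⊔ m x)
    (hminj : ∀ x ∈ A, ¬ x ≤ u → x ≠ r1 → x ≠ r2 → x ∉ Rep0 → ∀ y ∈ A, ¬ y ≤ u → y ≠ r1 →
      y ≠ r2 → y ∉ Rep0 → x ⊔ m x = y ⊔ m y → x = y)
    (hPinj : ∀ x ∈ A, ¬ x ≤ u → x ≠ r1 → x ≠ r2 → x ∉ Rep0 → ∀ y ∈ A, ¬ y ≤ u → y ≠ r1 →
      y ≠ r2 → y ∉ Rep0 → P x = P y → x = y)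
    -- values
    (hval : ∀ (Rep : Finset L) (adj' : L → L → Prop) (own : L → Finset L) (pl : L → L)
      (rc : L → ℕ), Full A (A.filter (fun x => ¬ x ≤ u ∧ x ≠ r1 ∧ x ≠ r2)) u Z harm adj Rep0 Rep
        adj' own pl rc →
      ∃ (Ls : L → L → Finset L) (σ : L → L → ℚ),
        (∀ x ∈ A, ¬ x ≤ u → x ≠ r1 → x ≠ r2 → x ∉ Rep → ∀ a ∈ own x,
          Ls x a ⊆ pen A x (x ⊔ a) (pl (x ⊔ a)) ∧ r1 ⊔ r2 ∉ Ls x a) ∧
        (∀ a g, 0 ≤ σ a g) ∧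
        (∀ g, rk g = 2 → ∑ a ∈ A.filter (· ≤ u), σ a g ≤ 1) ∧
        (∀ x ∈ A, ¬ x ≤ u → x ≠ r1 → x ≠ r2 → x ∉ Rep →
          1 ≤ ∑ a ∈ own x, ∑ g ∈ Ls x a, σ a g)) : Crit4 A := by
  classical
  set N : Finset L := A.filter (fun x => ¬ x ≤ u ∧ x ≠ r1 ∧ x ≠ r2) with hN
  have hmN : ∀ x, x ∈ N ↔ x ∈ A ∧ ¬ x ≤ u ∧ x ≠ r1 ∧ x ≠ r2 := fun x => by simp [hN]
  have hbu1 : b1 ≤ u := hb12 ▸ le_sup_left
  have hbu2 : b2 ≤ u := hb12 ▸ le_sup_right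
  have hur1 : ¬ r1 ≤ u := by
    intro h
    have h1 : u ⊔ r1 = u := sup_eq_left.mpr h
    rw [h1] at h4
    have h2 := rk_sup_atom_le (x := u) (hA r2 hr2)
    omega
  have hur2' : ¬ r2 ≤ u ⊔ r1 := by
    intro h
    have h1 : u ⊔ r1 ⊔ r2 = u ⊔ r1 := sup_eq_left.mpr h
    rw [h1] at h4
    have h2 := rk_sup_atom_le (x := u) (hA r1 hr1)
    omega
  have hur2 : ¬ r2 ≤ u := fun h => hur2' (h.trans le_sup_left)
  have hur1' : ¬ r1 ≤ u ⊔ r2 := by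
    intro h
    have h1 : u ⊔ r1 ⊔ r2 = u ⊔ r2 := by
      apply le_antisymm
      · exact sup_le (sup_le le_sup_left h) le_sup_right
      · exact sup_le (le_sup_left.trans le_sup_left) le_sup_right
    rw [h1] at h4
    have h2 := rk_sup_atom_le (x := u) (hA r2 hr2)
    omega
  -- rows through a point of `u`
  have hrw : ∀ x ∈ A, ¬ x ≤ u → ∀ q ∈ A, q ≤ u → ∀ z ∈ A, ¬ z ≤ u → z ≤ x ⊔ q →
      x ⊔ q = q ⊔ z := by
    intro x hx hxu q hq hqu z hz hzu h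
    have hxq : x ≠ q := fun e => hxu (e ▸ hqu)
    have hqz : q ≠ z := fun e => hzu (e ▸ hqu)
    exact (line_of (hA q hq) (hA z hz) hqz le_sup_right h
      (rk_line (hA x hx) (hA q hq) hxq)).symm
  have F : Fr A N u adj := ⟨hA, hu, fun v hv => ((hmN v).mp hv).1,
    fun v hv => ((hmN v).mp hv).2.1, had⟩
  have hR0N : Rep0 ⊆ N := fun s hs => by
    obtain ⟨h1, h2, h3, h5, -⟩ := hRep0 s hs
    exact (hmN s).mpr ⟨h1, h2, h3, h5⟩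
  obtain ⟨Rep, adj', own, pl, rc, S⟩ := exists_full F Z harm hR0N
    (fun x hx hx0 => by
      obtain ⟨h1, h2, h3, h5⟩ := (hmN x).mp hx
      exact hm x h1 h2 h3 h5 hx0)
    (fun x hx hx0 y hy hy0 => by
      obtain ⟨h1, h2, h3, h5⟩ := (hmN x).mp hx
      obtain ⟨k1, k2, k3, k5⟩ := (hmN y).mp hy
      exact hminj x h1 h2 h3 h5 hx0 y k1 k2 k3 k5 hy0)
    (fun x hx hx0 y hy hy0 => by
      obtain ⟨h1, h2, h3, h5⟩ := (hmN x).mp hx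
      obtain ⟨k1, k2, k3, k5⟩ := (hmN y).mp hy
      exact hPinj x h1 h2 h3 h5 hx0 y k1 k2 k3 k5 hy0)
  obtain ⟨Ls, σ, hLs, hσ0, hσ1, hv⟩ := hval Rep adj' own pl rc S
  set Rp : Finset L := insert r1 (insert r2 Rep) with hRp
  have hmRp : ∀ x, x ∈ Rp ↔ x = r1 ∨ x = r2 ∨ x ∈ Rep := fun x => by simp [hRp]
  have hus : ∀ x ∈ A, ¬ x ≤ u → x ∉ Rp → x ≠ r1 ∧ x ≠ r2 ∧ x ∉ Rep ∧ x ∈ N \ Rep := by
    intro x hx hxu hxR
    rw [hmRp] at hxR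
    push Not at hxR
    exact ⟨hxR.1, hxR.2.1, hxR.2.2, Finset.mem_sdiff.mpr
      ⟨(hmN x).mpr ⟨hx, hxu, hxR.1, hxR.2.1⟩, hxR.2.2⟩⟩
  have hT := S.sta
  refine crit4_of_own (A := A) (Rp := Rp) (u := u) (b1 := b1) (b2 := b2) (r1 := r1) (r2 := r2)
    (c := c) (d := d) (C := own) (HH := fun a x => pl (x ⊔ a)) (Ls := Ls) (σ := σ)
    hA hu hb1 hb2 hb12 ((hmRp _).mpr (Or.inl rfl)) ((hmRp _).mpr (Or.inr (Or.inl rfl))) h4
    ?_ ?_ hI ?_ ?_ ?_ ?_ ?_ ?_ ?_ ?_ ?_ ?_ hσ0 hσ1 ?_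
  · intro x hx
    rcases (hmRp x).mp hx with h | h | h
    · rw [h]
      exact ⟨hr1, hur1⟩
    · rw [h]
      exact ⟨hr2, hur2⟩
    · obtain ⟨h1, h2, -⟩ := hRep0 x (S.rep h)
      exact ⟨h1, h2⟩
  · -- one representative in every plane over `u`
    have hback : ∀ s ∈ A, ¬ s ≤ u → ∀ r ∈ A, r ≤ s ⊔ u → ¬ r ≤ u → s ≤ r ⊔ u := by
      intro s hs hsu r hr h hru
      have h1 : rk (s ⊔ u) = 3 := by rw [sup_comm, rk_sup_atom (hA s hs) hsu, hu]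
      have h2 : rk (r ⊔ u) = 3 := by rw [sup_comm, rk_sup_atom (hA r hr) hru, hu]
      have h3 : r ⊔ u = s ⊔ u := eq_of_le_of_rk (sup_le h le_sup_right) (by omega)
      rw [h3]
      exact le_sup_left
    intro x hx y hy h
    rcases (hmRp x).mp hx with e | e | e <;> rcases (hmRp y).mp hy with f | f | f
    · rw [e, f]
    · rw [e, f, sup_comm] at h
      exact absurd h hur2'
    · rw [e] at h
      exact absurd h (hRep0 y (S.rep f)).2.2.2.2.1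
    · rw [e, f, sup_comm] at h
      exact absurd h hur1'
    · rw [e, f]
    · rw [e] at h
      exact absurd h (hRep0 y (S.rep f)).2.2.2.2.2
    · rw [f] at h
      obtain ⟨h1, h2, h3, h5, h6, h7⟩ := hRep0 x (S.rep e)
      exact absurd (hback x h1 h2 r1 hr1 h hur1) h6
    · rw [f] at h
      obtain ⟨h1, h2, h3, h5, h6, h7⟩ := hRep0 x (S.rep e)
      exact absurd (hback x h1 h2 r2 hr2 h hur2) h7
    · exact hRP x (S.rep e) y (S.rep f) h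
  · intro q hq n1 n2
    have hq' : q ∈ Rep := by
      rcases (hmRp q).mp hq with h | h | h
      · exact absurd h n1
      · exact absurd h n2
      · exact h
    exact hII q (S.rep hq')
  · intro q hq hqu n1 n2 s hs m1 m2 hcs
    have hs' : s ∈ Rep := by
      rcases (hmRp s).mp hs with h | h | h
      · exact absurd h m1
      · exact absurd h m2
      · exact h
    exact h12 q hq hqu n1 n2 s (S.rep hs') hcs
  · intro x hx hxu hxR a ha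
    obtain ⟨-, -, -, hxN⟩ := hus x hx hxu hxR
    have h1 := hT.ownA x hxN a ha
    have h2 := hT.pln x hxN a ha
    exact ⟨h1.1, h1.2, h2.2.1, h2.2.2.1, h2.2.2.2⟩
  · intro a x hx hxu hxR ha y hy hyu hyR hay e
    exact hT.uniq x (hus x hx hxu hxR).2.2.2 y (hus y hy hyu hyR).2.2.2 a ha hay e
  · intro q hq hqu n1 n2 x hx hxu hxR hqx
    have hxN := (hus x hx hxu hxR).2.2.2
    have hnz := hT.nz x hxN q hqx
    obtain ⟨i1, i2, i3⟩ := hI q hq hqu n1 n2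
    have i4 : ¬ c q ≤ u := by
      intro h
      have h1 : u ⊔ c q = u := sup_eq_left.mpr h
      rw [h1] at i3
      have h2 := rk_sup_atom_le (x := u) (hA (d q) i2)
      omega
    have i5 : ¬ d q ≤ u := by
      intro h
      have h1 : u ⊔ c q ⊔ d q = u ⊔ c q := sup_eq_left.mpr (h.trans le_sup_left)
      rw [h1] at i3
      have h2 := rk_sup_atom_le (x := u) (hA (c q) i1)
      omega
    have j1 : ∀ z ∈ A, ¬ z ≤ u → x ≤ q ⊔ z → x ⊔ q = q ⊔ z := by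
      intro z hz hzu h
      have hqz : q ≠ z := fun e => hzu (e ▸ hqu)
      have hxq : x ≠ q := fun e => hxu (e ▸ hqu)
      exact line_of (hA x hx) (hA q hq) hxq h le_sup_left (rk_line (hA q hq) (hA z hz) hqz)
    refine ⟨fun h => ?_, fun h => ?_, fun h => ?_⟩
    · exact hnz (by rw [j1 _ i1 i4 h]; exact (hZ1 q hq hqu n1 n2).1)
    · exact hnz (by rw [j1 _ i2 i5 h]; exact (hZ1 q hq hqu n1 n2).2)
    · have h1 := S.adj_le _ _ (hT.pln x hxN q hqx).1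
      have h2 : pl (x ⊔ q) = q ⊔ c q ⊔ d q := h
      rw [h2] at h1
      exact had1 q hq hqu n1 n2 x hx hxu h1
  · intro s hs m1 m2 x hx hxu hxR
    have hs' : s ∈ Rep := by
      rcases (hmRp s).mp hs with h | h | h
      · exact absurd h m1
      · exact absurd h m2
      · exact h
    have hxN := (hus x hx hxu hxR).2.2.2
    exact ⟨fun h => hT.nrep x hxN _ h s hs', fun h => hT.nrep x hxN _ h s hs'⟩
  · intro x hx hxu hxR b hb hbx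
    have hxN := (hus x hx hxu hxR).2.2.2
    have hnz := hT.nz x hxN b hbx
    have h1 := S.adj_le _ _ (hT.pln x hxN b hbx).1
    rcases hb with e | e
    · rw [e] at hnz h1 ⊢
      refine ⟨fun h => ?_, fun h => ?_, fun h => ?_⟩
      · exact hnz (by rw [hrw x hx hxu b1 hb1 hbu1 r1 hr1 hur1 h]; exact hZ2.1)
      · exact hnz (by rw [hrw x hx hxu b1 hb1 hbu1 r2 hr2 hur2 h]; exact hZ2.2.1)
      · have h2 : pl (x ⊔ b1) = b1 ⊔ (r1 ⊔ r2) := h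
        rw [h2] at h1
        exact (had2 x hx hxu).1 h1
    · rw [e] at hnz h1 ⊢
      refine ⟨fun h => ?_, fun h => ?_, fun h => ?_⟩
      · exact hnz (by rw [hrw x hx hxu b2 hb2 hbu2 r1 hr1 hur1 h]; exact hZ2.2.2.1)
      · exact hnz (by rw [hrw x hx hxu b2 hb2 hbu2 r2 hr2 hur2 h]; exact hZ2.2.2.2)
      · have h2 : pl (x ⊔ b2) = b2 ⊔ (r1 ⊔ r2) := h
        rw [h2] at h1
        exact (had2 x hx hxu).2 h1
  · intro a x hx hxu hxR ha y hy hyu hyR hay e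
    have h1 := hT.inj x (hus x hx hxu hxR).2.2.2 a ha y (hus y hy hyu hyR).2.2.2 a hay e
    rw [h1.1]
  · intro x hx hxu hxR a ha
    obtain ⟨n1, n2, n3, -⟩ := hus x hx hxu hxR
    exact (hLs x hx hxu n1 n2 n3 a ha).1
  · intro x hx hxu hxR a ha
    obtain ⟨n1, n2, n3, -⟩ := hus x hx hxu hxR
    exact (hLs x hx hxu n1 n2 n3 a ha).2
  · intro x hx hxu hxR
    obtain ⟨n1, n2, n3, -⟩ := hus x hx hxu hxR
    exact hv x hx hxu n1 n2 n3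

end Pool.Agent.Helper56.BP
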