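import Mathlib

/-!
# Balanced ownership of rows

Rows `k : K` with sets `inc k` of points; each row gets an owner among its points. If there is an
ownership in which every point owns a row, there is one with classes `cls` such that every point of
class `c` owns `c` or `c + 1` rows and the owner of a row has the smallest class in the row.
-/

set_option autoImplicit false

set_option linter.unusedSectionVars false

open Finset

namespace Pool.Agent.Helper56.BP

variable {V K : Type*} [Fintype V] [Fintype K] [DecidableEq V] [DecidableEq K]

/-- the number of rows owned by `z` -/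
def cnt (own : K → V) (z : V) : ℕ := (univ.filter fun k => own k = z).card

/-- the owner of a row containing the next point -/
inductive Path (inc : K → Finset V) (own : K → V) : ℕ → V → V → Prop
  | nil (z : V) : Path inc own 0 z z
  | cons {n : ℕ} {y z : V} (k : K) (v : V) : own k = y → v ∈ inc k → Path inc own n v z →
      Path inc own (n + 1) y z

/-- admissible ownerships -/
def Adm (inc : K → Finset V) (own : K → V) : Prop :=
  (∀ k, own k ∈ inc k) ∧ ∀ z, 1 ≤ cnt own z

/-- the potential -/
def pot (own : K → V) : ℕ := ∑ z, cnt own z ^ 2

lemma cnt_update_of_ne (own : K → V) (k : K) (v z : V) (h1 : z ≠ v) (h2 : z ≠ own k) :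
    cnt (Function.update own k v) z = cnt own z := by
  unfold cnt
  congr 1
  ext j
  simp only [mem_filter, mem_univ, true_and]
  by_cases h : j = k
  · subst h
    rw [Function.update_self]
    exact ⟨fun h => absurd h.symm h1, fun h => absurd h.symm h2⟩
  · rw [Function.update_of_ne h]

lemma cnt_update_new (own : K → V) (k : K) (v : V) (h : v ≠ own k) :
    cnt (Function.update own k v) v = cnt own v + 1 := by
  unfold cnt
  have h1 : (univ.filter fun j => Function.update own k v j = v) =
      insert k (univ.filter fun j => own j = v) := by
    ext j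
    simp only [mem_filter, mem_univ, true_and, mem_insert]
    by_cases hj : j = k
    · subst hj
      simp
    · rw [Function.update_of_ne hj]
      simp [hj]
  rw [h1, card_insert_of_notMem]
  simp only [mem_filter, mem_univ, true_and]
  exact fun h2 => h h2.symm

lemma cnt_update_old (own : K → V) (k : K) (v : V) (h : v ≠ own k) :
    cnt (Function.update own k v) (own k) + 1 = cnt own (own k) := by
  unfold cnt
  have h1 : (univ.filter fun j => own j = own k) =
      insert k (univ.filter fun j => Function.update own k v j = own k) := by
    ext j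
    simp only [mem_filter, mem_univ, true_and, mem_insert]
    by_cases hj : j = k
    · subst hj
      simp
    · rw [Function.update_of_ne hj]
      simp [hj]
  rw [h1, card_insert_of_notMem]
  simp only [mem_filter, mem_univ, true_and, Function.update_self]
  exact h

lemma pot_update (own : K → V) (k : K) (v : V) (h : v ≠ own k) :
    pot (Function.update own k v) + 2 * cnt own (own k) = pot own + 2 * cnt own v + 2 := by
  unfold pot
  have hne : own k ≠ v := fun e => h e.symm
  rw [← add_sum_erase univ _ (mem_univ v), ← add_sum_erase (univ.erase v) _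
    (mem_erase.2 ⟨hne, mem_univ (own k)⟩), ← add_sum_erase univ (fun z => cnt own z ^ 2) (mem_univ v),
    ← add_sum_erase (univ.erase v) (fun z => cnt own z ^ 2) (mem_erase.2 ⟨hne, mem_univ (own k)⟩)]
  have h1 : ∑ z ∈ (univ.erase v).erase (own k), cnt (Function.update own k v) z ^ 2 =
      ∑ z ∈ (univ.erase v).erase (own k), cnt own z ^ 2 := by
    refine sum_congr rfl fun z hz => ?_
    rw [mem_erase, mem_erase] at hz
    rw [cnt_update_of_ne own k v z hz.2.1 hz.1]
  rw [h1, cnt_update_new own k v h]
  have h2 := cnt_update_old own k v h
  rw [← h2]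
  ring

lemma adm_update {inc : K → Finset V} {own : K → V} (ha : Adm inc own) {k : K} {v : V}
    (hv : v ∈ inc k) (h : v ≠ own k) (h2 : 2 ≤ cnt own (own k)) :
    Adm inc (Function.update own k v) := by
  refine ⟨fun j => ?_, fun z => ?_⟩
  · by_cases hj : j = k
    · subst hj
      rw [Function.update_self]
      exact hv
    · rw [Function.update_of_ne hj]
      exact ha.1 j
  · by_cases h3 : z = v
    · subst h3
      rw [cnt_update_new own k z h]
      omega
    · by_cases h4 : z = own k
      · subst h4
        have := cnt_update_old own k v h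
        omega
      · rw [cnt_update_of_ne own k v z h3 h4]
        exact ha.2 z

lemma path_update {inc : K → Finset V} {own : K → V} {k : K} {w : V} {m : ℕ} {v z : V}
    (h : Path inc own m v z) :
    (∃ j ≤ m, Path inc own j (own k) z) ∨ Path inc (Function.update own k w) m v z := by
  induction h with
  | nil z => exact Or.inr (Path.nil z)
  | @cons n y z k' x hk hx h ih =>
    rcases ih with ⟨j, hj, hp⟩ | hp
    · exact Or.inl ⟨j, by omega, hp⟩
    · by_cases hy : y = own k
      · subst hy
        exact Or.inl ⟨n + 1, le_rfl, Path.cons k' x hk hx h⟩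
      · refine Or.inr (Path.cons k' x ?_ hx hp)
        rw [Function.update_of_ne, hk]
        rintro rfl
        exact hy hk.symm

/-- In a minimiser of the potential no path leads from a point to a point which owns fewer rows by
two or more. -/
theorem no_path {inc : K → Finset V} (own₀ : K → V) (h₀ : Adm inc own₀) :
    ∃ own : K → V, Adm inc own ∧ ∀ (n : ℕ) (y z : V), Path inc own n y z →
      cnt own y ≤ cnt own z + 1 := by
  classical
  -- a minimal value of the potential
  have hex : ∃ P : ℕ, ∃ own : K → V, Adm inc own ∧ pot own = P := ⟨_, own₀, h₀, rfl⟩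
  set P := Nat.find hex with hP
  obtain ⟨own₁, h₁, hp₁⟩ := Nat.find_spec hex
  have hmin : ∀ own : K → V, Adm inc own → P ≤ pot own := fun own h =>
    Nat.find_min' hex ⟨own, h, rfl⟩
  by_contra hcon
  push Not at hcon
  -- bad triples for minimisers
  have hbad : ∃ n : ℕ, ∃ (own : K → V) (y z : V), Adm inc own ∧ pot own = P ∧
      Path inc own n y z ∧ cnt own z + 1 < cnt own y := by
    obtain ⟨n, y, z, hpath, hc⟩ := hcon own₁ h₁
    exact ⟨n, own₁, y, z, h₁, hp₁, hpath, hc⟩
  obtain ⟨own, y, z, ha, hpo, hpath, hc⟩ := Nat.find_spec hbad
  have hmn : ∀ m < Nat.find hbad, ∀ (own : K → V) (y z : V), Adm inc own → pot own = P →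
      Path inc own m y z → cnt own y ≤ cnt own z + 1 := by
    intro m hm own y z h1 h2 h3
    by_contra h4
    exact Nat.find_min hbad hm ⟨own, y, z, h1, h2, h3, not_le.1 h4⟩
  generalize hn : Nat.find hbad = n at *
  cases hpath with
  | nil => omega
  | cons k v hk hv hp =>
    rename_i m
    subst hk
    by_cases hvy : v = own k
    · -- a loop: shorter path
      subst hvy
      have := hmn m (by omega) own _ z ha hpo hp
      omega
    · rcases Nat.eq_zero_or_pos m with hm | hm
      · subst hm
        have hvz : v = z := by
          cases hp
          rfl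
        subst hvz
        have h1 := pot_update own k v hvy
        have h2 := hmin _ (adm_update ha hv hvy (by omega))
        omega
      · have h1 := hmn 1 (by omega) own (own k) v ha hpo (Path.cons k v rfl hv (Path.nil v))
        have h2 := hmn m (by omega) own v z ha hpo hp
        have h3 := pot_update own k v hvy
        have h4 : Adm inc (Function.update own k v) := adm_update ha hv hvy (by omega)
        have h5 : pot (Function.update own k v) = P := by
          have := hmin _ h4
          omega
        rcases path_update (k := k) (w := v) hp with ⟨j, hj, hj2⟩ | hp2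
        · have := hmn j (by omega) own (own k) z ha hpo hj2
          omega
        · have h6 := hmn m (by omega) _ v z h4 h5 hp2
          rw [cnt_update_new own k v hvy] at h6
          have hzv : z ≠ v := by
            rintro rfl
            omega
          have hzk : z ≠ own k := by
            rintro rfl
            omega
          rw [cnt_update_of_ne own k v z hzv hzk] at h6
          omega

/-- **Balanced ownership.** -/
theorem balanced {inc : K → Finset V} (own₀ : K → V) (h₀ : ∀ k, own₀ k ∈ inc k)
    (h₁ : ∀ z, ∃ k, own₀ k = z) :
    ∃ (own : K → V) (cls : V → ℕ), (∀ k, own k ∈ inc k) ∧ (∀ z, 1 ≤ cls z) ∧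
      (∀ z, cls z ≤ (univ.filter fun k => own k = z).card ∧
        (univ.filter fun k => own k = z).card ≤ cls z + 1) ∧
      ∀ k, ∀ z ∈ inc k, cls (own k) ≤ cls z := by
  classical
  have hadm : Adm inc own₀ := by
    refine ⟨h₀, fun z => ?_⟩
    obtain ⟨k, hk⟩ := h₁ z
    exact card_pos.2 ⟨k, by simp [hk]⟩
  obtain ⟨own, ha, hno⟩ := no_path own₀ hadm
  have hne : ∀ z, {c : ℕ | ∃ n x, Path inc own n z x ∧ cnt own x = c}.Nonempty := fun z =>
    ⟨_, 0, z, Path.nil z, rfl⟩
  set cls : V → ℕ := fun z => sInf {c : ℕ | ∃ n x, Path inc own n z x ∧ cnt own x = c} with hcls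
  have hmem : ∀ z, ∃ n x, Path inc own n z x ∧ cnt own x = cls z := fun z => Nat.sInf_mem (hne z)
  have hle : ∀ z n x, Path inc own n z x → cls z ≤ cnt own x := fun z n x h =>
    Nat.sInf_le ⟨n, x, h, rfl⟩
  refine ⟨own, cls, ha.1, fun z => ?_, fun z => ⟨hle z 0 z (Path.nil z), ?_⟩, fun k z hz => ?_⟩
  · obtain ⟨n, x, -, hx⟩ := hmem z
    rw [← hx]
    exact ha.2 x
  · obtain ⟨n, x, hp, hx⟩ := hmem z
    have := hno n z x hp
    rw [hx] at this
    exact this
  · obtain ⟨n, x, hp, hx⟩ := hmem z
    rw [← hx]
    exact hle (own k) (n + 1) x (Path.cons k z rfl hz hp)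

end Pool.Agent.Helper56.BP
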