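import Pool.Agent.Helper26.PC.Main

/-!
# Rank four data over a large plane: the sharp constant
-/

set_option autoImplicit false
set_option linter.unusedSectionVars false

namespace Pool.Agent.Helper56.Window

open Finset Pool.Agent.Helper28.BPack Pool.Agent.Helper61.Motz Pool.Agent.Helper26.PC
open scoped Classical

/-- The arithmetic of `crit4_planeK`. -/
theorem numK {N n s κ u τ : ℝ} (hu0 : 0 < u) (hu1 : u ≤ 1) (hκ : κ * u = 1)
    (hN : 1 ≤ 0.0005 * u ^ 2 * N) (hs : s ≤ 0.001 * u ^ 2 * N) (hs0 : 0 ≤ s) (hn0 : 0 ≤ n)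
    (hn : (1 + u) * n ^ 2 ≤ N ^ 3) (hτ0 : 0 ≤ τ) (hτ : τ ^ 2 ≤ (1 + 0.05 * u) * N) :
    ((1 + 0.05 * u) * N + 80 * κ * s) * (N ^ 2 + n * (N * τ) + 0.05 * u * N * N ^ 2) ≤
      (N ^ 2 - N * (1 + 2 * s + 20 * κ * s)) ^ 2 := by
  have hNpos : 0 < N := by
    by_contra hcon
    push Not at hcon
    have : 0.0005 * u ^ 2 * N ≤ 0 := mul_nonpos_of_nonneg_of_nonpos (by positivity) hcon
    linarith
  have hκ0 : 0 < κ := by
    by_contra hcon
    push Not at hcon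
    have : κ * u ≤ 0 := mul_nonpos_of_nonpos_of_nonneg hcon hu0.le
    linarith
  -- κ s ≤ .001 u N
  have h1 : κ * s ≤ 0.001 * u * N := by
    calc κ * s ≤ κ * (0.001 * u ^ 2 * N) := mul_le_mul_of_nonneg_left hs hκ0.le
      _ = (κ * u) * (0.001 * u * N) := by ring
      _ = 0.001 * u * N := by rw [hκ, one_mul]
  have h1' : 0 ≤ κ * s := mul_nonneg hκ0.le hs0
  have huN : u ^ 2 * N ≤ u * N := by
    have : u ^ 2 ≤ u := by nlinarith
    exact mul_le_mul_of_nonneg_right this hNpos.le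
  -- n τ ≤ N ^ 2 (1 - u / 4)
  have h2 : n * τ ≤ N ^ 2 * (1 - 0.25 * u) := by
    have h3 : (n * τ) ^ 2 ≤ (N ^ 2 * (1 - 0.25 * u)) ^ 2 := by
      have h4 : (n * τ) ^ 2 ≤ n ^ 2 * ((1 + 0.05 * u) * N) := by
        rw [mul_pow]
        exact mul_le_mul_of_nonneg_left hτ (sq_nonneg n)
      have h5 : (1 + u) * (n ^ 2 * ((1 + 0.05 * u) * N)) ≤ N ^ 3 * ((1 + 0.05 * u) * N) := by
        have := mul_le_mul_of_nonneg_right hn (show 0 ≤ (1 + 0.05 * u) * N by positivity)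
        linarith
      have h6 : N ^ 3 * ((1 + 0.05 * u) * N) ≤ (1 + u) * (N ^ 2 * (1 - 0.25 * u)) ^ 2 := by
        have h7 : 1 + 0.05 * u ≤ (1 + u) * (1 - 0.25 * u) ^ 2 := by
          have h8 : 0 ≤ u * (0.45 - 0.4375 * u + 0.0625 * u ^ 2) :=
            mul_nonneg hu0.le (by nlinarith)
          nlinarith
        have h8 : 0 ≤ N ^ 4 := by positivity
        have h9 := mul_le_mul_of_nonneg_left h7 h8
        calc N ^ 3 * ((1 + 0.05 * u) * N) = N ^ 4 * (1 + 0.05 * u) := by ring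
          _ ≤ N ^ 4 * ((1 + u) * (1 - 0.25 * u) ^ 2) := h9
          _ = (1 + u) * (N ^ 2 * (1 - 0.25 * u)) ^ 2 := by ring
      have h10 : (1 + u) * (n * τ) ^ 2 ≤ (1 + u) * (N ^ 2 * (1 - 0.25 * u)) ^ 2 :=
        le_trans (le_trans (mul_le_mul_of_nonneg_left h4 (by linarith)) h5) h6
      exact le_of_mul_le_mul_left h10 (by linarith)
    exact (pow_le_pow_iff_left₀ (mul_nonneg hn0 hτ0)
      (mul_nonneg (sq_nonneg N) (by linarith)) two_ne_zero).mp h3
  -- the left side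
  have h3 : (1 + 0.05 * u) * N + 80 * κ * s ≤ N * (1 + 0.13 * u) := by nlinarith
  have h4 : N ^ 2 + n * (N * τ) + 0.05 * u * N * N ^ 2 ≤ N ^ 3 * (1 - 0.1995 * u) := by
    have h5 : n * (N * τ) ≤ N ^ 3 * (1 - 0.25 * u) := by
      have := mul_le_mul_of_nonneg_left h2 hNpos.le
      calc n * (N * τ) = N * (n * τ) := by ring
        _ ≤ N * (N ^ 2 * (1 - 0.25 * u)) := this
        _ = N ^ 3 * (1 - 0.25 * u) := by ring
    have h6 : N ^ 2 ≤ 0.0005 * u * N ^ 3 := by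
      have h7 : (1 : ℝ) ≤ 0.0005 * u * N := by linarith
      calc N ^ 2 = 1 * N ^ 2 := by ring
        _ ≤ (0.0005 * u * N) * N ^ 2 := mul_le_mul_of_nonneg_right h7 (sq_nonneg N)
        _ = 0.0005 * u * N ^ 3 := by ring
    nlinarith
  have h5 : 0 ≤ N ^ 2 + n * (N * τ) + 0.05 * u * N * N ^ 2 := by positivity
  have h6 : ((1 + 0.05 * u) * N + 80 * κ * s) * (N ^ 2 + n * (N * τ) + 0.05 * u * N * N ^ 2) ≤
      (N * (1 + 0.13 * u)) * (N ^ 3 * (1 - 0.1995 * u)) :=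
    mul_le_mul h3 h4 h5 (by positivity)
  have h7 : (N * (1 + 0.13 * u)) * (N ^ 3 * (1 - 0.1995 * u)) ≤ (N ^ 2 * (1 - 0.0225 * u)) ^ 2 := by
    have h8 : (1 + 0.13 * u) * (1 - 0.1995 * u) ≤ (1 - 0.0225 * u) ^ 2 := by nlinarith
    have h9 : 0 ≤ N ^ 4 := by positivity
    have h10 := mul_le_mul_of_nonneg_left h8 h9
    calc (N * (1 + 0.13 * u)) * (N ^ 3 * (1 - 0.1995 * u))
        = N ^ 4 * ((1 + 0.13 * u) * (1 - 0.1995 * u)) := by ring
      _ ≤ N ^ 4 * (1 - 0.0225 * u) ^ 2 := h10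
      _ = (N ^ 2 * (1 - 0.0225 * u)) ^ 2 := by ring
  have h8 : N ^ 2 * (1 - 0.0225 * u) ≤ N ^ 2 - N * (1 + 2 * s + 20 * κ * s) := by
    have h9 : 1 + 2 * s + 20 * κ * s ≤ 0.0225 * u * N := by nlinarith
    have h10 := mul_le_mul_of_nonneg_left h9 hNpos.le
    nlinarith
  have h9 : 0 ≤ N ^ 2 * (1 - 0.0225 * u) := mul_nonneg (sq_nonneg N) (by linarith)
  exact h6.trans (h7.trans (pow_le_pow_left₀ h9 h8 2))

variable {L : Type} [Lattice L] [BoundedOrder L] [Finite L] [IsUpperModularLattice L]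

/-- **(C_k)**: some plane `Q` has `N` points, no line has more than `N / (1000 k ^ 2)` points and
`(k + 1) n ^ 2 ≤ k N ^ 3`. -/
theorem crit4_planeK {A : Finset L} (hA : ∀ a ∈ A, IsAtom a) (hr : rk (A.sup id) = 4) {Q : L}
    (hQ : rk Q = 3) {k s : ℕ} (hk : 1 ≤ k)
    (hs : ∀ g, rk g = 2 → (A.filter (· ≤ g)).card ≤ s)
    (hsN : 1000 * k ^ 2 * s ≤ (A.filter (· ≤ Q)).card)
    (hn : (k + 1) * A.card ^ 2 ≤ k * (A.filter (· ≤ Q)).card ^ 3) : Crit4 A := by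
  have hs' : ∀ g, rk g = 2 → (pts A g).card ≤ s := hs
  have hsN' : 1000 * k ^ 2 * s ≤ (pts A Q).card := hsN
  have hn' : (k + 1) * A.card ^ 2 ≤ k * (pts A Q).card ^ 3 := hn
  -- two points
  have hA2 : 1 < A.card := by
    by_contra hcon
    have h1 : A.card ≤ 1 := by omega
    have h2 : rk (A.sup id) ≤ 1 := by
      rcases A.eq_empty_or_nonempty with h | ⟨a, ha⟩
      · rw [h, Finset.sup_empty, rk_bot]
        omega
      · have h3 : A.sup id ≤ a := Finset.sup_le fun x hx =>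
          le_of_eq (Finset.card_le_one.mp h1 x hx a ha)
        have h4 := rk_mono h3
        rw [rk_atom (hA a ha)] at h4
        exact h4
    omega
  obtain ⟨a, ha, b, hb, hab⟩ := Finset.one_lt_card.mp hA2
  have hs2 : 2 ≤ s := by
    have h1 := hs' (a ⊔ b) (rk_line (hA a ha) (hA b hb) hab)
    have h2 : 2 ≤ (pts A (a ⊔ b)).card := by
      have h3 : ({a, b} : Finset L) ⊆ pts A (a ⊔ b) := by
        intro x hx
        rw [Finset.mem_insert, Finset.mem_singleton] at hx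
        rcases hx with rfl | rfl
        · exact mem_pts.mpr ⟨ha, le_sup_left⟩
        · exact mem_pts.mpr ⟨hb, le_sup_right⟩
      have h4 := Finset.card_le_card h3
      rw [Finset.card_pair hab] at h4
      exact h4
    omega
  set N0 : ℕ := (pts A Q).card with hN0
  have hk2 : 1 ≤ k ^ 2 := Nat.one_le_pow _ _ hk
  have hsN0 : s < N0 := by nlinarith
  set κ : ℝ := (k : ℝ) with hκ
  have hκ1 : 1 ≤ κ := by rw [hκ]; exact_mod_cast hk
  have hκ0 : 0 < κ := by linarith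
  set u : ℝ := 1 / κ with hu
  have hu0 : 0 < u := by positivity
  have hu1 : u ≤ 1 := by
    rw [hu, div_le_one hκ0]
    exact hκ1
  have hκu : κ * u = 1 := by
    rw [hu]
    field_simp
  set N : ℝ := (N0 : ℝ) with hN
  set n : ℝ := (A.card : ℝ) with hnR
  have hs2R : (2 : ℝ) ≤ s := by exact_mod_cast hs2
  have hsR : (1000 : ℝ) * κ ^ 2 * s ≤ N := by
    rw [hN, hκ]
    exact_mod_cast hsN'
  have hnR' : (κ + 1) * n ^ 2 ≤ κ * N ^ 3 := by
    rw [hN, hnR, hκ]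
    exact_mod_cast hn'
  have hNpos : 0 < N := by
    have : 0 < (1000 : ℝ) * κ ^ 2 * s := by positivity
    linarith
  -- the forms with `u`
  have f1 : (s : ℝ) ≤ 0.001 * u ^ 2 * N := by
    have h1 := mul_le_mul_of_nonneg_left hsR (show 0 ≤ u ^ 2 by positivity)
    have h2 : u ^ 2 * (1000 * κ ^ 2 * (s : ℝ)) = 1000 * (s : ℝ) := by
      calc u ^ 2 * (1000 * κ ^ 2 * (s : ℝ)) = (κ * u) ^ 2 * (1000 * (s : ℝ)) := by ring
        _ = 1000 * (s : ℝ) := by rw [hκu]; ring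
    rw [h2] at h1
    linarith
  have f2 : 1 ≤ 0.0005 * u ^ 2 * N := by linarith
  have f3 : (1 + u) * n ^ 2 ≤ N ^ 3 := by
    have h1 := mul_le_mul_of_nonneg_left hnR' hu0.le
    calc (1 + u) * n ^ 2 = (κ * u + u) * n ^ 2 := by rw [hκu]
      _ = u * ((κ + 1) * n ^ 2) := by ring
      _ ≤ u * (κ * N ^ 3) := h1
      _ = (κ * u) * N ^ 3 := by ring
      _ = N ^ 3 := by rw [hκu, one_mul]
  -- the threshold
  set c : ℝ := 1 + 0.05 * u with hc
  have hcN : 0 ≤ c * N := by positivity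
  set τ : ℕ := Nat.sqrt ⌊c * N⌋₊ with hτ
  have hτ1 : (τ : ℝ) ^ 2 ≤ c * N := by
    have h1 : τ * τ ≤ ⌊c * N⌋₊ := Nat.sqrt_le _
    have h2 : ((τ * τ : ℕ) : ℝ) ≤ (⌊c * N⌋₊ : ℝ) := by exact_mod_cast h1
    have h3 := Nat.floor_le hcN
    push_cast at h2
    nlinarith
  have hτ2 : c * N ≤ ((τ : ℝ) + 1) ^ 2 := by
    have h1 : ⌊c * N⌋₊ < (τ + 1) * (τ + 1) := Nat.lt_succ_sqrt _
    have h2 : ((⌊c * N⌋₊ + 1 : ℕ) : ℝ) ≤ (((τ + 1) * (τ + 1) : ℕ) : ℝ) := by exact_mod_cast h1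
    have h3 := Nat.lt_floor_add_one (c * N)
    push_cast at h2
    nlinarith
  have hτ3 : 1 ≤ τ := by
    rw [hτ, Nat.le_sqrt]
    refine Nat.le_floor ?_
    have h1 : (1 : ℝ) ≤ N := by nlinarith
    have h2 : N ≤ c * N := by nlinarith
    push_cast
    linarith
  have hc1 : 1 < c := by rw [hc]; linarith
  have hfr : c / (c - 1) = 20 * κ + 1 := by
    have h1 : c - 1 ≠ 0 := by linarith
    rw [div_eq_iff h1, hc]
    have : (20 * κ + 1) * (1 + 0.05 * u - 1) = (κ * u) + 0.05 * u := by ring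
    rw [this, hκu]
  refine crit4_param (A := A) (Q := Q) (s := s) (k := τ) (c := c) (m := 0.05 * u * N)
    (c0 := c * N + 80 * κ * s) (P0 := N ^ 2 - N * (1 + 2 * s + 20 * κ * s)) hA hr hQ hs'
    (by omega) hτ3 hsN0 hc1 (by positivity) (by positivity) hτ2 ?_ ?_ ?_ ?_
  · rw [← hN0, ← hN]
    have h1 : 4 * (s : ℝ) * N / (0.05 * u * N) = 80 * κ * s := by
      rw [div_eq_iff (by positivity)]
      have : 80 * κ * s * (0.05 * u * N) = (κ * u) * (4 * s * N) := by ring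
      rw [this, hκu, one_mul]
    rw [h1]
    linarith
  · have h1 : κ * s ≤ 0.001 * u * N := by
      calc κ * s ≤ κ * (0.001 * u ^ 2 * N) := mul_le_mul_of_nonneg_left f1 hκ0.le
        _ = (κ * u) * (0.001 * u * N) := by ring
        _ = 0.001 * u * N := by rw [hκu, one_mul]
    have h2 : u * N ≤ N := by nlinarith
    have h3 : u ^ 2 * N ≤ N := by nlinarith
    have h4 : 1 + 2 * (s : ℝ) + 20 * κ * s ≤ N := by nlinarith
    nlinarith
  · rw [← hN0, ← hN, hfr]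
    linarith
  · rw [← hN0, ← hN, ← hnR]
    have := numK (N := N) (n := n) (s := (s : ℝ)) (κ := κ) (u := u) (τ := (τ : ℝ)) hu0 hu1 hκu f2 f1
      (by linarith) (Nat.cast_nonneg _) f3 (Nat.cast_nonneg _) hτ1
    exact this

end Pool.Agent.Helper56.Window
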