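import Pool.Agent.Helper56.BP.Master
import Pool.Agent.Helper38.Thick.LM
import Pool.Agent.Helper80.BP.VE

/-!
# Rank four from a value statement only
-/

set_option autoImplicit false
set_option linter.unusedSectionVars false

namespace Pool.Agent.Helper56.BP

open Pool.Agent.Helper28.BPack Pool.Agent.Helper61.Motz Pool.Agent.Helper38.Thick
  Pool.Agent.Helper38.SC Pool.Agent.Helper80.BP

variable {L : Type} [Lattice L] [BoundedOrder L] [Finite L] [IsUpperModularLattice L]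

/-- The frame: a longest line `u`, a basis `b1, b2, r1, r2`, a representative `r x` for every plane
`x ⊔ u`; the points of `r1 ⊔ r2` are representatives. -/
structure Frm [DecidableRel (α := L) (· ≤ ·)] (A : Finset L) (u b1 b2 r1 r2 : L) (r : L → L) :
    Prop where
  at_ : ∀ a ∈ A, IsAtom a
  ru : rk u = 2
  b1A : b1 ∈ A
  b2A : b2 ∈ A
  b12 : b1 ≠ b2
  bu : b1 ⊔ b2 = u
  r1A : r1 ∈ A
  r2A : r2 ∈ A
  r4 : rk (u ⊔ r1 ⊔ r2) = 4
  max : ∀ k, rk k = 2 → (A.filter (· ≤ k)).card ≤ (A.filter (· ≤ u)).card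
  hr : ∀ x ∈ A, ¬ x ≤ u → r x ∈ A ∧ ¬ r x ≤ u ∧ r x ≤ x ⊔ u
  hrr : ∀ x ∈ A, ¬ x ≤ u → ∀ y ∈ A, ¬ y ≤ u → y ≤ x ⊔ u → r x = r y
  rr1 : r r1 = r1
  rr2 : r r2 = r2
  rv : ∀ x ∈ A, x ≤ r1 ⊔ r2 → r x = x

/-- The participants. -/
def NN [DecidableEq L] [DecidableRel (α := L) (· ≤ ·)] (A : Finset L) (u r1 r2 : L) : Finset L :=
  A.filter (fun x => ¬ x ≤ u ∧ x ≠ r1 ∧ x ≠ r2)

/-- The representatives other than `r1`, `r2`. -/
def RR [DecidableEq L] [DecidableRel (α := L) (· ≤ ·)] (A : Finset L) (u r1 r2 : L) (r : L → L) :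
    Finset L :=
  A.filter (fun x => ¬ x ≤ u ∧ x ≠ r1 ∧ x ≠ r2 ∧ r x = x)

/-- The forced zero rows. -/
def ZZ (r1 r2 : L) (k : L) : Prop := r1 ≤ k ∨ r2 ≤ k

/-- The planes which a row may use. -/
def AD (u r1 r2 : L) (k H : L) : Prop := rk H = 3 ∧ k ≤ H ∧ ¬ u ≤ H ∧ ¬ r1 ⊔ r2 ≤ H

/-- The classes in the scale of `SE`. -/
def c2 (rc : L → ℕ) (x : L) : ℕ := if rc x = 0 then 2 else 2 * rc x + 1

theorem c2_mono {rc : L → ℕ} {x y : L} (h : rc x ≤ rc y) : c2 rc x ≤ c2 rc y := by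
  unfold c2
  split_ifs <;> omega

theorem le_of_c2 {rc : L → ℕ} {x y : L} (h : c2 rc x ≤ c2 rc y) : rc x ≤ rc y := by
  unfold c2 at h
  split_ifs at h <;> omega

/-- A full state gives `SE`. -/
theorem Full.se [DecidableEq L] {A N : Finset L} {u : L} {Z : L → Prop}
    {harm adj : L → L → Prop} {Rep0 Rep : Finset L} {adj' : L → L → Prop} {own : L → Finset L}
    {pl : L → L} {rc : L → ℕ} (S : Full A N u Z harm adj Rep0 Rep adj' own pl rc) :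
    Pool.Agent.Helper80.BP.E.SE A (N \ Rep) u own (c2 rc) := by
  have T := S.sta
  refine ⟨T.at_, T.ru, T.mem, T.off, T.ownA, T.uniq, ?_, T.own1, ?_, ?_⟩
  · intro v hv c hc y hy hyk
    exact c2_mono (S.low v hv c hc y hy hyk)
  · intro v hv
    have h1 := S.bal v hv
    have h2 := T.own1 v hv
    unfold c2
    split_ifs <;> omega
  · intro v hv
    have h1 := S.bal v hv
    have h2 := T.own1 v hv
    unfold c2
    split_ifs <;> omega

/-- **Rank four from a value statement only.** -/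
theorem crit4_of_value [DecidableEq L] [DecidableRel (α := L) (· ≤ ·)] {A : Finset L}
    (hA : ∀ a ∈ A, IsAtom a) (hrA : rk (A.sup id) = 4) (hcore : Core A)
    (harm : L → L → L → L → L → Prop)
    (hval : ∀ (u b1 b2 r1 r2 : L) (r : L → L), Frm A u b1 b2 r1 r2 r →
      ∀ (Rep : Finset L) (adj' : L → L → Prop) (own : L → Finset L) (pl : L → L) (rc : L → ℕ),
        Full A (NN A u r1 r2) u (ZZ r1 r2) (harm u r1 r2) (AD u r1 r2) (RR A u r1 r2 r) Rep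
          adj' own pl rc →
      ∃ (Ls : L → L → Finset L) (σ : L → L → ℚ),
        (∀ x ∈ A, ¬ x ≤ u → x ≠ r1 → x ≠ r2 → x ∉ Rep → ∀ a ∈ own x,
          Ls x a ⊆ pen A x (x ⊔ a) (pl (x ⊔ a))) ∧
        (∀ a g, 0 ≤ σ a g) ∧
        (∀ g, rk g = 2 → ∑ a ∈ A.filter (· ≤ u), σ a g ≤ 1) ∧
        (∀ x ∈ A, ¬ x ≤ u → x ≠ r1 → x ≠ r2 → x ∉ Rep →
          1 ≤ ∑ a ∈ own x, ∑ g ∈ Ls x a, σ a g)) : Crit4 A := by
  obtain ⟨u, b1, b2, r1, r2, r, hu, hb1, hb2, hb12, hbu, hr1, hr2, h4, hmax, hr, hrr, hrr1, hrr2,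
    hrv, hno⟩ := frame_exists hA hrA hcore
  have FR : Frm A u b1 b2 r1 r2 r :=
    ⟨hA, hu, hb1, hb2, hb12, hbu, hr1, hr2, h4, hmax, hr, hrr, hrr1, hrr2, hrv⟩
  have hbu1 : b1 ≤ u := hbu ▸ le_sup_left
  have hbu2 : b2 ≤ u := hbu ▸ le_sup_right
  set v := r1 ⊔ r2 with hvdef
  -- more on the frame
  have hr2u' : ¬ r2 ≤ u ⊔ r1 := by
    intro h
    have h1 := rk_sup_atom_le (x := u) (hA r1 hr1)
    rw [sup_eq_left.mpr h] at h4
    omega
  have hr12 : r1 ≠ r2 := fun h => hr2u' (h ▸ le_sup_right)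
  have hv : rk v = 2 := rk_line (hA r1 hr1) (hA r2 hr2) hr12
  have huv : rk (u ⊔ v) = 4 := by rw [hvdef, ← sup_assoc]; exact h4
  have hr1u : ¬ r1 ≤ u := by
    intro h
    have h1 := rk_sup_atom_le (x := u) (hA r2 hr2)
    rw [sup_eq_left.mpr h] at h4
    omega
  have hr2u : ¬ r2 ≤ u := fun h => hr2u' (h.trans le_sup_left)
  set R : Finset L := A.filter (fun x => ¬ x ≤ u ∧ r x ≠ x) with hRdef
  have hmR : ∀ x, x ∈ R ↔ x ∈ A ∧ ¬ x ≤ u ∧ r x ≠ x := fun x => by simp [hRdef]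
  have hU : 2 ≤ (A.filter (· ≤ u)).card := by
    have h2 : ({b1, b2} : Finset L) ⊆ A.filter (· ≤ u) := by
      intro z hz
      rw [Finset.mem_insert, Finset.mem_singleton] at hz
      rw [Finset.mem_filter]
      rcases hz with rfl | rfl
      · exact ⟨hb1, hbu1⟩
      · exact ⟨hb2, hbu2⟩
    have h3 := Finset.card_le_card h2
    rwa [Finset.card_pair hb12] at h3
  -- two points of `u`
  have two : ∀ a ∈ A, a ≤ u → ∀ a' ∈ A, a' ≤ u → a ≠ a' → ∀ p, a ≤ p → a' ≤ p → u ≤ p := by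
    intro a ha hau a' ha' hau' hne p h1 h2
    rw [← line_of (hA a ha) (hA a' ha') hne hau hau' hu]
    exact sup_le h1 h2
  -- level 1
  obtain ⟨cc, hcc, hccinj⟩ := level1 (R := R) (r := r) hA hu hU (fun k hk _ => hmax k hk)
    (fun x hx => by
      obtain ⟨h1, h2, h3⟩ := (hmR x).mp hx
      exact ⟨h1, h2, hA _ (hr x h1 h2).1, h3⟩)
  -- level 2
  have hl2 : ∀ c, c ∈ A ∧ c ≤ u → ∃ HR : L → L, (∀ x ∈ A, ¬ x ≤ u → ¬ r x ≤ x ⊔ c →
        rk (HR x) = 3 ∧ x ⊔ c ≤ HR x ∧ ¬ u ≤ HR x ∧ HR x ≠ c ⊔ v ∧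
        ∃ z ∈ A, z ≤ HR x ∧ ¬ z ≤ x ⊔ c) ∧
      (∀ x ∈ A, ¬ x ≤ u → ¬ r x ≤ x ⊔ c → ∀ y ∈ A, ¬ y ≤ u → ¬ r y ≤ y ⊔ c →
        HR x = HR y → x ⊔ c = y ⊔ c) ∧
      (∀ x y, x ⊔ c = y ⊔ c → HR x = HR y) := fun c hc =>
    level2_rows hA hrA hu hv huv hc.1 hc.2 hr1 hr2 hr1u hr2u le_sup_left le_sup_right hr12 hr
      hrr hrr1 hrr2 (hno c hc.1 hc.2)
  choose! HH hHH hHHinj hHHc using hl2
  -- no point of the row of `x` is a representative
  have hrow : ∀ x ∈ R, ∀ s ∈ A, ¬ s ≤ u → r s = s → ¬ s ≤ x ⊔ cc x := by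
    intro x hx s hs hsu hss h
    obtain ⟨h1, h2, h3⟩ := (hmR x).mp hx
    obtain ⟨h5, h6, h7⟩ := hcc x hx
    have h8 : s ≤ x ⊔ u := h.trans (sup_le_sup_left h6 x)
    exact h7 (by rw [hrr x h1 h2 s hs hsu h8, hss]; exact h)
  have hR : ∀ x ∈ A, ¬ x ≤ u → x ≠ r1 → x ≠ r2 → x ∉ RR A u r1 r2 r → x ∈ R := by
    intro x h1 h2 h3 h5 h6
    refine (hmR x).mpr ⟨h1, h2, fun e => h6 ?_⟩
    exact Finset.mem_filter.mpr ⟨h1, h2, h3, h5, e⟩
  have hmRR : ∀ x, x ∈ RR A u r1 r2 r ↔ x ∈ A ∧ ¬ x ≤ u ∧ x ≠ r1 ∧ x ≠ r2 ∧ r x = x := fun x => by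
    simp only [RR, Finset.mem_filter]
  have hPx : ∀ x ∈ R, AD u r1 r2 (x ⊔ cc x) (HH (cc x) x) := by
    intro x hx
    obtain ⟨h1, h2, -⟩ := (hmR x).mp hx
    obtain ⟨h5, h6, h7⟩ := hcc x hx
    obtain ⟨k1, k2, k3, k4, -⟩ := hHH (cc x) ⟨h5, h6⟩ x h1 h2 h7
    refine ⟨k1, k2, k3, fun h => k4 ?_⟩
    have hcv : ¬ cc x ≤ v := by
      intro hcv
      have hne : cc x ≠ r1 := fun e => hr1u (e ▸ h6)
      have e2 : cc x ⊔ r1 = v := line_of (hA _ h5) (hA r1 hr1) hne hcv le_sup_left hv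
      exact hr2u' ((le_sup_right : r2 ≤ v).trans
        (e2.symm.le.trans (sup_le (h6.trans le_sup_left) le_sup_right)))
    have hk3 : rk (cc x ⊔ v) = 3 := by rw [sup_comm, rk_sup_atom (hA _ h5) hcv, hv]
    exact (eq_of_le_of_rk (sup_le (le_sup_right.trans k2) h) (by rw [hk3, k1])).symm
  refine crit4_of_state (A := A) (Rep0 := RR A u r1 r2 r) (u := u) (b1 := b1) (b2 := b2)
    (r1 := r1) (r2 := r2) (c := fun x => if x ≤ u then r1 else b1)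
    (d := fun x => if x ≤ u then r2 else b2) (m := cc) (P := fun x => HH (cc x) x)
    (adj := AD u r1 r2) (harm := harm u r1 r2) (Z := ZZ r1 r2) hA hu hb1 hb2 hbu hr1 hr2 h4
    ?_ ?_ ?_ ?_ ?_ ?_ ?_ ?_ ?_ ?_ ?_ ?_ ?_ ?_
  · intro s hs
    obtain ⟨h1, h2, h3, h5, h6⟩ := (hmRR s).mp hs
    refine ⟨h1, h2, h3, h5, fun h => h3 ?_, fun h => h5 ?_⟩
    · have h7 := hrr r1 hr1 hr1u s h1 h2 h
      rw [hrr1, h6] at h7
      exact h7.symm
    · have h7 := hrr r2 hr2 hr2u s h1 h2 h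
      rw [hrr2, h6] at h7
      exact h7.symm
  · intro x hx y hy h
    obtain ⟨h1, h2, h3, h5, h6⟩ := (hmRR x).mp hx
    obtain ⟨k1, k2, k3, k5, k6⟩ := (hmRR y).mp hy
    have h7 := hrr x h1 h2 y k1 k2 h
    rw [h6, k6] at h7
    exact h7
  · intro q _ hqu _ _
    simp only [hqu, if_true]
    exact ⟨hr1, hr2, h4⟩
  · intro q hq
    obtain ⟨h1, h2, h3, h5, h6⟩ := (hmRR q).mp hq
    simp only [h2, if_false]
    exact ⟨hb1, hbu1, hb2, hbu2, hb12⟩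
  · intro q _ hqu n1 n2 s hs hcs
    obtain ⟨h1, h2, h3, h5, h6⟩ := (hmRR s).mp hs
    simp only [h2, if_false] at hcs
    rcases hcs with e | e
    · exact absurd e.symm n1
    · exact absurd e.symm n2
  · intro q _ hqu _ _
    simp only [hqu, if_true]
    exact ⟨Or.inl le_sup_right, Or.inr le_sup_right⟩
  · exact ⟨Or.inl le_sup_right, Or.inr le_sup_right, Or.inl le_sup_right, Or.inr le_sup_right⟩
  · exact fun k H h => ⟨h.1, h.2.1, h.2.2.1⟩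
  · intro q _ hqu _ _ x _ _ h
    simp only [hqu, if_true] at h
    refine h.2.2.2 ?_
    exact sup_le (le_sup_right.trans le_sup_left) le_sup_right
  · intro x _ _
    exact ⟨fun h => h.2.2.2 le_sup_right, fun h => h.2.2.2 le_sup_right⟩
  · intro x h1 h2 h3 h5 h6
    have hx := hR x h1 h2 h3 h5 h6
    obtain ⟨k1, k2, k3⟩ := hcc x hx
    refine ⟨k1, k2, ?_, hPx x hx, ?_⟩
    · rintro (h | h)
      · exact hrow x hx r1 hr1 hr1u hrr1 h
      · exact hrow x hx r2 hr2 hr2u hrr2 h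
    · intro z hz
      obtain ⟨l1, l2, l3, l5, l6⟩ := (hmRR z).mp hz
      exact hrow x hx z l1 l2 l6
  · intro x h1 h2 h3 h5 h6 y k1 k2 k3 k5 k6 e
    exact hccinj x (hR x h1 h2 h3 h5 h6) y (hR y k1 k2 k3 k5 k6) e
  · intro x h1 h2 h3 h5 h6 y k1 k2 k3 k5 k6 e
    have hx := hR x h1 h2 h3 h5 h6
    have hy := hR y k1 k2 k3 k5 k6
    have e' : HH (cc x) x = HH (cc y) y := e
    have px := hPx x hx
    have py := hPx y hy
    obtain ⟨m1, m2, m3⟩ := hcc x hx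
    obtain ⟨n1, n2, n3⟩ := hcc y hy
    have hcol : cc x = cc y := by
      by_contra hne
      apply px.2.2.1
      refine two (cc x) m1 m2 (cc y) n1 n2 hne _ (le_sup_right.trans px.2.1) ?_
      rw [e']
      exact le_sup_right.trans py.2.1
    have e3 : HH (cc x) x = HH (cc x) y := by
      have : HH (cc y) y = HH (cc x) y := by rw [hcol]
      rw [← this]
      exact e'
    have e4 := hHHinj (cc x) ⟨m1, m2⟩ x h1 h2 m3 y k1 k2 (by rw [hcol]; exact n3) e3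
    exact hccinj x hx y hy (by rw [← hcol]; exact e4)
  · intro Rep adj' own pl rc S
    obtain ⟨Ls, σ, g1, g2, g3, g5⟩ := hval u b1 b2 r1 r2 r FR Rep adj' own pl rc S
    refine ⟨Ls, σ, fun x h1 h2 h3 h5 h6 a ha => ⟨g1 x h1 h2 h3 h5 h6 a ha, fun h => ?_⟩, g2, g3, g5⟩
    -- the line `v` is not in a used plane
    have hxN : x ∈ A.filter (fun x => ¬ x ≤ u ∧ x ≠ r1 ∧ x ≠ r2) \ Rep :=
      Finset.mem_sdiff.mpr ⟨Finset.mem_filter.mpr ⟨h1, h2, h3, h5⟩, h6⟩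
    have h7 := S.adj_le _ _ (S.sta.pln x hxN a ha).1
    obtain ⟨z, hz, hzH, hzk, e⟩ := mem_pen.mp (g1 x h1 h2 h3 h5 h6 a ha h)
    apply h7.2.2.2
    refine le_trans (le_of_eq e.symm) ?_
    exact sup_le (le_sup_left.trans h7.2.1) hzH

/-- **Rank four from row values**: every owned row is worth at least `1 / (number of owned rows)`
for the shares of helper80. -/
theorem crit4_of_row_values [DecidableEq L] [DecidableRel (α := L) (· ≤ ·)] {A : Finset L}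
    (hA : ∀ a ∈ A, IsAtom a) (hrA : rk (A.sup id) = 4) (hcore : Core A)
    (harm : L → L → L → L → L → Prop)
    (hval : ∀ (u b1 b2 r1 r2 : L) (r : L → L), Frm A u b1 b2 r1 r2 r →
      ∀ (Rep : Finset L) (adj' : L → L → Prop) (own : L → Finset L) (pl : L → L) (rc : L → ℕ),
        Full A (NN A u r1 r2) u (ZZ r1 r2) (harm u r1 r2) (AD u r1 r2) (RR A u r1 r2 r) Rep
          adj' own pl rc →
      ∀ x ∈ NN A u r1 r2 \ Rep, ∀ c ∈ own x, (1 : ℚ) / (own x).card ≤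
        ∑ g ∈ pen A x (x ⊔ c) (pl (x ⊔ c)), sig (NN A u r1 r2 \ Rep) own (c2 rc) c g) :
    Crit4 A := by
  refine crit4_of_value hA hrA hcore harm ?_
  intro u b1 b2 r1 r2 r FR Rep adj' own pl rc S
  have SS := S.se
  refine ⟨fun x a => pen A x (x ⊔ a) (pl (x ⊔ a)),
    sig (NN A u r1 r2 \ Rep) own (c2 rc), fun x _ _ _ _ _ a _ => Finset.Subset.refl _,
    fun a g => sig_nonneg _ _ _ a g, fun g _ => Pool.Agent.Helper80.BP.E.sig_sum_le SS g, ?_⟩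
  intro x h1 h2 h3 h5 h6
  have hxN : x ∈ NN A u r1 r2 \ Rep :=
    Finset.mem_sdiff.mpr ⟨Finset.mem_filter.mpr ⟨h1, h2, h3, h5⟩, h6⟩
  have h7 := Finset.sum_le_sum (fun c hc =>
    hval u b1 b2 r1 r2 r FR Rep adj' own pl rc S x hxN c hc)
  refine le_trans ?_ h7
  have h8 : (0 : ℚ) < (own x).card := by
    have := S.sta.own1 x hxN
    exact_mod_cast this
  rw [Finset.sum_const, nsmul_eq_mul, mul_one_div_cancel h8.ne']

end Pool.Agent.Helper56.BP
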