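import Pool.Agent.Helper85.Alloc85
import Pool.Agent.Helper38.Thick.Frame

/-!
# The allocation of rows and planes, in the lattice

`N` = participants (users and possible representatives), `Z` = forced zero rows, `adj k H` = the row
`k` may use the plane `H`, `harm` = harmful pairs.
-/

set_option autoImplicit false
set_option linter.unusedSectionVars false

namespace Pool.Agent.Helper56.BP

open Pool.Agent.Helper28.BPack Pool.Agent.Helper61.Motz Pool.Agent.Helper38.Thick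

variable {L : Type} [Lattice L] [BoundedOrder L] [Finite L] [IsUpperModularLattice L]

/-- The frame of the allocation. -/
structure Fr (A N : Finset L) (u : L) (adj : L → L → Prop) : Prop where
  at_ : ∀ a ∈ A, IsAtom a
  ru : rk u = 2
  mem : ∀ v ∈ N, v ∈ A
  off : ∀ v ∈ N, ¬ v ≤ u
  ad : ∀ k H, adj k H → rk H = 3 ∧ k ≤ H ∧ ¬ u ≤ H

/-- The state in the lattice: `R` users, `own x` the owned colours, `pl k` the plane of the row. -/
structure Sta (A R : Finset L) (u : L) (Z : L → Prop) (Rep : Finset L) (adj : L → L → Prop)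
    (own : L → Finset L) (pl : L → L) : Prop where
  at_ : ∀ a ∈ A, IsAtom a
  ru : rk u = 2
  mem : ∀ v ∈ R, v ∈ A
  off : ∀ v ∈ R, ¬ v ≤ u
  ownA : ∀ v ∈ R, ∀ c ∈ own v, c ∈ A ∧ c ≤ u
  nz : ∀ v ∈ R, ∀ c ∈ own v, ¬ Z (v ⊔ c)
  nrep : ∀ v ∈ R, ∀ c ∈ own v, ∀ z ∈ Rep, ¬ z ≤ v ⊔ c
  uniq : ∀ v ∈ R, ∀ v' ∈ R, ∀ c ∈ own v, c ∈ own v' → v ⊔ c = v' ⊔ c → v = v'
  pln : ∀ v ∈ R, ∀ c ∈ own v, adj (v ⊔ c) (pl (v ⊔ c)) ∧ rk (pl (v ⊔ c)) = 3 ∧
    v ⊔ c ≤ pl (v ⊔ c) ∧ ¬ u ≤ pl (v ⊔ c)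
  inj : ∀ v ∈ R, ∀ c ∈ own v, ∀ v' ∈ R, ∀ c' ∈ own v', pl (v ⊔ c) = pl (v' ⊔ c') →
    v = v' ∧ c = c'
  own1 : ∀ v ∈ R, 1 ≤ (own v).card

theorem trans85 [DecidableEq L] [DecidableRel (α := L) (· ≤ ·)] {A N Rep0 : Finset L} {u : L}
    {adj : L → L → Prop} (F : Fr A N u adj) (Z : L → Prop) (harm : L → L → Prop)
    (hRep0 : Rep0 ⊆ N) {m P : L → L}
    (hm : ∀ x ∈ N, x ∉ Rep0 → m x ∈ A ∧ m x ≤ u ∧ ¬ Z (x ⊔ m x) ∧ adj (x ⊔ m x) (P x) ∧
      ∀ z ∈ Rep0, ¬ z ≤ x ⊔ m x)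
    (hminj : ∀ x ∈ N, x ∉ Rep0 → ∀ y ∈ N, y ∉ Rep0 → x ⊔ m x = y ⊔ m y → x = y)
    (hPinj : ∀ x ∈ N, x ∉ Rep0 → ∀ y ∈ N, y ∉ Rep0 → P x = P y → x = y) :
    ∃ (Rep : Finset L) (adj' : L → L → Prop) (own : L → Finset L) (pl : L → L) (rc : L → ℕ),
      Rep ⊆ Rep0 ∧ (∀ k H, adj' k H → adj k H) ∧ (∀ k H, adj k H → ¬ harm k H → adj' k H) ∧
      Sta A (N \ Rep) u Z Rep adj' own pl ∧
      (∀ v ∈ N \ Rep, ∀ c ∈ own v, ∀ y ∈ N \ Rep, y ≤ v ⊔ c → rc v ≤ rc y) ∧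
      (∀ v ∈ N \ Rep, rc v ≤ (own v).card ∧ (own v).card ≤ rc v + 1) ∧
      -- an unowned row sees only planes of low owners
      (∀ y ∈ N \ Rep, ∀ c ∈ A, c ≤ u → ¬ Z (y ⊔ c) → (∀ z ∈ Rep, ¬ z ≤ y ⊔ c) →
        (∀ z ∈ N \ Rep, c ∈ own z → z ⊔ c ≠ y ⊔ c) → ∀ H, adj' (y ⊔ c) H →
        ∃ x ∈ N \ Rep, c ∈ own x ∧ pl (x ⊔ c) = H ∧ ∀ z ∈ N \ Rep, z ≤ y ⊔ c → rc x ≤ rc z) ∧
      -- the rows of the representatives
      (∀ r ∈ Rep, ∀ c ∈ A, c ≤ u → ¬ Z (r ⊔ c) → (∀ z ∈ Rep, z ≤ r ⊔ c → z = r) →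
        ∀ H, adj' (r ⊔ c) H → ∃ x ∈ N \ Rep, c ∈ own x ∧ pl (x ⊔ c) = H ∧ rc x = 0) ∧
      (∀ x ∈ N \ Rep, ∀ c ∈ own x, harm (x ⊔ c) (pl (x ⊔ c)) → rc x = 0) := by
  classical
  have : Fintype L := Fintype.ofFinite L
  obtain ⟨hA, hu, hNA, hNu, had⟩ := F
  have hne : ∀ x ∈ N, ∀ c, c ≤ u → x ≠ c := by
    rintro x hx c hc rfl
    exact hNu x hx hc
  have hrk : ∀ x ∈ N, ∀ c ∈ A, c ≤ u → rk (x ⊔ c) = 2 := fun x hx c hc hcu =>
    rk_line (hA x (hNA x hx)) (hA c hc) (hne x hx c hcu)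
  -- two points of `u` on a line through `x`
  have hcol : ∀ x ∈ N, ∀ c ∈ A, c ≤ u → ∀ c' ∈ A, c' ≤ u → c' ≤ x ⊔ c → c = c' := by
    intro x hx c hc hcu c' hc' hcu' h
    by_contra hcc
    have h1 := line_two (hA c hc) (hA c' hc') hcc (le_sup_right : c ≤ x ⊔ c) h
      (hrk x hx c hc hcu) hcu hcu' hu
    exact hNu x hx (h1 ▸ le_sup_left)
  have hrow : ∀ x ∈ N, ∀ y ∈ N, ∀ c ∈ A, c ≤ u → y ≤ x ⊔ c → y ⊔ c = x ⊔ c :=
    fun x hx y hy c hc hcu h =>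
      line_of (hA y (hNA y hy)) (hA c hc) (hne y hy c hcu) h le_sup_right (hrk x hx c hc hcu)
  -- the colour of a plane
  have hcolH : ∀ k H, adj k H → ∀ c ∈ A, c ≤ u → c ≤ H → ∀ c' ∈ A, c' ≤ u → c' ≤ H → c = c' := by
    intro k H hkH c hc hcu hcH c' hc' hcu' hcH'
    by_contra hcc
    apply (had k H hkH).2.2
    rw [← line_of (hA c hc) (hA c' hc') hcc hcu hcu' hu]
    exact sup_le hcH hcH'
  let X := {x : L // x ∈ N}
  let K := {k : L // ∃ x ∈ N, ∃ c ∈ A, c ≤ u ∧ ¬ Z k ∧ x ⊔ c = k}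
  let mm : K → Finset X := fun k => Finset.univ.filter (fun x => x.1 ≤ k.1)
  let aj : K → Finset L := fun k => Finset.univ.filter (fun H => adj k.1 H)
  let R0 : Finset X := Finset.univ.filter (fun x => x.1 ∈ Rep0)
  have hmm : ∀ (k : K) (x : X), x ∈ mm k ↔ x.1 ≤ k.1 := fun k x => by simp [mm]
  have haj : ∀ (k : K) (H : L), H ∈ aj k ↔ adj k.1 H := fun k H => by simp [aj]
  have hR0 : ∀ x : X, x ∈ R0 ↔ x.1 ∈ Rep0 := fun x => by simp [R0]
  let mk : ∀ (x c : L), x ∈ N → c ∈ A → c ≤ u → ¬ Z (x ⊔ c) → K :=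
    fun x c hx hc hcu hZ => ⟨x ⊔ c, x, hx, c, hc, hcu, hZ, rfl⟩
  -- the start
  have h0 : ∃ s : Pool.Agent.Alloc85.St X K L, Pool.Agent.Alloc85.Feas mm aj R0 s := by
    -- the user of a row
    let B0 : Finset K := Finset.univ.filter (fun k => ∃ x ∈ N, x ∉ Rep0 ∧ x ⊔ m x = k.1)
    have hB0 : ∀ k, k ∈ B0 ↔ ∃ x ∈ N, x ∉ Rep0 ∧ x ⊔ m x = k.1 := fun k => by simp [B0]
    by_cases hX : Nonempty X
    · obtain ⟨x0⟩ := hX
      let ow : K → X := fun k => if h : ∃ x ∈ N, x ∉ Rep0 ∧ x ⊔ m x = k.1 then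
        ⟨h.choose, h.choose_spec.1⟩ else x0
      have how : ∀ k ∈ B0, (ow k).1 ∉ Rep0 ∧ (ow k).1 ⊔ m (ow k).1 = k.1 := by
        intro k hk
        have h := (hB0 k).mp hk
        have e : ow k = ⟨h.choose, h.choose_spec.1⟩ := dif_pos h
        rw [e]
        exact h.choose_spec.2
      refine ⟨⟨B0, ow, fun k => P (ow k).1⟩, ⟨?_, ?_, ?_, ?_⟩, ?_⟩
      · intro k hk z hz hzR
        have h1 := how k hk
        have h2 := (hm _ (ow k).2 h1.1).2.2.2.2 z.1 ((hR0 z).mp hzR)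
        rw [h1.2] at h2
        exact h2 ((hmm k z).mp hz)
      · intro k hk
        have h1 := how k hk
        rw [hmm, ← h1.2]
        exact le_sup_left
      · intro k hk
        have h1 := how k hk
        rw [haj]
        have h2 := (hm _ (ow k).2 h1.1).2.2.2.1
        rw [h1.2] at h2
        exact h2
      · intro k hk k' hk' e
        have h1 := how k hk
        have h1' := how k' hk'
        have h2 := hPinj _ (ow k).2 h1.1 _ (ow k').2 h1'.1 e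
        apply Subtype.ext
        rw [← h1.2, ← h1'.2, h2]
      · intro z hz
        have hz' : z.1 ∉ Rep0 := fun h => hz ((hR0 z).mpr h)
        have h1 := hm z.1 z.2 hz'
        have hk : mk z.1 (m z.1) z.2 h1.1 h1.2.1 h1.2.2.1 ∈ B0 := (hB0 _).mpr ⟨z.1, z.2, hz', rfl⟩
        have h2 := how _ hk
        have h3 := hminj _ (ow (mk z.1 (m z.1) z.2 h1.1 h1.2.1 h1.2.2.1)).2 h2.1 z.1 z.2 hz' h2.2
        refine Nat.one_le_iff_ne_zero.mpr (Finset.card_ne_zero.mpr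
          ⟨mk z.1 (m z.1) z.2 h1.1 h1.2.1 h1.2.2.1, ?_⟩)
        rw [Finset.mem_filter]
        exact ⟨hk, Subtype.ext h3⟩
    · have hK : IsEmpty K := ⟨fun k => by
        obtain ⟨x, hx, -⟩ := k.2
        exact hX ⟨⟨x, hx⟩⟩⟩
      exact ⟨⟨∅, fun k => (hK.false k).elim, fun k => (hK.false k).elim⟩,
        ⟨fun k => (hK.false k).elim, fun k => (hK.false k).elim, fun k => (hK.false k).elim,
          fun k => (hK.false k).elim⟩, fun z => (hX ⟨z⟩).elim⟩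
  obtain ⟨Rp, aj', s, cl, D, g1, g2, g3, g4, g5, g6, g7, g8, g9, g10, g11⟩ :=
    Pool.Agent.Alloc85.alloc85h mm aj (fun k H => harm k.1 H) R0 h0
  -- translation
  let Rep : Finset L := Rp.map (Function.Embedding.subtype _)
  have hRep : ∀ x (hx : x ∈ N), x ∈ Rep ↔ (⟨x, hx⟩ : X) ∈ Rp := by
    intro x hx
    simp only [Rep, Finset.mem_map, Function.Embedding.coe_subtype]
    constructor
    · rintro ⟨a, ha, e⟩
      have : a = ⟨x, hx⟩ := Subtype.ext e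
      rw [← this]
      exact ha
    · intro h
      exact ⟨_, h, rfl⟩
  have hRepN : ∀ x ∈ Rep, x ∈ N := by
    intro x hx
    obtain ⟨a, -, e⟩ := Finset.mem_map.mp hx
    rw [← e]
    exact a.2
  let adj' : L → L → Prop := fun k H => adj k H ∧ ∀ h : (∃ x ∈ N, ∃ c ∈ A, c ≤ u ∧ ¬ Z k ∧
    x ⊔ c = k), H ∈ aj' ⟨k, h⟩
  let pl : L → L := fun k => if h : (∃ x ∈ N, ∃ c ∈ A, c ≤ u ∧ ¬ Z k ∧ x ⊔ c = k) then
    s.pl ⟨k, h⟩ else k
  have hpl : ∀ k : K, pl k.1 = s.pl k := fun k => dif_pos k.2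
  have hadj' : ∀ (k : K) (H : L), adj' k.1 H ↔ H ∈ aj' k := by
    intro k H
    constructor
    · intro h
      exact h.2 k.2
    · intro h
      exact ⟨(haj k H).mp (g2 k h), fun _ => h⟩
  let own : L → Finset L := fun x => A.filter (fun c => c ≤ u ∧
    ∃ (hx : x ∈ N) (k : K), k ∈ s.B ∧ s.own k = ⟨x, hx⟩ ∧ k.1 = x ⊔ c)
  have hown : ∀ x c, c ∈ own x ↔ c ∈ A ∧ c ≤ u ∧
      ∃ (hx : x ∈ N) (k : K), k ∈ s.B ∧ s.own k = ⟨x, hx⟩ ∧ k.1 = x ⊔ c := fun x c => by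
    simp only [own, Finset.mem_filter]
  -- a row in `B` and its owner
  have hB : ∀ k ∈ s.B, ∃ c, c ∈ own (s.own k).1 ∧ k.1 = (s.own k).1 ⊔ c := by
    intro k hk
    obtain ⟨y, hy, c, hc, hcu, hZ, e⟩ := k.2
    have h1 : (s.own k).1 ≤ k.1 := (hmm _ _).mp (g4 k hk).2.1
    have h2 : (s.own k).1 ⊔ c = k.1 := by
      rw [← e] at h1 ⊢
      exact hrow y hy _ (s.own k).2 c hc hcu h1
    exact ⟨c, (hown _ _).mpr ⟨hc, hcu, (s.own k).2, k, hk, rfl, h2.symm⟩, h2.symm⟩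
  have hcard : ∀ (x : L) (hx : x ∈ N), (own x).card = Pool.Agent.Alloc85.ld s ⟨x, hx⟩ := by
    intro x hx
    unfold Pool.Agent.Alloc85.ld
    symm
    have hex : ∀ k ∈ s.B.filter (fun k => s.own k = (⟨x, hx⟩ : X)),
        ∃ c, c ∈ own x ∧ k.1 = x ⊔ c := by
      intro k hk
      rw [Finset.mem_filter] at hk
      have h1 := hB k hk.1
      rw [hk.2] at h1
      exact h1
    refine Finset.card_bij' (fun k hk => (hex k hk).choose)
      (fun c hc => ((hown x c).mp hc).2.2.choose_spec.choose) ?_ ?_ ?_ ?_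
    · intro k hk
      exact (hex k hk).choose_spec.1
    · intro c hc
      have h1 := ((hown x c).mp hc).2.2.choose_spec.choose_spec
      rw [Finset.mem_filter]
      exact ⟨h1.1, h1.2.1⟩
    · intro k hk
      have h1 := (hex k hk).choose_spec
      have h2 := ((hown x _).mp h1.1).2.2.choose_spec.choose_spec
      apply Subtype.ext
      exact h2.2.2.trans h1.2.symm
    · intro c hc
      have h1 := ((hown x c).mp hc).2.2.choose_spec.choose_spec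
      have hk : ((hown x c).mp hc).2.2.choose_spec.choose ∈
          s.B.filter (fun k => s.own k = (⟨x, hx⟩ : X)) := by
        rw [Finset.mem_filter]
        exact ⟨h1.1, h1.2.1⟩
      have h2 := (hex _ hk).choose_spec
      have h3 := (hown x c).mp hc
      have h4 := (hown x _).mp h2.1
      exact hcol x hx _ h4.1 h4.2.1 c h3.1 h3.2.1 (by rw [← h2.2, h1.2.2]; exact le_sup_right)
  let rc : L → ℕ := fun x => if hx : x ∈ N then (if D ⟨x, hx⟩ then 0 else cl ⟨x, hx⟩) else 0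
  have hrc : ∀ (x : L) (hx : x ∈ N), rc x = if D ⟨x, hx⟩ then 0 else cl ⟨x, hx⟩ :=
    fun x hx => dif_pos hx
  have hrcle : ∀ (x : X) (y : X), cl x ≤ cl y → (D y → D x) → rc x.1 ≤ rc y.1 := by
    intro x y h1 h2
    rw [hrc x.1 x.2, hrc y.1 y.2]
    by_cases hy : D y
    · rw [if_pos (h2 hy)]
      exact Nat.zero_le _
    · by_cases hx : D x
      · rw [if_pos hx]
        exact Nat.zero_le _
      · rw [if_neg hx, if_neg hy]
        exact h1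
  have hmR : ∀ x, x ∈ N \ Rep ↔ ∃ hx : x ∈ N, (⟨x, hx⟩ : X) ∉ Rp := by
    intro x
    rw [Finset.mem_sdiff]
    constructor
    · rintro ⟨h1, h2⟩
      exact ⟨h1, fun h => h2 ((hRep x h1).mpr h)⟩
    · rintro ⟨h1, h2⟩
      exact ⟨h1, fun h => h2 ((hRep x h1).mp h)⟩
  -- the owner of a row in `B` is a user
  have hBR : ∀ k ∈ s.B, (s.own k).1 ∈ N \ Rep := by
    intro k hk
    rw [hmR]
    exact ⟨(s.own k).2, (g4 k hk).1 _ (g4 k hk).2.1⟩
  refine ⟨Rep, adj', own, pl, rc, ?_, ?_, ?_, ?_, ?_, ?_, ?_, ?_, ?_⟩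
  · intro x hx
    have h1 := hRepN x hx
    exact (hR0 ⟨x, h1⟩).mp (g1 ((hRep x h1).mp hx))
  · exact fun k H h => h.1
  · intro k H h hh
    exact ⟨h, fun h' => g3 ⟨k, h'⟩ H ((haj _ _).mpr h) hh⟩
  · refine ⟨hA, hu, ?_, ?_, ?_, ?_, ?_, ?_, ?_, ?_, ?_⟩
    · exact fun v hv => hNA v (Finset.mem_sdiff.mp hv).1
    · exact fun v hv => hNu v (Finset.mem_sdiff.mp hv).1
    · intro v _ c hc
      have h1 := (hown v c).mp hc
      exact ⟨h1.1, h1.2.1⟩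
    · intro v _ c hc
      obtain ⟨h1, h2, hx, k, hk, hk1, hk2⟩ := (hown v c).mp hc
      obtain ⟨y, hy, c', hc', hcu', hZ, e⟩ := k.2
      rw [← hk2]
      exact hZ
    · intro v _ c hc z hz hzk
      obtain ⟨h1, h2, hx, k, hk, hk1, hk2⟩ := (hown v c).mp hc
      have hzN := hRepN z hz
      exact (g4 k hk).1 ⟨z, hzN⟩ ((hmm _ _).mpr (by rw [hk2]; exact hzk)) ((hRep z hzN).mp hz)
    · intro v _ v' _ c hc hc' e
      obtain ⟨h1, h2, hx, k, hk, hk1, hk2⟩ := (hown v c).mp hc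
      obtain ⟨h1', h2', hx', k', hk', hk1', hk2'⟩ := (hown v' c).mp hc'
      have h3 : k = k' := Subtype.ext (by rw [hk2, hk2', e])
      rw [h3, hk1'] at hk1
      exact (congrArg Subtype.val hk1).symm
    · intro v _ c hc
      obtain ⟨h1, h2, hx, k, hk, hk1, hk2⟩ := (hown v c).mp hc
      have h3 : adj' (v ⊔ c) (pl (v ⊔ c)) := by
        rw [← hk2, hpl]
        exact (hadj' _ _).mpr (g4 k hk).2.2
      exact ⟨h3, had _ _ h3.1⟩
    · intro v hv c hc v' hv' c' hc' e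
      obtain ⟨h1, h2, hx, k, hk, hk1, hk2⟩ := (hown v c).mp hc
      obtain ⟨h1', h2', hx', k', hk', hk1', hk2'⟩ := (hown v' c').mp hc'
      rw [← hk2, ← hk2', hpl, hpl] at e
      have h3 := g5 k hk k' hk' e
      have h4 : v = v' := by
        rw [h3, hk1'] at hk1
        exact (congrArg Subtype.val hk1).symm
      refine ⟨h4, ?_⟩
      have h5 : v ⊔ c = v ⊔ c' := by
        have h6 : k.1 = k'.1 := congrArg Subtype.val h3
        rw [hk2, hk2', ← h4] at h6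
        exact h6
      exact hcol v hx c h1 h2 c' h1' h2' (by rw [h5]; exact le_sup_right)
    · intro v hv
      obtain ⟨hx, h1⟩ := (hmR v).mp hv
      rw [hcard v hx]
      exact (g6 _ h1).1.trans (g6 _ h1).2.1
  · intro v hv c hc y hy hyk
    obtain ⟨h1, h2, hx, k, hk, hk1, hk2⟩ := (hown v c).mp hc
    have hyN := (Finset.mem_sdiff.mp hy).1
    have h3 := g7 k hk ⟨y, hyN⟩ ((hmm _ _).mpr (by rw [hk2]; exact hyk))
    rw [hk1] at h3
    exact hrcle ⟨v, hx⟩ ⟨y, hyN⟩ h3.1 h3.2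
  · intro v hv
    obtain ⟨hx, h1⟩ := (hmR v).mp hv
    rw [hcard v hx, hrc v hx]
    have h2 := g6 _ h1
    by_cases hD : D ⟨v, hx⟩
    · rw [if_pos hD, g9 _ hD]
      omega
    · rw [if_neg hD]
      exact h2.2
  · intro y hy c hc hcu hZ hrep hno H hH
    have hyN := (Finset.mem_sdiff.mp hy).1
    set k0 : K := mk y c hyN hc hcu hZ with hk0
    have hk0v : k0.1 = y ⊔ c := rfl
    have h1 : k0 ∉ s.B := by
      intro h
      obtain ⟨c', h2, h3⟩ := hB k0 h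
      have h4 := (hown _ _).mp h2
      have h5 : c = c' := by
        apply hcol y hyN c hc hcu c' h4.1 h4.2.1
        rw [← hk0v, h3]
        exact le_sup_right
      rw [← h5] at h2 h3
      exact hno _ (hBR k0 h) h2 (h3.symm.trans hk0v)
    have h2 : ∀ z ∈ mm k0, z ∉ Rp := by
      intro z hz hzR
      exact hrep z.1 ((hRep z.1 z.2).mpr hzR) ((hmm _ _).mp hz)
    have h3 : (mm k0).Nonempty := ⟨⟨y, hyN⟩, (hmm _ _).mpr (by rw [hk0v]; exact le_sup_left)⟩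
    have h4 : H ∈ aj' k0 := (hadj' k0 H).mp hH
    obtain ⟨k, hk, hkH, hlow⟩ := g8 k0 h1 h2 h3 H h4
    obtain ⟨c', h5, h6⟩ := hB k hk
    have h7 := (hown _ _).mp h5
    have h8 : adj k.1 H := by
      rw [← hkH]
      exact (haj _ _).mp (g2 k (g4 k hk).2.2)
    have h9 : c' = c := by
      apply hcolH k.1 H h8 c' h7.1 h7.2.1 _ c hc hcu _
      · exact (h6 ▸ le_sup_right : c' ≤ k.1).trans (had _ _ h8).2.1
      · exact (le_sup_right : c ≤ y ⊔ c).trans (had _ _ hH.1).2.1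
    rw [h9] at h5 h6
    refine ⟨(s.own k).1, hBR k hk, h5, ?_, ?_⟩
    · rw [← h6, hpl]
      exact hkH
    · intro z hz hzk
      have hzN := (Finset.mem_sdiff.mp hz).1
      have h10 := hlow ⟨z, hzN⟩ ((hmm _ _).mpr (by rw [hk0v]; exact hzk))
      exact hrcle (s.own k) ⟨z, hzN⟩ h10.1 h10.2
  · intro r hr c hc hcu hZ honly H hH
    have hrN := hRepN r hr
    set k0 : K := mk r c hrN hc hcu hZ with hk0
    have hk0v : k0.1 = r ⊔ c := rfl
    have h4 : H ∈ aj' k0 := (hadj' k0 H).mp hH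
    obtain ⟨k, hk, hkH, hD⟩ := g10 ⟨r, hrN⟩ ((hRep r hrN).mp hr) k0
      ((hmm _ _).mpr (by rw [hk0v]; exact le_sup_left))
      (fun z hz hzR => Subtype.ext (honly z.1 ((hRep z.1 z.2).mpr hzR) ((hmm _ _).mp hz))) H h4
    obtain ⟨c', h5, h6⟩ := hB k hk
    have h7 := (hown _ _).mp h5
    have h8 : adj k.1 H := by
      rw [← hkH]
      exact (haj _ _).mp (g2 k (g4 k hk).2.2)
    have h9 : c' = c := by
      apply hcolH k.1 H h8 c' h7.1 h7.2.1 _ c hc hcu _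
      · exact (h6 ▸ le_sup_right : c' ≤ k.1).trans (had _ _ h8).2.1
      · exact (le_sup_right : c ≤ r ⊔ c).trans (had _ _ hH.1).2.1
    rw [h9] at h5 h6
    refine ⟨(s.own k).1, hBR k hk, h5, ?_, ?_⟩
    · rw [← h6, hpl]
      exact hkH
    · rw [hrc _ (s.own k).2, if_pos hD]
  · intro x hx c hc hh
    obtain ⟨h1, h2, hx', k, hk, hk1, hk2⟩ := (hown x c).mp hc
    rw [← hk2, hpl] at hh
    have h3 := g11 k hk hh
    rw [hk1] at h3
    rw [hrc x hx', if_pos h3]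

end Pool.Agent.Helper56.BP
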