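import Pool.Agent.Helper56.BP.Dict
import Pool.Agent.Helper85.Alloc85d
import Pool.Agent.Helper80.BP.VE

/-!
# The fine allocation in the lattice

`sw k H` = the switch of the pair (row, plane), `harm` = harmful switches, `E` = the harmful
switches which are on.
-/

set_option autoImplicit false
set_option linter.unusedSectionVars false

namespace Pool.Agent.Helper56.BP

open Pool.Agent.Helper28.BPack Pool.Agent.Helper61.Motz Pool.Agent.Helper38.Thick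
open Pool.Agent.Alloc85 (St Ok AvR ld Feas)

variable {L : Type} [Lattice L] [BoundedOrder L] [Finite L] [IsUpperModularLattice L]

/-- The switch allows the pair. -/
def On {W : Type} (sw : L → L → W) (harm : W → Prop) (E : Finset W) (k H : L) : Prop :=
  harm (sw k H) → sw k H ∈ E

/-- Everything which is known about the balanced state with ranks. -/
structure Fine [DecidableEq L] {W : Type} (A N : Finset L) (u : L) (Z : L → Prop)
    (adj : L → L → Prop) (sw : L → L → W) (harm : W → Prop) (Rep0 Rep : Finset L)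
    (E : Finset W) (own : L → Finset L) (pl : L → L) (rk' cls : L → ℕ) : Prop where
  rep : Rep ⊆ Rep0
  sta : Sta A (N \ Rep) u Z Rep adj own pl
  on : ∀ v ∈ N \ Rep, ∀ c ∈ own v, On sw harm E (v ⊔ c) (pl (v ⊔ c))
  mono : ∀ x ∈ N \ Rep, ∀ y ∈ N \ Rep, rk' x ≤ rk' y → cls x ≤ cls y
  odd : ∀ x ∈ N \ Rep, ∀ y ∈ N \ Rep, cls x = cls y → ¬ Even (cls x) → rk' x = rk' y
  two : ∀ x ∈ N \ Rep, 2 ≤ cls x
  lo : ∀ x ∈ N \ Rep, cls x ≤ 2 * (own x).card + 1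
  hi : ∀ x ∈ N \ Rep, 2 * (own x).card ≤ cls x + 1
  low : ∀ v ∈ N \ Rep, ∀ c ∈ own v, ∀ y ∈ N \ Rep, y ≤ v ⊔ c → rk' v ≤ rk' y
  /-- an unowned row sees only planes of low owners; strictly lower if the pair is harmful -/
  free : ∀ y ∈ N \ Rep, ∀ c ∈ A, c ≤ u → ¬ Z (y ⊔ c) → (∀ z ∈ Rep, ¬ z ≤ y ⊔ c) →
    (∀ z ∈ N \ Rep, c ∈ own z → z ⊔ c ≠ y ⊔ c) → ∀ H, adj (y ⊔ c) H →
    On sw harm E (y ⊔ c) H → ∃ x ∈ N \ Rep, c ∈ own x ∧ pl (x ⊔ c) = H ∧
      ∀ z ∈ N \ Rep, z ≤ y ⊔ c → rk' x ≤ rk' z ∧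
        (harm (sw (x ⊔ c) H) → sw (y ⊔ c) H ≠ sw (x ⊔ c) H → rk' x < rk' z)
  /-- the rows of the representatives see only planes of tight owners -/
  reps : ∀ r ∈ Rep, ∀ c ∈ A, c ≤ u → ¬ Z (r ⊔ c) → (∀ z ∈ Rep, z ≤ r ⊔ c → z = r) →
    ∀ H, adj (r ⊔ c) H → On sw harm E (r ⊔ c) H →
    ∃ x ∈ N \ Rep, c ∈ own x ∧ pl (x ⊔ c) = H ∧ cls x = 2
  /-- harmful pairs are used by tight owners only -/
  tight : ∀ x ∈ N \ Rep, ∀ c ∈ own x, harm (sw (x ⊔ c) (pl (x ⊔ c))) → cls x = 2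

theorem exists_fine [DecidableEq L] [DecidableRel (α := L) (· ≤ ·)] {W : Type} [DecidableEq W]
    {A N Rep0 : Finset L} {u : L} {adj : L → L → Prop} (F : Fr A N u adj) (Z : L → Prop)
    (sw : L → L → W) (harm : W → Prop) (hsw : ∀ k H k' H', sw k H = sw k' H' → H = H')
    {m P : L → L}
    (hm : ∀ x ∈ N, x ∉ Rep0 → m x ∈ A ∧ m x ≤ u ∧ ¬ Z (x ⊔ m x) ∧ adj (x ⊔ m x) (P x) ∧
      ∀ z ∈ Rep0, ¬ z ≤ x ⊔ m x)
    (hminj : ∀ x ∈ N, x ∉ Rep0 → ∀ y ∈ N, y ∉ Rep0 → x ⊔ m x = y ⊔ m y → x = y)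
    (hPinj : ∀ x ∈ N, x ∉ Rep0 → ∀ y ∈ N, y ∉ Rep0 → P x = P y → x = y) :
    ∃ (Rep : Finset L) (E : Finset W) (own : L → Finset L) (pl : L → L) (rk' cls : L → ℕ),
      Fine A N u Z adj sw harm Rep0 Rep E own pl rk' cls := by
  classical
  have : Fintype (KK A N u Z) := Fintype.ofFinite _
  obtain ⟨Rp, E, s, rk', cls, g1, g2, g3, g4, g5, g6, g7, g8, g9, g10, g11⟩ :=
    Pool.Agent.Alloc85.alloc85k2 (mm A N u Z) (aj A N u Z adj)
      (fun k H => sw k.1 H) harm (fun k q k' q' h => hsw _ _ _ _ h)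
      (N.attach.filter (fun x => x.1 ∈ Rep0)) (start_feas (Z := Z) F hm hminj hPinj)
  have hok : Ok (mm A N u Z) (aj A N u Z adj) (AvR (mm A N u Z) Rp) s :=
    ⟨fun k hk => (g2 k hk).1, fun k hk => (g2 k hk).2.1, fun k hk => (g2 k hk).2.2.1, g3⟩
  have hmR : ∀ x, x ∈ N \ repS N Rp ↔ ∃ hx : x ∈ N, (⟨x, hx⟩ : XX N) ∉ Rp := by
    intro x
    rw [Finset.mem_sdiff]
    constructor
    · rintro ⟨h1, h2⟩
      exact ⟨h1, fun h => h2 ((mem_repS h1).mpr h)⟩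
    · rintro ⟨h1, h2⟩
      exact ⟨h1, fun h => h2 ((mem_repS h1).mp h)⟩
  refine ⟨repS N Rp, E, ownS A N u Z s, plS A N u Z s, exS N rk', exS N cls, ?_,
    sta_of_ok F hok (fun z hz => (g5 z hz).1), ?_, ?_, ?_, ?_, ?_, ?_, ?_, ?_, ?_, ?_⟩
  · intro x hx
    have h1 := repS_sub hx
    have h2 := g1 ((mem_repS h1).mp hx)
    simpa using h2
  · intro v _ c hc
    obtain ⟨h1, h2, hx, k, hk, hk1, hk2⟩ := mem_ownS.mp hc
    rw [← hk2, plS_val]
    exact (g2 k hk).2.2.2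
  · intro x hx y hy h
    obtain ⟨hx1, hx2⟩ := (hmR x).mp hx
    obtain ⟨hy1, hy2⟩ := (hmR y).mp hy
    rw [exS_val hx1, exS_val hy1] at h ⊢
    exact g4 _ _ h
  · intro x hx y hy h1 h2
    obtain ⟨hx1, hx2⟩ := (hmR x).mp hx
    obtain ⟨hy1, hy2⟩ := (hmR y).mp hy
    rw [exS_val hx1, exS_val hy1] at h1 ⊢
    rw [exS_val hx1] at h2
    exact g11 _ _ h1 h2
  · intro x hx
    obtain ⟨hx1, hx2⟩ := (hmR x).mp hx
    rw [exS_val hx1]
    exact (g5 _ hx2).2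
  · intro x hx
    obtain ⟨hx1, hx2⟩ := (hmR x).mp hx
    rw [exS_val hx1, own_load F hok hx1]
    exact (g6 _).1
  · intro x hx
    obtain ⟨hx1, hx2⟩ := (hmR x).mp hx
    rw [exS_val hx1, own_load F hok hx1]
    exact (g6 _).2
  · intro v _ c hc y hy hyk
    obtain ⟨h1, h2, hx, k, hk, hk1, hk2⟩ := mem_ownS.mp hc
    have hyN := (Finset.mem_sdiff.mp hy).1
    have h3 := g7 k hk ⟨y, hyN⟩ (mem_mm.mpr (by rw [hk2]; exact hyk))
    rw [hk1] at h3
    rw [exS_val hx, exS_val hyN]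
    exact h3
  · intro y hy c hc hcu hZ hrep hno H hH hon
    have hyN := (Finset.mem_sdiff.mp hy).1
    have h1 := unowned F hok hyN hc hcu hZ hno
    obtain ⟨k, hk, hkH, hlow⟩ := g8 (mkR hyN hc hcu hZ) h1 (avail hyN hc hcu hZ hrep)
      (mm_nonempty hyN hc hcu hZ) H (mem_aj.mpr hH) hon
    have hcH : c ≤ s.pl k := by
      rw [hkH]
      exact (le_sup_right : c ≤ y ⊔ c).trans (F.ad _ _ hH).2.1
    obtain ⟨i1, i2, i3, i4⟩ := own_plane F hok hk hc hcu hcH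
    refine ⟨(s.own k).1, i1, i2, by rw [i4, hkH], ?_⟩
    intro z hz hzk
    have hzN := (Finset.mem_sdiff.mp hz).1
    have h10 := hlow ⟨z, hzN⟩ (mem_mm.mpr (by rw [mkR_val]; exact hzk))
    rw [exS_val (s.own k).2, exS_val hzN, ← i3]
    exact h10
  · intro r hr c hc hcu hZ honly H hH hon
    have hrN := repS_sub hr
    obtain ⟨k, hk, hkH, hD⟩ := g9 ⟨r, hrN⟩ ((mem_repS hrN).mp hr) (mkR hrN hc hcu hZ)
      (mem_mm.mpr (by rw [mkR_val]; exact le_sup_left))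
      (fun z hz hzR => Subtype.ext (honly z.1 ((mem_repS z.2).mpr hzR) (mem_mm.mp hz))) H
      (mem_aj.mpr hH) hon
    have hcH : c ≤ s.pl k := by
      rw [hkH]
      exact (le_sup_right : c ≤ r ⊔ c).trans (F.ad _ _ hH).2.1
    obtain ⟨i1, i2, i3, i4⟩ := own_plane F hok hk hc hcu hcH
    exact ⟨(s.own k).1, i1, i2, by rw [i4, hkH], by rw [exS_val (s.own k).2]; exact hD⟩
  · intro x _ c hc hh
    obtain ⟨h1, h2, hx', k, hk, hk1, hk2⟩ := mem_ownS.mp hc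
    rw [← hk2, plS_val] at hh
    have h3 := g10 k hk hh
    rw [hk1] at h3
    rw [exS_val hx', h3]

/-- A fine state gives `SE` for the ranks' classes. -/
theorem Fine.se [DecidableEq L] {W : Type} {A N : Finset L} {u : L} {Z : L → Prop}
    {adj : L → L → Prop} {sw : L → L → W} {harm : W → Prop} {Rep0 Rep : Finset L}
    {E : Finset W} {own : L → Finset L} {pl : L → L} {rk' cls : L → ℕ}
    (S : Fine A N u Z adj sw harm Rep0 Rep E own pl rk' cls) :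
    Pool.Agent.Helper80.BP.E.SE A (N \ Rep) u own cls := by
  have T := S.sta
  exact ⟨T.at_, T.ru, T.mem, T.off, T.ownA, T.uniq,
    fun v hv c hc y hy hyk => S.mono v hv y hy (S.low v hv c hc y hy hyk), T.own1, S.lo, S.hi⟩

end Pool.Agent.Helper56.BP
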