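import Pool.Agent.Helper56.BP.PlaneK
import Pool.Agent.Helper63.CR.Sharp
import Pool.Agent.Helper80.LP.LongLine

/-!
# Rank four: the window theorem from its three parts
-/

set_option autoImplicit false
set_option linter.unusedSectionVars false

namespace Pool.Agent.Helper56.Window

open Finset Pool.Agent.Helper28.BPack Pool.Agent.Helper61.Motz

variable {L : Type} [Lattice L] [BoundedOrder L] [Finite L] [IsUpperModularLattice L]
  [DecidableEq L] [DecidableRel (α := L) (· ≤ ·)]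

/-- The lower side, no condition on lines. -/
theorem crit4_lower {A : Finset L} (hA : ∀ a ∈ A, IsAtom a) (hr : rk (A.sup id) = 4)
    {k : ℕ} (hk : 1 ≤ k) (hn : 10 ^ 9 * k ^ 9 ≤ A.card) {N : ℕ}
    (hmax : ∀ H, rk H = 3 → (A.filter (· ≤ H)).card ≤ N)
    (h : k * N ^ 3 + A.card ^ 2 ≤ k * A.card ^ 2) : Crit4 A := by
  set n := A.card with hnd
  have hk0 : 0 < k := hk
  have hk39 : k ^ 3 ≤ k ^ 9 := Nat.pow_le_pow_right hk0 (by norm_num)
  have hN3 : N ^ 3 ≤ n ^ 2 := by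
    refine Nat.le_of_mul_le_mul_left ?_ hk0
    omega
  refine Pool.Agent.Helper63.CR.crit4_planes_sharp hA hr (t := N) (k := k) hk hmax ?_ ?_ h
  · rw [← hnd]
    by_contra hcon
    push Not at hcon
    have h1 : n ^ 3 < (1000 * k ^ 3 * N) ^ 3 := Nat.pow_lt_pow_left hcon (by norm_num)
    have h2 : (1000 * k ^ 3 * N) ^ 3 ≤ n ^ 3 := by
      calc (1000 * k ^ 3 * N) ^ 3 = (10 ^ 9 * k ^ 9) * N ^ 3 := by ring
        _ ≤ (10 ^ 9 * k ^ 9) * n ^ 2 := Nat.mul_le_mul_left _ hN3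
        _ ≤ n * n ^ 2 := Nat.mul_le_mul_right _ hn
        _ = n ^ 3 := by ring
    omega
  · calc 10 ^ 6 * k ^ 3 ≤ 10 ^ 9 * k ^ 9 := Nat.mul_le_mul (by norm_num) hk39
      _ ≤ n := hn

/-- The upper side: what is left are the lines with a positive part of all points. -/
theorem crit4_upper {A : Finset L} (hA : ∀ a ∈ A, IsAtom a) (hr : rk (A.sup id) = 4)
    {k : ℕ} (hk : 1 ≤ k) (hn : 10 ^ 12 * k ^ 6 ≤ A.card)
    (hV : ∀ u, rk u = 2 → A.card < 5 * 10 ^ 6 * k ^ 4 * (A.filter (· ≤ u)).card → Crit4 A)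
    {Q : L} (hQ : rk Q = 3)
    (hmax : ∀ H, rk H = 3 → (A.filter (· ≤ H)).card ≤ (A.filter (· ≤ Q)).card)
    (h : (k + 1) * A.card ^ 2 ≤ k * (A.filter (· ≤ Q)).card ^ 3) : Crit4 A := by
  set n := A.card with hnd
  set N := (A.filter (· ≤ Q)).card with hNd
  have hk0 : 0 < k := hk
  have hN3 : n ^ 2 ≤ N ^ 3 := by
    refine Nat.le_of_mul_le_mul_left ?_ hk0
    calc k * n ^ 2 ≤ (k + 1) * n ^ 2 := Nat.mul_le_mul_right _ (Nat.le_succ k)
      _ ≤ k * N ^ 3 := h
  set K : ℕ := 1000 * k ^ 2 with hK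
  have hK1 : 1000 ≤ K := by
    have : 1 ≤ k ^ 2 := Nat.one_le_pow _ _ hk
    omega
  by_cases hlong : ∃ u, rk u = 2 ∧ N < K * (A.filter (· ≤ u)).card
  · obtain ⟨u, hu, huN⟩ := hlong
    set S := (A.filter (· ≤ u)).card with hS
    by_cases h5 : 5 * (K * N) ≤ n
    · refine Pool.Agent.Helper80.LP.crit4_longlineK hA hr hu (N := N) (K := K) hmax ?_ huN.le h5
        ?_ (by omega)
      · rw [← hS]
        by_contra hcon
        push Not at hcon
        have h1 : N < K * (100 * K) :=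
          lt_of_lt_of_le huN (Nat.mul_le_mul_left _ hcon.le)
        have h2 : K * (100 * K) = 10 ^ 8 * k ^ 4 := by rw [hK]; ring
        rw [h2] at h1
        have h3 : N ^ 3 < (10 ^ 8 * k ^ 4) ^ 3 := Nat.pow_lt_pow_left h1 (by norm_num)
        have h4 : (10 ^ 12 * k ^ 6) ^ 2 ≤ n ^ 2 := Nat.pow_le_pow_left hn 2
        have h6 : (10 ^ 8 * k ^ 4) ^ 3 ≤ (10 ^ 12 * k ^ 6) ^ 2 := by
          have e1 : (10 ^ 8 * k ^ 4) ^ 3 = 10 ^ 24 * k ^ 12 := by ring
          have e2 : (10 ^ 12 * k ^ 6) ^ 2 = 10 ^ 24 * k ^ 12 := by ring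
          rw [e1, e2]
        omega
      · calc 1000 * N ≤ 5 * (K * N) := by nlinarith
          _ ≤ n := h5
    · push Not at h5
      refine hV u hu ?_
      rw [← hS]
      calc n < 5 * (K * N) := h5
        _ ≤ 5 * (K * (K * S)) := by
            exact Nat.mul_le_mul_left _ (Nat.mul_le_mul_left _ huN.le)
        _ = 5 * 10 ^ 6 * k ^ 4 * S := by rw [hK]; ring
  · push Not at hlong
    have hKpos : 0 < K := by omega
    have key := crit4_planeK (A := A) hA hr hQ (k := k) (s := N / K) hk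
    refine key ?_ ?_ ?_
    · intro g hg
      have h1 := hlong g hg
      have h2 : (A.filter (· ≤ g)).card ≤ N / K := by
        rw [Nat.le_div_iff_mul_le hKpos, mul_comm]
        exact h1
      convert h2
    · have h1 : K * (N / K) ≤ N := Nat.mul_div_le N K
      convert h1
    · convert h

/-- **(W_k)**, lines with at most `n / (5 * 10 ^ 6 * k ^ 4)` points. -/
theorem crit4_window_lines {A : Finset L} (hA : ∀ a ∈ A, IsAtom a) (hr : rk (A.sup id) = 4)
    {k : ℕ} (hk : 1 ≤ k) (hn : 10 ^ 12 * k ^ 9 ≤ A.card)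
    (hs : ∀ g, rk g = 2 → 5 * 10 ^ 6 * k ^ 4 * (A.filter (· ≤ g)).card ≤ A.card)
    {Q : L} (hQ : rk Q = 3)
    (hmax : ∀ H, rk H = 3 → (A.filter (· ≤ H)).card ≤ (A.filter (· ≤ Q)).card)
    (h : (k + 1) * A.card ^ 2 ≤ k * (A.filter (· ≤ Q)).card ^ 3 ∨
      k * (A.filter (· ≤ Q)).card ^ 3 + A.card ^ 2 ≤ k * A.card ^ 2) : Crit4 A := by
  have hk0 : 0 < k := hk
  rcases h with h | h
  · refine crit4_upper hA hr hk ?_ ?_ hQ hmax h
    · exact (Nat.mul_le_mul_left _ (Nat.pow_le_pow_right hk0 (by norm_num))).trans hn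
    · intro u hu h1
      exact absurd (hs u hu) (not_le.mpr h1)
  · exact crit4_lower hA hr hk ((Nat.mul_le_mul_right _ (by norm_num)).trans hn) hmax h

/-- **(W_k)** from a theorem on lines with at least `10 sqrt n` points. -/
theorem crit4_window_of {A : Finset L} (hA : ∀ a ∈ A, IsAtom a) (hr : rk (A.sup id) = 4)
    (hV : ∀ u, rk u = 2 → 100 * A.card ≤ (A.filter (· ≤ u)).card ^ 2 → Crit4 A)
    {k : ℕ} (hk : 1 ≤ k) (hn : 10 ^ 16 * k ^ 9 ≤ A.card) {Q : L} (hQ : rk Q = 3)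
    (hmax : ∀ H, rk H = 3 → (A.filter (· ≤ H)).card ≤ (A.filter (· ≤ Q)).card)
    (h : (k + 1) * A.card ^ 2 ≤ k * (A.filter (· ≤ Q)).card ^ 3 ∨
      k * (A.filter (· ≤ Q)).card ^ 3 + A.card ^ 2 ≤ k * A.card ^ 2) : Crit4 A := by
  have hk0 : 0 < k := hk
  rcases h with h | h
  · refine crit4_upper hA hr hk ?_ ?_ hQ hmax h
    · exact (Nat.mul_le_mul (by norm_num) (Nat.pow_le_pow_right hk0 (by norm_num))).trans hn
    · intro u hu h1
      refine hV u hu ?_
      set n := A.card with hnd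
      set S := (A.filter (· ≤ u)).card with hS
      have h2 : n ^ 2 ≤ (5 * 10 ^ 6 * k ^ 4 * S) ^ 2 := Nat.pow_le_pow_left h1.le 2
      have h3 : (5 * 10 ^ 6 * k ^ 4 * S) ^ 2 = (25 * 10 ^ 12 * k ^ 8) * S ^ 2 := by ring
      rw [h3] at h2
      have h4 : (25 * 10 ^ 12 * k ^ 8) * (100 * n) ≤ n ^ 2 := by
        calc (25 * 10 ^ 12 * k ^ 8) * (100 * n) = (25 * 10 ^ 14 * k ^ 8) * n := by ring
          _ ≤ (10 ^ 16 * k ^ 9) * n :=
              Nat.mul_le_mul_right _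
                (Nat.mul_le_mul (by norm_num) (Nat.pow_le_pow_right hk0 (by norm_num)))
          _ ≤ n * n := Nat.mul_le_mul_right _ hn
          _ = n ^ 2 := by ring
      exact Nat.le_of_mul_le_mul_left (h4.trans h2) (by positivity)
  · exact crit4_lower hA hr hk ((Nat.mul_le_mul_right _ (by norm_num)).trans hn) hmax h

end Pool.Agent.Helper56.Window
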