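import Pool.Agent.Helper56.BP.Window
import Pool.Agent.Helper98.DL.Main

/-!
# Rank four: the window theorem
-/

set_option autoImplicit false
set_option linter.unusedSectionVars false

namespace Pool.Agent.Helper56.Window

open Finset Pool.Agent.Helper28.BPack Pool.Agent.Helper61.Motz

variable {L : Type} [Lattice L] [BoundedOrder L] [Finite L] [IsUpperModularLattice L]
  [DecidableEq L] [DecidableRel (α := L) (· ≤ ·)]

/-- **(W_k)**, no condition on lines. -/
theorem crit4_window {A : Finset L} (hA : ∀ a ∈ A, IsAtom a) (hr : rk (A.sup id) = 4)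
    {k : ℕ} (hk : 1 ≤ k) (hn : 10 ^ 16 * k ^ 9 ≤ A.card) {Q : L} (hQ : rk Q = 3)
    (hmax : ∀ H, rk H = 3 → (A.filter (· ≤ H)).card ≤ (A.filter (· ≤ Q)).card)
    (h : (k + 1) * A.card ^ 2 ≤ k * (A.filter (· ≤ Q)).card ^ 3 ∨
      k * (A.filter (· ≤ Q)).card ^ 3 + A.card ^ 2 ≤ k * A.card ^ 2) : Crit4 A := by
  refine crit4_window_of hA hr ?_ hk hn hQ hmax h
  intro u hu h1
  refine Pool.Agent.Helper98.DL.crit4_dominating hA hr hu ?_
  have h2 : 14 * A.card ≤ (A.filter (· ≤ u)).card ^ 2 := by omega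
  convert h2

end Pool.Agent.Helper56.Window
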